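import Mathlib

set_option autoImplicit false
set_option linter.unusedSectionVars false

/-!
# Positive spanning sets and a relative form of the theorem of Steinitz
-/

namespace Pool.Agent.R172

open Set Module

variable {V : Type*} [NormedAddCommGroup V] [InnerProductSpace ℝ V] [FiniteDimensional ℝ V]

/-- `X - p` spans `F` positively, in terms of the functionals given by the elements of `F`. -/
def PS (F : Submodule ℝ V) (X : Finset V) (p : V) : Prop :=
  ∀ f ∈ F, f ≠ 0 → ∃ x ∈ X, 0 < inner ℝ f (x - p)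

lemma PS.mono {F F' : Submodule ℝ V} (h : F' ≤ F) {X : Finset V} {p : V} (hX : PS F X p) :
    PS F' X p := fun f hf hf0 => hX f (h hf) hf0

/-- Completing a positive circuit. -/
lemma PS.of_circuit {F : Submodule ℝ V} {p : V} {ι : Type*} [Fintype ι] (x : ι → V) (w : ι → ℝ)
    (hw : ∀ i, 0 < w i) (hsum : ∀ f ∈ F, ∑ i, w i * inner ℝ f (x i - p) = 0)
    {F₁ : Submodule ℝ V} (hF₁ : ∀ f ∈ F, (∀ i, inner ℝ f (x i - p) = 0) → f ∈ F₁)
    {X' : Finset V} (hx : ∀ i, x i ∈ X') (h1 : PS F₁ X' p) : PS F X' p := by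
  intro f hf hf0
  by_cases h : ∀ i, inner ℝ f (x i - p) = 0
  · exact h1 f (hF₁ f hf h) hf0
  · by_contra hcon
    push Not at hcon
    apply h
    intro i
    have h2 : ∀ j ∈ (Finset.univ : Finset ι), 0 ≤ - (w j * inner ℝ f (x j - p)) := by
      intro j _
      have := hcon (x j) (hx j)
      nlinarith [hw j]
    have h3 : ∑ j, - (w j * inner ℝ f (x j - p)) = 0 := by
      rw [Finset.sum_neg_distrib, hsum f hf, neg_zero]
    have h4 := (Finset.sum_eq_zero_iff_of_nonneg h2).1 h3 i (Finset.mem_univ i)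
    have := (hw i).ne'
    have h5 : w i * inner ℝ f (x i - p) = 0 := by linarith
    exact (mul_eq_zero.1 h5).resolve_left this

/-- The dimension of the span of a circuit. -/
lemma card_le_finrank_span {ι : Type} [Fintype ι] {z : ι → V} (hz : AffineIndependent ℝ z)
    (v : V) : Fintype.card ι ≤ finrank ℝ (Submodule.span ℝ (range fun i => z i - v)) + 1 := by
  rcases Nat.eq_zero_or_pos (Fintype.card ι) with h | h
  · omega
  · obtain ⟨n, hn⟩ : ∃ n, Fintype.card ι = n + 1 := ⟨Fintype.card ι - 1, by omega⟩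
    have h1 := hz.finrank_vectorSpan hn
    have h2 : vectorSpan ℝ (range z) ≤ Submodule.span ℝ (range fun i => z i - v) := by
      rw [vectorSpan_def, Submodule.span_le]
      rintro _ ⟨_, ⟨i, rfl⟩, _, ⟨j, rfl⟩, rfl⟩
      have e : (z i -ᵥ z j : V) = (z i - v) - (z j - v) := by
        rw [vsub_eq_sub]
        abel
      have : (z i -ᵥ z j : V) ∈ Submodule.span ℝ (range fun i => z i - v) := by
        rw [e]
        exact Submodule.sub_mem _ (Submodule.subset_span ⟨i, rfl⟩)
          (Submodule.subset_span ⟨j, rfl⟩)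
      exact this
    have h3 := Submodule.finrank_mono h2
    omega

/-- **Relative Steinitz theorem.** -/
lemma PS.exists_small {p : V} : ∀ (n : ℕ) (F : Submodule ℝ V), finrank ℝ F = n →
    ∀ X : Finset V, PS F X p → ∃ X₁ ⊆ X, X₁.card ≤ 2 * n ∧ PS F X₁ p := by
  classical
  intro n
  induction n using Nat.strong_induction_on with
  | _ n ih =>
  intro F hF X hX
  by_cases hbot : F = ⊥
  · refine ⟨∅, Finset.empty_subset _, by simp, fun f hf hf0 => ?_⟩
    rw [hbot, Submodule.mem_bot] at hf
    exact absurd hf hf0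
  -- the projections
  let P : V → V := fun x => F.starProjection (x - p)
  have hP : ∀ f ∈ F, ∀ x, inner ℝ f (x - p) = inner ℝ f (P x) := by
    intro f hf x
    have h1 := Submodule.inner_starProjection_left_eq_right F f (x - p)
    rw [Submodule.starProjection_eq_self_iff.2 hf] at h1
    exact h1
  have hPF : ∀ x, P x ∈ F := fun x => Submodule.starProjection_apply_mem F _
  let X' := X.filter (fun x => P x ≠ 0)
  have hX' : PS F X' p := by
    intro f hf hf0
    obtain ⟨x, hx, hpos⟩ := hX f hf hf0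
    refine ⟨x, Finset.mem_filter.2 ⟨hx, fun h => ?_⟩, hpos⟩
    rw [hP f hf, h, inner_zero_right] at hpos
    exact lt_irrefl _ hpos
  have h0 : (0 : V) ∈ convexHull ℝ (P '' (X' : Set V)) := by
    by_contra hcon
    obtain ⟨g, u, hu, hg⟩ := geometric_hahn_banach_point_closed (convex_convexHull ℝ _)
      (Set.Finite.isClosed_convexHull (𝕜 := ℝ) (X'.finite_toSet.image P)) hcon
    let v := (InnerProductSpace.toDual ℝ V).symm g
    have hv : ∀ b, inner ℝ v b = g b := fun b => InnerProductSpace.toDual_symm_apply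
    let f₀ := - F.starProjection v
    have hf₀ : f₀ ∈ F := F.neg_mem (Submodule.starProjection_apply_mem F _)
    have hneg : ∀ x ∈ X', inner ℝ f₀ (x - p) < 0 := by
      intro x hx
      have h1 : g (P x) > 0 := by
        have := hg (P x) (subset_convexHull ℝ _ ⟨x, hx, rfl⟩)
        rw [map_zero] at hu
        linarith
      have h2 : inner ℝ f₀ (x - p) = - g (P x) := by
        simp only [f₀, inner_neg_left]
        rw [Submodule.inner_starProjection_left_eq_right, hv]
      linarith
    obtain ⟨f', hf', hf'0⟩ := Submodule.exists_mem_ne_zero_of_ne_bot hbot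
    obtain ⟨x', hx', -⟩ := hX' f' hf' hf'0
    have hf₀0 : f₀ ≠ 0 := by
      intro h
      have := hneg x' hx'
      rw [h, inner_zero_left] at this
      exact lt_irrefl _ this
    obtain ⟨x, hx, hpos⟩ := hX' f₀ hf₀ hf₀0
    have := hneg x hx
    linarith
  obtain ⟨ι', hι, z', w', hz', haff', hw', hw1', hwz'⟩ := eq_pos_convex_span_of_mem_convexHull h0
  -- transfer to a small index type
  let e := Fintype.equivFin ι'
  let ι := Fin (Fintype.card ι')
  let z : ι → V := z' ∘ e.symm
  let w : ι → ℝ := w' ∘ e.symm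
  have haff : AffineIndependent ℝ z := haff'.comp_embedding e.symm.toEmbedding
  have hw : ∀ i, 0 < w i := fun i => hw' _
  have hw1 : ∑ i, w i = 1 := by rw [← hw1']; exact e.symm.sum_comp w'
  have hwz : ∑ i, w i • z i = 0 := by
    rw [← hwz']; exact e.symm.sum_comp (fun i => w' i • z' i)
  have hz : ∀ i, ∃ x ∈ X', P x = z i := fun i => by
    obtain ⟨x, hx, hxz⟩ := hz' ⟨e.symm i, rfl⟩
    exact ⟨x, hx, hxz⟩
  choose x hxX hxz using hz
  let K := Submodule.span ℝ (range z)
  have hKF : K ≤ F := by
    rw [Submodule.span_le]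
    rintro _ ⟨i, rfl⟩
    change z i ∈ F
    rw [← hxz i]
    exact hPF _
  have hcard : Fintype.card ι ≤ finrank ℝ K + 1 := by
    have := card_le_finrank_span haff 0
    have e : (fun i => z i - 0) = z := by
      funext i
      exact sub_zero _
    rw [e] at this
    exact this
  have hne : Nonempty ι := by
    by_contra hemp
    rw [not_nonempty_iff] at hemp
    rw [Finset.univ_eq_empty, Finset.sum_empty] at hw1
    exact zero_ne_one hw1
  have hKpos : 1 ≤ finrank ℝ K := by
    obtain ⟨i⟩ := hne
    by_contra hlt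
    have h1 : finrank ℝ K = 0 := by omega
    have h2 : K = ⊥ := Submodule.finrank_eq_zero.1 h1
    have h3 : z i ∈ K := Submodule.subset_span ⟨i, rfl⟩
    rw [h2, Submodule.mem_bot, ← hxz i] at h3
    exact (Finset.mem_filter.1 (hxX i)).2 h3
  have hdim := Submodule.finrank_add_inf_finrank_orthogonal hKF
  obtain ⟨X₁, hX₁, hX₁c, hX₁PS⟩ := ih (finrank ℝ (Kᗮ ⊓ F : Submodule ℝ V)) (by omega)
    (Kᗮ ⊓ F) rfl X (hX.mono inf_le_right)
  refine ⟨Finset.univ.image x ∪ X₁, ?_, ?_, ?_⟩
  · apply Finset.union_subset _ hX₁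
    intro y hy
    obtain ⟨i, -, rfl⟩ := Finset.mem_image.1 hy
    exact (Finset.mem_filter.1 (hxX i)).1
  · have h1 : (Finset.univ.image x).card ≤ Fintype.card ι := Finset.card_image_le
    have h2 := Finset.card_union_le (Finset.univ.image x) X₁
    omega
  · refine PS.of_circuit (F := F) (p := p) x w hw ?_ (F₁ := Kᗮ ⊓ F) ?_ ?_ ?_
    · intro f hf
      have : ∑ i, w i * inner ℝ f (x i - p) = inner ℝ f (∑ i, w i • z i) := by
        rw [inner_sum]
        refine Finset.sum_congr rfl fun i _ => ?_
        rw [inner_smul_right, hP f hf, hxz i]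
      rw [this, hwz, inner_zero_right]
    · intro f hf hf0
      refine ⟨?_, hf⟩
      change f ∈ Kᗮ
      rw [Submodule.mem_orthogonal']
      intro u hu
      induction hu using Submodule.span_induction with
      | mem u hu =>
        obtain ⟨i, rfl⟩ := hu
        rw [← hxz i, ← hP f hf]
        exact hf0 i
      | zero => exact inner_zero_right _
      | add a b _ _ ha hb => rw [inner_add_right, ha, hb, add_zero]
      | smul c a _ ha => rw [inner_smul_right, ha, mul_zero]
    · intro i
      exact Finset.mem_union_left _ (Finset.mem_image_of_mem x (Finset.mem_univ i))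
    · intro f hf hf0
      obtain ⟨y, hy, hpos⟩ := hX₁PS f hf hf0
      exact ⟨y, Finset.mem_union_right _ hy, hpos⟩

/-- **A small positively spanning subset through a given circuit.** -/
lemma PS.exists_through {F : Submodule ℝ V} {X : Finset V} {p : V} (hX : PS F X p)
    {j : ℕ} {z : Fin j → V} {w : Fin j → ℝ} (haff : AffineIndependent ℝ z) (hw : ∀ i, 0 < w i)
    (hw1 : ∑ i, w i = 1) (hwz : ∑ i, w i • z i = p) (hzX : ∀ i, z i ∈ X)
    (hzF : ∀ i, z i - p ∈ F) :
    ∃ C ⊆ X, (∀ i, z i ∈ C) ∧ PS F C p ∧ C.card + j ≤ 2 * finrank ℝ F + 2 := by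
  classical
  let K := Submodule.span ℝ (range fun i => z i - p)
  have hKF : K ≤ F := by
    rw [Submodule.span_le]
    rintro _ ⟨i, rfl⟩
    exact hzF i
  have hcard : j ≤ finrank ℝ K + 1 := by
    have := card_le_finrank_span haff p
    simpa [K] using this
  have hdim := Submodule.finrank_add_inf_finrank_orthogonal hKF
  obtain ⟨X₁, hX₁, hX₁c, hX₁PS⟩ := PS.exists_small (finrank ℝ (Kᗮ ⊓ F : Submodule ℝ V))
    (Kᗮ ⊓ F) rfl X (hX.mono inf_le_right)
  refine ⟨Finset.univ.image z ∪ X₁, ?_, ?_, ?_, ?_⟩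
  · apply Finset.union_subset _ hX₁
    intro y hy
    obtain ⟨i, -, rfl⟩ := Finset.mem_image.1 hy
    exact hzX i
  · intro i
    exact Finset.mem_union_left _ (Finset.mem_image_of_mem z (Finset.mem_univ i))
  · refine PS.of_circuit (F := F) (p := p) z w hw ?_ (F₁ := Kᗮ ⊓ F) ?_ ?_ ?_
    · intro f hf
      have : ∑ i, w i * inner ℝ f (z i - p) = inner ℝ f (∑ i, w i • (z i - p)) := by
        rw [inner_sum]
        refine Finset.sum_congr rfl fun i _ => ?_
        rw [inner_smul_right]
      rw [this]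
      simp only [smul_sub, Finset.sum_sub_distrib]
      rw [hwz, ← Finset.sum_smul, hw1, one_smul, sub_self, inner_zero_right]
    · intro f hf hf0
      refine ⟨?_, hf⟩
      change f ∈ Kᗮ
      rw [Submodule.mem_orthogonal']
      intro u hu
      induction hu using Submodule.span_induction with
      | mem u hu =>
        obtain ⟨i, rfl⟩ := hu
        exact hf0 i
      | zero => exact inner_zero_right _
      | add a b _ _ ha hb => rw [inner_add_right, ha, hb, add_zero]
      | smul c a _ ha => rw [inner_smul_right, ha, mul_zero]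
    · intro i
      exact Finset.mem_union_left _ (Finset.mem_image_of_mem z (Finset.mem_univ i))
    · intro f hf hf0
      obtain ⟨y, hy, hpos⟩ := hX₁PS f hf hf0
      exact ⟨y, Finset.mem_union_right _ hy, hpos⟩
  · have h1 : (Finset.univ.image z).card ≤ j := by
      have := Finset.card_image_le (s := (Finset.univ : Finset (Fin j))) (f := z)
      simpa using this
    have h2 := Finset.card_union_le (Finset.univ.image z) X₁
    omega

/-- A relative neighbourhood of `p` in the hull gives positive spanning. -/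
lemma PS.of_nhd {F : Submodule ℝ V} {X : Finset V} {p : V} {ε : ℝ} (hε : 0 < ε)
    (h : ∀ q, q - p ∈ F → dist q p < ε → q ∈ convexHull ℝ (X : Set V)) : PS F X p := by
  intro f hf hf0
  by_contra hcon
  push Not at hcon
  have hfn : 0 < ‖f‖ := norm_pos_iff.2 hf0
  let q := p + (ε / (2 * ‖f‖)) • f
  have hq : q ∈ convexHull ℝ (X : Set V) := by
    apply h
    · simp only [q, add_sub_cancel_left]
      exact F.smul_mem _ hf
    · simp only [q, dist_eq_norm, add_sub_cancel_left]
      rw [norm_smul, Real.norm_eq_abs, abs_of_pos (by positivity)]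
      have : ε / (2 * ‖f‖) * ‖f‖ = ε / 2 := by
        field_simp
      rw [this]
      linarith
  have hconv : Convex ℝ {y : V | inner ℝ f (y - p) ≤ 0} := by
    intro a ha b hb α β hα hβ hαβ
    simp only [mem_ofPred_eq] at ha hb ⊢
    have : α • a + β • b - p = α • (a - p) + β • (b - p) := by
      have hb1 : p = α • p + β • p := by rw [← add_smul, hαβ, one_smul]
      conv_lhs => rw [hb1]
      simp only [smul_sub]
      abel
    rw [this, inner_add_right, inner_smul_right, inner_smul_right]
    nlinarith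
  have h1 : inner ℝ f (q - p) ≤ 0 := convexHull_min (fun x hx => hcon x hx) hconv hq
  simp only [q, add_sub_cancel_left, inner_smul_right] at h1
  rw [real_inner_self_eq_norm_sq] at h1
  have : 0 < ε / (2 * ‖f‖) * ‖f‖ ^ 2 := by positivity
  linarith

/-- Positive spanning gives a relative neighbourhood of `p` in the hull. -/
lemma PS.exists_nhd {F : Submodule ℝ V} {X : Finset V} {p : V} (hX : PS F X p)
    (hne : X.Nonempty) (hXF : ∀ x ∈ X, x - p ∈ F) :
    ∃ ε > 0, ∀ q, q - p ∈ F → dist q p < ε → q ∈ convexHull ℝ (X : Set V) := by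
  classical
  have hK : IsCompact (Metric.sphere (0 : V) 1 ∩ F) :=
    (isCompact_sphere _ _).inter_right F.closed_of_finiteDimensional
  have hm : ∃ m > 0, ∀ f ∈ Metric.sphere (0 : V) 1 ∩ F, ∃ x ∈ X, m ≤ inner ℝ f (x - p) := by
    refine hK.induction_on
      (p := fun K => ∃ m > 0, ∀ f ∈ K, ∃ x ∈ X, m ≤ inner ℝ f (x - p)) ?_ ?_ ?_ ?_
    · exact ⟨1, one_pos, by simp⟩
    · rintro s t hst ⟨m, hm, ht⟩
      exact ⟨m, hm, fun f hf => ht f (hst hf)⟩
    · rintro s t ⟨m, hm, hs⟩ ⟨m', hm', ht⟩
      refine ⟨min m m', lt_min hm hm', ?_⟩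
      rintro f (hf | hf)
      · obtain ⟨x, hx, h⟩ := hs f hf
        exact ⟨x, hx, (min_le_left _ _).trans h⟩
      · obtain ⟨x, hx, h⟩ := ht f hf
        exact ⟨x, hx, (min_le_right _ _).trans h⟩
    · rintro f ⟨hf1, hfF⟩
      have hf0 : f ≠ 0 := by
        rintro rfl
        simp at hf1
      obtain ⟨x, hx, hpos⟩ := hX f hfF hf0
      refine ⟨{g | inner ℝ f (x - p) / 2 < inner ℝ g (x - p)},
        mem_nhdsWithin_of_mem_nhds ?_, inner ℝ f (x - p) / 2, by linarith,
        fun g hg => ⟨x, hx, le_of_lt hg⟩⟩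
      have : IsOpen {g : V | inner ℝ f (x - p) / 2 < inner ℝ g (x - p)} :=
        isOpen_lt continuous_const (by fun_prop)
      apply this.mem_nhds
      simp only [mem_ofPred_eq]
      linarith
  obtain ⟨m, hm, hmin⟩ := hm
  refine ⟨m, hm, fun q hqF hq => ?_⟩
  by_contra hcon
  obtain ⟨g, u, hu, hg⟩ := geometric_hahn_banach_point_closed (convex_convexHull ℝ _)
    (Set.Finite.isClosed_convexHull (𝕜 := ℝ) X.finite_toSet) hcon
  let v := (InnerProductSpace.toDual ℝ V).symm g
  have hv : ∀ b, inner ℝ v b = g b := fun b => InnerProductSpace.toDual_symm_apply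
  let f₀ := - F.starProjection v
  have hf₀ : f₀ ∈ F := F.neg_mem (Submodule.starProjection_apply_mem F _)
  have hin : ∀ b ∈ F, inner ℝ f₀ b = - inner ℝ v b := by
    intro b hb
    simp only [f₀, inner_neg_left]
    rw [Submodule.inner_starProjection_left_eq_right, Submodule.starProjection_eq_self_iff.2 hb]
  have hneg : ∀ x ∈ X, inner ℝ f₀ (x - p) < inner ℝ f₀ (q - p) := by
    intro x hx
    rw [hin _ (hXF x hx), hin _ hqF, inner_sub_right, inner_sub_right, hv, hv, hv]
    have := hg x (subset_convexHull ℝ _ hx)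
    linarith
  obtain ⟨x₀, hx₀⟩ := hne
  have hf₀0 : f₀ ≠ 0 := by
    intro h
    have := hneg x₀ hx₀
    rw [h, inner_zero_left, inner_zero_left] at this
    exact lt_irrefl _ this
  have hfn : 0 < ‖f₀‖ := norm_pos_iff.2 hf₀0
  obtain ⟨x, hx, hle⟩ := hmin ((‖f₀‖)⁻¹ • f₀) ⟨by
    rw [mem_sphere_zero_iff_norm, norm_smul, norm_inv, norm_norm, inv_mul_cancel₀ hfn.ne'],
    F.smul_mem _ hf₀⟩
  rw [inner_smul_left, RCLike.conj_to_real, inv_mul_eq_div, le_div_iff₀ hfn] at hle
  have h1 := hneg x hx
  have h2 := real_inner_le_norm f₀ (q - p)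
  rw [← dist_eq_norm] at h2
  nlinarith

end Pool.Agent.R172
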