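import Mathlib
import Pool.Agent.R172.Steinitz

set_option autoImplicit false
set_option linter.unusedSectionVars false

/-!
# A quantitative form of the theorem of Steinitz
-/

namespace Pool.Agent.R172

open Set Module Metric

variable {V : Type} [NormedAddCommGroup V] [InnerProductSpace ℝ V] [FiniteDimensional ℝ V]

/-- A uniform bound for a positively spanning set. -/
lemma PS.exists_uniform {X : Finset V} (hX : PS ⊤ X 0) :
    ∃ m > 0, ∀ u : V, ‖u‖ = 1 → ∃ x ∈ X, m ≤ inner ℝ u x := by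
  classical
  have hK : IsCompact (sphere (0 : V) 1) := isCompact_sphere _ _
  have hm : ∃ m > 0, ∀ f ∈ sphere (0 : V) 1, ∃ x ∈ X, m ≤ inner ℝ f x := by
    refine hK.induction_on
      (p := fun K => ∃ m > 0, ∀ f ∈ K, ∃ x ∈ X, m ≤ inner ℝ f x) ?_ ?_ ?_ ?_
    · exact ⟨1, one_pos, by simp⟩
    · rintro s t hst ⟨m, hm, ht⟩
      exact ⟨m, hm, fun f hf => ht f (hst hf)⟩
    · rintro s t ⟨m, hm, hs⟩ ⟨m', hm', ht⟩
      refine ⟨min m m', lt_min hm hm', ?_⟩
      rintro f (hf | hf)
      · obtain ⟨x, hx, h⟩ := hs f hf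
        exact ⟨x, hx, (min_le_left _ _).trans h⟩
      · obtain ⟨x, hx, h⟩ := ht f hf
        exact ⟨x, hx, (min_le_right _ _).trans h⟩
    · rintro f hf1
      have hf0 : f ≠ 0 := by
        rintro rfl
        simp at hf1
      obtain ⟨x, hx, hpos⟩ := hX f Submodule.mem_top hf0
      rw [sub_zero] at hpos
      refine ⟨{g | inner ℝ f x / 2 < inner ℝ g x},
        mem_nhdsWithin_of_mem_nhds ?_, inner ℝ f x / 2, by linarith,
        fun g hg => ⟨x, hx, le_of_lt hg⟩⟩
      have : IsOpen {g : V | inner ℝ f x / 2 < inner ℝ g x} :=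
        isOpen_lt continuous_const (by fun_prop)
      apply this.mem_nhds
      simp only [mem_ofPred_eq]
      linarith
  obtain ⟨m, hm, h⟩ := hm
  exact ⟨m, hm, fun u hu => h u (by simpa using hu)⟩

/-- **Quantitative Steinitz theorem**, for vectors indexed by a net of the sphere. -/
lemma exists_steinitz_const {d : ℕ} (hd : finrank ℝ V = d) (r : ℝ) (hr : 0 < r)
    (t : Finset V) (ht : ∀ u : V, ‖u‖ = 1 → ∃ v ∈ t, dist u v < r / 2) :
    ∃ m > 0, ∀ a : t → V, (∀ k, ‖a k‖ ≤ 1 ∧ r ≤ inner ℝ (a k) (k : V)) →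
      ∃ J : Finset t, J.card ≤ 2 * d ∧ ∀ u : V, ‖u‖ = 1 → ∃ k ∈ J, m ≤ inner ℝ u (a k) := by
  classical
  let 𝒦 : Set (t → V) := {a | ∀ k, ‖a k‖ ≤ 1 ∧ r ≤ inner ℝ (a k) (k : V)}
  have hcl : IsClosed 𝒦 := by
    have : 𝒦 = ⋂ k : t, ({a : t → V | ‖a k‖ ≤ 1} ∩ {a | r ≤ inner ℝ (a k) (k : V)}) := by
      ext a
      simp [𝒦]
    rw [this]
    refine isClosed_iInter fun k => IsClosed.inter ?_ ?_
    · exact isClosed_le (by fun_prop) continuous_const
    · exact isClosed_le continuous_const (by fun_prop)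
  have hcomp : IsCompact 𝒦 := by
    have hpi : IsCompact (Set.pi univ (fun _ : t => closedBall (0 : V) 1)) :=
      isCompact_univ_pi fun _ => isCompact_closedBall _ _
    refine hpi.of_isClosed_subset hcl ?_
    intro a ha k _
    simpa using (ha k).1
  suffices H : ∃ m > 0, ∀ a ∈ 𝒦, ∃ J : Finset t, J.card ≤ 2 * d ∧
      ∀ u : V, ‖u‖ = 1 → ∃ k ∈ J, m ≤ inner ℝ u (a k) by
    obtain ⟨m, hm, H⟩ := H
    exact ⟨m, hm, fun a ha => H a ha⟩
  refine hcomp.induction_on
    (p := fun K => ∃ m > 0, ∀ a ∈ K, ∃ J : Finset t, J.card ≤ 2 * d ∧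
      ∀ u : V, ‖u‖ = 1 → ∃ k ∈ J, m ≤ inner ℝ u (a k)) ?_ ?_ ?_ ?_
  · exact ⟨1, one_pos, by simp⟩
  · rintro s s' hst ⟨m, hm, h⟩
    exact ⟨m, hm, fun a ha => h a (hst ha)⟩
  · rintro s s' ⟨m, hm, hs⟩ ⟨m', hm', ht⟩
    refine ⟨min m m', lt_min hm hm', ?_⟩
    rintro a (ha | ha)
    · obtain ⟨J, hJ, h⟩ := hs a ha
      refine ⟨J, hJ, fun u hu => ?_⟩
      obtain ⟨k, hk, h'⟩ := h u hu
      exact ⟨k, hk, (min_le_left _ _).trans h'⟩
    · obtain ⟨J, hJ, h⟩ := ht a ha
      refine ⟨J, hJ, fun u hu => ?_⟩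
      obtain ⟨k, hk, h'⟩ := h u hu
      exact ⟨k, hk, (min_le_right _ _).trans h'⟩
  · intro a ha
    have hPS : PS ⊤ (Finset.univ.image a) (0 : V) := by
      intro f _ hf0
      have hfn : 0 < ‖f‖ := norm_pos_iff.2 hf0
      obtain ⟨v, hv, hdist⟩ := ht ((‖f‖)⁻¹ • f) (by
        rw [norm_smul, norm_inv, norm_norm, inv_mul_cancel₀ hfn.ne'])
      refine ⟨a ⟨v, hv⟩, Finset.mem_image_of_mem a (Finset.mem_univ _), ?_⟩
      rw [sub_zero]
      have h1 := (ha ⟨v, hv⟩).2
      have h2 := (ha ⟨v, hv⟩).1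
      have h3 : inner ℝ (a ⟨v, hv⟩) ((‖f‖)⁻¹ • f) = inner ℝ (a ⟨v, hv⟩) v +
          inner ℝ (a ⟨v, hv⟩) ((‖f‖)⁻¹ • f - v) := by
        rw [← inner_add_right, add_sub_cancel]
      have h4 : |inner ℝ (a ⟨v, hv⟩) ((‖f‖)⁻¹ • f - v)| ≤ r / 2 := by
        refine (abs_real_inner_le_norm _ _).trans ?_
        rw [← dist_eq_norm]
        have := dist_nonneg (x := (‖f‖)⁻¹ • f) (y := v)
        nlinarith [norm_nonneg (a ⟨v, hv⟩)]
      have h5 := (abs_le.1 h4).1
      have h1' : r ≤ inner ℝ (a ⟨v, hv⟩) v := h1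
      have h6 : 0 < inner ℝ (a ⟨v, hv⟩) ((‖f‖)⁻¹ • f) := by
        rw [h3]
        linarith
      rw [inner_smul_right] at h6
      rw [real_inner_comm]
      exact (pos_iff_pos_of_mul_pos h6).1 (inv_pos.2 hfn)
    obtain ⟨Y, hYX, hYc, hYPS⟩ := PS.exists_small d ⊤ (by rw [finrank_top]; exact hd) _ hPS
    obtain ⟨m, hm, hmin⟩ := hYPS.exists_uniform
    -- choose the indices
    have hidx : ∀ y : Y, ∃ k : t, a k = y := by
      intro y
      obtain ⟨k, -, hk⟩ := Finset.mem_image.1 (hYX y.2)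
      exact ⟨k, hk⟩
    choose g hg using hidx
    let J : Finset t := Finset.univ.image g
    have hJ : J.card ≤ 2 * d := by
      refine (Finset.card_image_le).trans ?_
      simpa using hYc
    refine ⟨ball a (m / 2), mem_nhdsWithin_of_mem_nhds (ball_mem_nhds a (by linarith)),
      m / 2, by linarith, fun a' ha' => ⟨J, hJ, fun u hu => ?_⟩⟩
    obtain ⟨x, hx, hmx⟩ := hmin u hu
    refine ⟨g ⟨x, hx⟩, Finset.mem_image_of_mem g (Finset.mem_univ _), ?_⟩
    have h1 : dist (a' (g ⟨x, hx⟩)) (a (g ⟨x, hx⟩)) < m / 2 :=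
      (dist_le_pi_dist a' a _).trans_lt ha'
    have h2 : inner ℝ u (a' (g ⟨x, hx⟩)) = inner ℝ u (a (g ⟨x, hx⟩)) +
        inner ℝ u (a' (g ⟨x, hx⟩) - a (g ⟨x, hx⟩)) := by
      rw [← inner_add_right, add_sub_cancel]
    have h3 : |inner ℝ u (a' (g ⟨x, hx⟩) - a (g ⟨x, hx⟩))| ≤ m / 2 := by
      refine (abs_real_inner_le_norm _ _).trans ?_
      rw [hu, one_mul, ← dist_eq_norm]
      exact h1.le
    have h4 := (abs_le.1 h3).1
    have h5 : m ≤ inner ℝ u (a (g ⟨x, hx⟩)) := by
      rw [hg]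
      exact hmx
    rw [h2]
    linarith

/-- Convex sets which contain the unit ball and have a bounded intersection: already `2 d` of them
have a bounded intersection, with a bound which depends only on the dimension and the given
bound. -/
theorem exists_bounded_subfamily {d : ℕ} (hd : finrank ℝ V = d) (hd1 : 1 ≤ d) (R : ℝ)
    (hR : 0 ≤ R) :
    ∃ R' > 0, ∀ (ι : Type) (K : ι → Set V), (∀ i, Convex ℝ (K i)) →
      (∀ i, ball (0 : V) 1 ⊆ K i) → (⋂ i, K i) ⊆ closedBall 0 R →
      ∃ c : Fin (2 * d) → ι, (⋂ k, K (c k)) ⊆ closedBall 0 R' := by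
  classical
  let r : ℝ := 1 / (R + 1)
  have hr : 0 < r := by positivity
  obtain ⟨t, hts, htf, htc⟩ := (isCompact_sphere (0 : V) 1).finite_cover_balls
    (show (0 : ℝ) < r / 2 by linarith)
  obtain ⟨m, hm, hJ⟩ := exists_steinitz_const hd r hr htf.toFinset (by
    intro u hu
    have := htc (show u ∈ sphere (0 : V) 1 by simpa using hu)
    simp only [mem_iUnion] at this
    obtain ⟨v, hv, huv⟩ := this
    exact ⟨v, htf.mem_toFinset.2 hv, huv⟩)
  refine ⟨1 / m, by positivity, ?_⟩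
  intro ι K hK hball hsub
  -- supporting functionals
  have hsupp : ∀ k : htf.toFinset, ∃ (a : V) (i : ι), (‖a‖ ≤ 1 ∧ r ≤ inner ℝ a (k : V)) ∧
      ∀ x ∈ K i, inner ℝ a x ≤ 1 := by
    rintro ⟨v, hv⟩
    have hv1 : ‖v‖ = 1 := by
      have := hts (htf.mem_toFinset.1 hv)
      simpa using this
    have hy : (R + 1) • v ∉ ⋂ i, K i := by
      intro h
      have := hsub h
      rw [mem_closedBall_zero_iff, norm_smul, hv1, Real.norm_eq_abs, abs_of_nonneg (by linarith)]
        at this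
      linarith
    simp only [mem_iInter, not_forall] at hy
    obtain ⟨i, hi⟩ := hy
    have hi' : (R + 1) • v ∉ interior (K i) := fun h => hi (interior_subset h)
    obtain ⟨f, hf⟩ := geometric_hahn_banach_open_point (hK i).interior isOpen_interior hi'
    have hball' : ball (0 : V) 1 ⊆ interior (K i) := interior_maximal (hball i) isOpen_ball
    have h0 : (0 : V) ∈ interior (K i) := hball' (mem_ball_self one_pos)
    have hfy : 0 < f ((R + 1) • v) := by
      have := hf 0 h0
      simpa using this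
    set y := (R + 1) • v with hydef
    let w := (InnerProductSpace.toDual ℝ V).symm f
    have hw : ∀ b, inner ℝ w b = f b := fun b => InnerProductSpace.toDual_symm_apply
    let a := (f y)⁻¹ • w
    have ha : ∀ b, inner ℝ a b = (f y)⁻¹ * f b := by
      intro b
      simp only [a]
      rw [inner_smul_left, hw]
      simp
    have hint : ∀ x ∈ interior (K i), inner ℝ a x < 1 := by
      intro x hx
      rw [ha, inv_mul_lt_iff₀ hfy, mul_one]
      exact hf x hx
    refine ⟨a, i, ⟨?_, ?_⟩, ?_⟩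
    · by_contra hlt
      push Not at hlt
      have han : 0 < ‖a‖ := by linarith
      have hx : (‖a‖ ^ 2)⁻¹ • a ∈ ball (0 : V) 1 := by
        rw [mem_ball_zero_iff, norm_smul, norm_inv, norm_pow, norm_norm]
        rw [inv_mul_lt_iff₀ (by positivity), mul_one]
        nlinarith
      have := hint _ (hball' hx)
      rw [inner_smul_right, real_inner_self_eq_norm_sq, inv_mul_cancel₀ (by positivity)] at this
      exact lt_irrefl _ this
    · have h1 : inner ℝ a y = 1 := by
        rw [ha, inv_mul_cancel₀ hfy.ne']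
      rw [hydef, inner_smul_right] at h1
      simp only [r]
      rw [div_le_iff₀ (by linarith), mul_comm]
      exact h1.ge
    · intro x hx
      -- approximate `x` from the interior
      by_contra hlt
      push Not at hlt
      have hopen := (hK i).openSegment_interior_self_subset_interior h0 hx
      have hmem : ∀ s : ℝ, 0 < s → s < 1 → s • x ∈ interior (K i) := by
        intro s hs0 hs1
        apply hopen
        rw [openSegment_eq_image]
        exact ⟨s, ⟨hs0, hs1⟩, by simp⟩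
      set q := inner ℝ a x
      have hq : 0 < q := by linarith
      have hs := hint _ (hmem ((1 + 1 / q) / 2) (by positivity) (by
        have : 1 / q < 1 := by rw [div_lt_one hq]; exact hlt
        linarith))
      rw [inner_smul_right] at hs
      have : (1 + 1 / q) / 2 * q = (q + 1) / 2 := by
        field_simp
      rw [this] at hs
      linarith
  choose a i ha hai using hsupp
  obtain ⟨J, hJc, hJm⟩ := hJ a ha
  -- the sphere is nonempty
  have hnt : Nontrivial V := by
    apply Module.nontrivial_of_finrank_pos (R := ℝ)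
    omega
  obtain ⟨u₀, hu₀⟩ := exists_norm_eq V (c := 1) zero_le_one
  obtain ⟨k₀, hk₀, -⟩ := hJm u₀ hu₀
  have : Nonempty ↥J := ⟨⟨k₀, hk₀⟩⟩
  obtain ⟨e⟩ := Function.Embedding.nonempty_of_card_le
    (α := ↥J) (β := Fin (2 * d)) (by simpa using hJc)
  have hs : Function.Surjective (Function.invFun e) := Function.invFun_surjective e.injective
  refine ⟨fun l => i (Function.invFun e l : ↥J), ?_⟩
  intro x hx
  rw [mem_closedBall_zero_iff]
  by_cases hx0 : x = 0
  · rw [hx0, norm_zero]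
    positivity
  · have hxn : 0 < ‖x‖ := norm_pos_iff.2 hx0
    obtain ⟨k, hk, hmk⟩ := hJm ((‖x‖)⁻¹ • x) (by
      rw [norm_smul, norm_inv, norm_norm, inv_mul_cancel₀ hxn.ne'])
    obtain ⟨l, hl⟩ := hs ⟨k, hk⟩
    have hxk : x ∈ K (i k) := by
      have h : x ∈ K (i (Function.invFun e l : ↥J)) := mem_iInter.1 hx l
      rw [hl] at h
      exact h
    have h1 := hai k x hxk
    rw [inner_smul_left, RCLike.conj_to_real, real_inner_comm, le_inv_mul_iff₀ hxn] at hmk
    rw [le_div_iff₀ hm]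
    linarith

end Pool.Agent.R172
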