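import Mathlib
import Pool.Agent.R172.QSteinitz

set_option autoImplicit false
set_option linter.unusedSectionVars false

/-!
# Large ellipsoids in intersections of convex sets
-/

namespace Pool.Agent.R172

open Set Module Metric MeasureTheory

variable {V : Type} [NormedAddCommGroup V] [InnerProductSpace ℝ V] [FiniteDimensional ℝ V]

/-- the stretching map -/
noncomputable def stretch (u : V) (h : ℝ) : V →ₗ[ℝ] V :=
  (1 / 2 : ℝ) • LinearMap.transvection (innerₛₗ ℝ u : V →ₗ[ℝ] ℝ) ((h / 2 - 1) • u)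

lemma stretch_apply (u : V) (h : ℝ) (x : V) :
    stretch u h x = (1 / 2 : ℝ) • (x + (inner ℝ u x * (h / 2 - 1)) • u) := by
  simp [stretch, LinearMap.transvection.apply, smul_smul]

lemma det_stretch {u : V} (hu : ‖u‖ = 1) (h : ℝ) :
    LinearMap.det (stretch u h) = (1 / 2) ^ finrank ℝ V * (h / 2) := by
  unfold stretch
  rw [LinearMap.det_smul, LinearMap.transvection.det]
  congr 1
  have : (innerₛₗ ℝ u : V →ₗ[ℝ] ℝ) ((h / 2 - 1) • u) = (h / 2 - 1) * 1 := by
    rw [map_smul, smul_eq_mul]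
    congr 1
    change inner ℝ u u = 1
    rw [real_inner_self_eq_norm_sq, hu]
    norm_num
  rw [this]
  ring

/-- The stretched ball lies in the hull of the ball and the far point. -/
lemma stretch_mem {P : Set V} (hP : Convex ℝ P) (hball : ball (0 : V) 1 ⊆ P) {y : V}
    (hy : y ∈ P) (hy0 : y ≠ 0) {x : V} (hx : ‖x‖ < 1) :
    (1 / 4 : ℝ) • y + stretch ((‖y‖)⁻¹ • y) ‖y‖ x ∈ P := by
  set h := ‖y‖ with hh
  have hpos : 0 < h := norm_pos_iff.2 hy0
  set u := h⁻¹ • y with hu
  have hun : ‖u‖ = 1 := by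
    rw [hu, norm_smul, norm_inv, Real.norm_eq_abs, abs_of_pos hpos, ← hh, inv_mul_cancel₀ hpos.ne']
  set α := inner ℝ u x with hα
  have hα1 : |α| < 1 := by
    refine (abs_real_inner_le_norm u x).trans_lt ?_
    rw [hun, one_mul]
    exact hx
  have hα2 := abs_lt.1 hα1
  have hyu : y = h • u := by
    rw [hu, smul_smul, mul_inv_cancel₀ hpos.ne', one_smul]
  set s := (1 + α) / 4 with hs
  have hs0 : 0 ≤ s := by rw [hs]; linarith [hα2.1]
  have hs1 : s ≤ 1 / 2 := by rw [hs]; linarith [hα2.2]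
  have h1s : 0 < 1 - s := by linarith
  set w := (1 / (2 * (1 - s))) • (x - α • u) with hw
  have hwn : ‖w‖ < 1 := by
    have e1 : ‖x - α • u‖ ≤ ‖x‖ := by
      have e2 : ‖x - α • u‖ ^ 2 = ‖x‖ ^ 2 - α ^ 2 := by
        rw [norm_sub_sq_real, inner_smul_right, norm_smul, hun, Real.norm_eq_abs, mul_one, sq_abs,
          real_inner_comm, ← hα]
        ring
      have e3 : ‖x - α • u‖ ^ 2 ≤ ‖x‖ ^ 2 := by
        rw [e2]
        nlinarith [sq_nonneg α]
      exact (pow_le_pow_iff_left₀ (norm_nonneg _) (norm_nonneg _) two_ne_zero).1 e3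
    rw [hw, norm_smul, Real.norm_eq_abs, abs_of_pos (by positivity)]
    have e4 : 1 / (2 * (1 - s)) ≤ 1 := by
      rw [div_le_one (by positivity)]
      linarith
    have := norm_nonneg (x - α • u)
    nlinarith
  have hmem := hP hy (hball (mem_ball_zero_iff.2 hwn)) hs0 h1s.le (by ring)
  have e5 : (1 - s) * (1 / (2 * (1 - s))) = 1 / 2 := by
    field_simp
  have e6 : (1 - s) • w = (1 / 2 : ℝ) • (x - α • u) := by
    rw [hw, smul_smul, e5]
  have key : (1 / 4 : ℝ) • (h • u) + (1 / 2 : ℝ) • (x + (α * (h / 2 - 1)) • u) =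
      s • (h • u) + (1 / 2 : ℝ) • (x - α • u) := by
    rw [hs]
    module
  rw [← hyu] at key
  rw [stretch_apply, ← hα, key, ← e6]
  exact hmem

/-- **A near-maximal ellipsoid**, either large, or with the set bounded in its coordinates. -/
lemma exists_ellipsoid {P : Set V} (hP : Convex ℝ P) (hint : (interior P).Nonempty) :
    ∃ (A : V →ₗ[ℝ] V) (c : V), 0 < |LinearMap.det A| ∧ (∀ x, ‖x‖ < 1 → c + A x ∈ P) ∧
      (1 ≤ |LinearMap.det A| ∨
        ∀ y, c + A y ∈ P → ‖y‖ ≤ 2 ^ (finrank ℝ V + 2)) := by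
  let D : Set ℝ := {t | ∃ (A : V →ₗ[ℝ] V) (c : V), t = |LinearMap.det A| ∧
    ∀ x, ‖x‖ < 1 → c + A x ∈ P}
  by_cases hbig : ∃ t ∈ D, 1 ≤ t
  · obtain ⟨t, ⟨A, c, rfl, hA⟩, ht⟩ := hbig
    exact ⟨A, c, by linarith, hA, Or.inl ht⟩
  · push Not at hbig
    have hbdd : BddAbove D := ⟨1, fun t ht => (hbig t ht).le⟩
    -- a positive element
    obtain ⟨c₀, hc₀⟩ := hint
    obtain ⟨ε, hε, hsub⟩ := Metric.mem_nhds_iff.1 (mem_interior_iff_mem_nhds.1 hc₀)
    have hmem : |LinearMap.det (ε • (LinearMap.id : V →ₗ[ℝ] V))| ∈ D := by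
      refine ⟨_, c₀, rfl, fun x hx => hsub ?_⟩
      rw [mem_ball, dist_eq_norm, add_sub_cancel_left, LinearMap.smul_apply, LinearMap.id_apply,
        norm_smul, Real.norm_eq_abs, abs_of_pos hε]
      nlinarith
    have hpos : 0 < |LinearMap.det (ε • (LinearMap.id : V →ₗ[ℝ] V))| := by
      rw [LinearMap.det_smul, LinearMap.det_id, mul_one, abs_of_pos (by positivity)]
      positivity
    have hsup : 0 < sSup D := hpos.trans_le (le_csSup hbdd hmem)
    obtain ⟨t, ⟨A, c, rfl, hA⟩, ht⟩ := exists_lt_of_lt_csSup ⟨_, hmem⟩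
      (show sSup D / 2 < sSup D by linarith)
    refine ⟨A, c, by linarith, hA, Or.inr fun y hy => ?_⟩
    by_contra hlt
    push Not at hlt
    have hy0 : y ≠ 0 := by
      rintro rfl
      rw [norm_zero] at hlt
      have : (0 : ℝ) < 2 ^ (finrank ℝ V + 2) := by positivity
      linarith
    have hyn : 0 < ‖y‖ := norm_pos_iff.2 hy0
    -- the set in the coordinates
    have hP' : Convex ℝ {w : V | c + A w ∈ P} := by
      intro p hp q hq a b ha hb hab
      have := hP hp hq ha hb hab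
      simp only [mem_ofPred_eq] at this ⊢
      convert this using 1
      rw [map_add, map_smul, map_smul, smul_add, smul_add]
      have hc : c = a • c + b • c := by rw [← add_smul, hab, one_smul]
      conv_lhs => rw [hc]
      abel
    have hun : ‖(‖y‖)⁻¹ • y‖ = 1 := by
      rw [norm_smul, norm_inv, norm_norm, inv_mul_cancel₀ hyn.ne']
    have hnew : |LinearMap.det (A ∘ₗ stretch ((‖y‖)⁻¹ • y) ‖y‖)| ∈ D := by
      refine ⟨_, c + A ((1 / 4 : ℝ) • y), rfl, fun x hx => ?_⟩
      have := stretch_mem hP' (fun w hw => hA w (mem_ball_zero_iff.1 hw)) hy hy0 hx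
      simp only [mem_ofPred_eq] at this
      rw [map_add, ← add_assoc] at this
      exact this
    have h1 := le_csSup hbdd hnew
    rw [LinearMap.det_comp, det_stretch hun, abs_mul, abs_of_pos (a := (1 / 2) ^ finrank ℝ V *
      (‖y‖ / 2)) (by positivity)] at h1
    have h2 : 2 < (1 / 2) ^ finrank ℝ V * (‖y‖ / 2) := by
      have e1 : (1 / 2 : ℝ) ^ finrank ℝ V * (2 ^ (finrank ℝ V + 2) / 2) = 2 := by
        rw [pow_add, div_pow, one_pow]
        field_simp
      have e2 : (1 / 2 : ℝ) ^ finrank ℝ V * (2 ^ (finrank ℝ V + 2) / 2) <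
          (1 / 2) ^ finrank ℝ V * (‖y‖ / 2) := by
        apply mul_lt_mul_of_pos_left _ (by positivity)
        linarith
      linarith
    have h3 : 0 < |LinearMap.det A| := by linarith
    nlinarith

end Pool.Agent.R172
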