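import Mathlib

set_option autoImplicit false
set_option linter.unusedSectionVars false

/-!
# Davenport-Schinzel sequences of order three and bipartite alternation patterns
-/

namespace Pool.Agent.R172.DS

open List

variable {α : Type*} [DecidableEq α]

lemma filter_chain (a : α) : ∀ m : List α, m.IsChain (· ≠ ·) → (∀ b, b ≠ a → ¬ [b, a, b] <+ m) →
    (m.filter (fun c => decide (c ≠ a))).IsChain (· ≠ ·) := by
  intro m
  induction m with
  | nil => intro _ _; simp
  | cons c m ih =>
    intro hc hb
    have ih' := ih hc.tail (fun b hba h => hb b hba (h.trans (sublist_cons_self c m)))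
    by_cases hca : c = a
    · subst hca
      simpa using ih'
    · rw [filter_cons_of_pos (by simpa using hca), isChain_cons]
      refine ⟨?_, ih'⟩
      intro y hy hcy
      subst hcy
      cases m with
      | nil => simp at hy
      | cons e m' =>
        by_cases hea : e = a
        · subst hea
          have hmem : c ∈ m' := by
            have h1 : c ∈ (e :: m').filter (fun c => decide (c ≠ e)) := mem_of_mem_head? hy
            have h2 := (mem_filter.1 h1).1
            rcases mem_cons.1 h2 with h | h
            · exact absurd h hca
            · exact h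
          apply hb c hca
          exact Sublist.cons_cons _ (Sublist.cons_cons _ (singleton_sublist.2 hmem))
        · rw [filter_cons_of_pos (by simpa using hea)] at hy
          simp only [head?_cons, Option.mem_def, Option.some.injEq] at hy
          have := (isChain_cons_cons.1 hc).1
          exact this hy.symm

lemma junction {p q : List α} (hp : p.IsChain (· ≠ ·)) (hq : q.IsChain (· ≠ ·)) :
    ∃ r, r.IsChain (· ≠ ·) ∧ r <+ p ++ q ∧ p.length + q.length ≤ r.length + 1 := by
  cases q with
  | nil => exact ⟨p, hp, by simp, by simp⟩
  | cons e q' =>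
    by_cases h : p.getLast? = some e
    · refine ⟨p ++ q', ?_, ?_, ?_⟩
      · rw [isChain_append]
        refine ⟨hp, hq.tail, ?_⟩
        intro x hx y hy
        rw [h] at hx
        simp only [Option.mem_def, Option.some.injEq] at hx
        subst hx
        rw [isChain_cons] at hq
        exact hq.1 y hy
      · exact (Sublist.refl p).append (sublist_cons_self e q')
      · simp only [length_cons, length_append]
        omega
    · refine ⟨p ++ e :: q', ?_, Sublist.refl _, ?_⟩
      · rw [isChain_append]
        refine ⟨hp, hq, ?_⟩
        intro x hx y hy hxy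
        subst hxy
        simp only [head?_cons, Option.mem_def, Option.some.injEq] at hy
        subst hy
        exact h hx
      · simp only [length_cons, length_append]
        omega

lemma length_filter_add_count (a : α) (m : List α) :
    (m.filter (fun c => decide (c ≠ a))).length + m.count a = m.length := by
  induction m with
  | nil => simp
  | cons c m ih =>
    by_cases h : c = a
    · subst h
      simp only [ne_eq, not_true_eq_false, decide_false, Bool.false_eq_true, not_false_eq_true,
        filter_cons_of_neg, count_cons_self, length_cons]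
      simp only [ne_eq] at ih
      omega
    · rw [filter_cons_of_pos (by simpa using h), count_cons_of_ne h, length_cons, length_cons]
      omega

/-- Deleting a letter costs its occurrences and at most two more letters. -/
lemma deletion {w : List α} {a : α} (hw : w.IsChain (· ≠ ·))
    (h5 : ∀ b, a ≠ b → ¬ [a, b, a, b, a] <+ w) :
    ∃ r, r.IsChain (· ≠ ·) ∧ r <+ w ∧ a ∉ r ∧ w.length ≤ r.length + w.count a + 2 := by
  by_cases haw : a ∈ w
  swap
  · exact ⟨w, hw, Sublist.refl _, haw, by omega⟩
  obtain ⟨u, v, rfl, hu⟩ := eq_append_cons_of_mem haw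
  rw [isChain_append] at hw
  obtain ⟨hcu, hcav, -⟩ := hw
  have hcv := hcav.tail
  simp only [tail_cons] at hcv
  by_cases hav : a ∈ v
  · obtain ⟨z', m', hvr, hz'⟩ := eq_append_cons_of_mem (mem_reverse.2 hav)
    have hv : v = m'.reverse ++ a :: z'.reverse := by
      have := congrArg reverse hvr
      simpa using this
    set m := m'.reverse
    set z := z'.reverse
    have hz : a ∉ z := by
      simpa [z] using hz'
    rw [hv] at hcv
    rw [isChain_append] at hcv
    obtain ⟨hcm, hcaz, -⟩ := hcv
    have hcz := hcaz.tail
    simp only [tail_cons] at hcz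
    have hfm := filter_chain a m hcm (by
      intro b hba h
      apply h5 b (Ne.symm hba)
      rw [hv]
      have e : [a, b, a, b, a] = [] ++ ([a] ++ ([b, a, b] ++ [a])) := rfl
      rw [e]
      refine (nil_sublist u).append ?_
      have e2 : a :: (m ++ a :: z) = [a] ++ (m ++ a :: z) := rfl
      rw [e2]
      refine (Sublist.refl _).append (h.append ?_)
      exact Sublist.cons_cons _ (nil_sublist _))
    obtain ⟨r₁, hr₁, hr₁s, hr₁l⟩ := junction hcu hfm
    obtain ⟨r₂, hr₂, hr₂s, hr₂l⟩ := junction hr₁ hcz
    have hsub : r₂ <+ u ++ (m.filter (fun c => decide (c ≠ a))) ++ z :=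
      hr₂s.trans (hr₁s.append (Sublist.refl z))
    refine ⟨r₂, hr₂, ?_, ?_, ?_⟩
    · refine hsub.trans ?_
      rw [hv, append_assoc]
      refine (Sublist.refl u).append ?_
      refine Sublist.trans ?_ (sublist_cons_self a _)
      exact (filter_sublist).append (sublist_cons_self a z)
    · intro hmem
      have := hsub.subset hmem
      simp only [mem_append, mem_filter, ne_eq, decide_not, Bool.not_eq_eq_eq_not, Bool.not_true,
        decide_eq_false_iff_not, not_true_eq_false, and_false, or_false] at this
      rcases this with h | h
      · exact hu h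
      · exact hz h
    · have hcount := length_filter_add_count a m
      rw [hv]
      simp only [length_append, length_cons, count_append, count_cons_self]
      have hcu0 : count a u = 0 := count_eq_zero.2 hu
      have hcz0 : count a z = 0 := count_eq_zero.2 hz
      omega
  · obtain ⟨r, hr, hrs, hrl⟩ := junction hcu hcv
    refine ⟨r, hr, ?_, ?_, ?_⟩
    · exact hrs.trans ((Sublist.refl u).append (sublist_cons_self a v))
    · intro hmem
      have := hrs.subset hmem
      rcases mem_append.1 this with h | h
      · exact hu h
      · exact hav h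
    · simp only [length_append, length_cons]
      omega

/-- **Davenport-Schinzel sequences of order three** have length `O(n log n)`. -/
lemma ds_bound (k : ℕ) : ∀ A : Finset α, A.card = k + 1 → ∀ w : List α, (∀ c ∈ w, c ∈ A) →
    w.IsChain (· ≠ ·) → (∀ a b, a ≠ b → ¬ [a, b, a, b, a] <+ w) →
    (w.length : ℚ) ≤ (k + 1) * (1 + 2 * harmonic k) := by
  induction k with
  | zero =>
    intro A hA w hwA hw _
    obtain ⟨a, rfl⟩ := Finset.card_eq_one.1 hA
    have : w.length ≤ 1 := by
      match w, hwA, hw with
      | [], _, _ => simp
      | [c], _, _ => simp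
      | c :: c' :: t, hwA, hw =>
        exfalso
        have h1 : c = a := by simpa using hwA c (by simp)
        have h2 : c' = a := by simpa using hwA c' (by simp)
        exact (isChain_cons_cons.1 hw).1 (h1.trans h2.symm)
    have h' : (w.length : ℚ) ≤ 1 := by exact_mod_cast this
    simpa using h'
  | succ k ih =>
    intro A hA w hwA hw h5
    -- a rare letter
    have hsum : ∑ a ∈ A, w.count a = w.length := by
      rw [← sum_toFinset_count_eq_length w]
      symm
      apply Finset.sum_subset
      · intro c hc
        exact hwA c (mem_toFinset.1 hc)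
      · intro c _ hc
        exact count_eq_zero.2 (fun h => hc (mem_toFinset.2 h))
    have hrare : ∃ a ∈ A, w.count a * (k + 2) ≤ w.length := by
      by_contra hcon
      push Not at hcon
      have h1 : ∑ a ∈ A, w.length < ∑ a ∈ A, w.count a * (k + 2) := by
        apply Finset.sum_lt_sum_of_nonempty
        · exact Finset.card_pos.1 (by omega)
        · exact hcon
      rw [← Finset.sum_mul, hsum, Finset.sum_const, hA, smul_eq_mul] at h1
      nlinarith
    obtain ⟨a, haA, ha⟩ := hrare
    obtain ⟨r, hr, hrs, har, hlen⟩ := deletion hw (fun b hab => h5 a b hab)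
    have hr' := ih (A.erase a) (by rw [Finset.card_erase_of_mem haA]; omega) r
      (fun c hc => Finset.mem_erase.2 ⟨fun h => har (h ▸ hc), hwA c (hrs.subset hc)⟩) hr
      (fun a b hab h => h5 a b hab (h.trans hrs))
    have ha' : (w.count a : ℚ) * (k + 2) ≤ w.length := by exact_mod_cast ha
    have hlen' : (w.length : ℚ) ≤ r.length + w.count a + 2 := by exact_mod_cast hlen
    have hk : (0 : ℚ) < k + 1 := by positivity
    have hk2 : (0 : ℚ) < k + 2 := by positivity
    rw [harmonic_succ]
    push_cast
    have h2 : (w.length : ℚ) * (k + 1) ≤ (k + 2) * ((k + 1) * (1 + 2 * harmonic k) + 2) := by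
      nlinarith
    have h3 : (w.length : ℚ) ≤ (k + 2) * ((k + 1) * (1 + 2 * harmonic k) + 2) / (k + 1) := by
      rw [le_div_iff₀ hk]
      exact h2
    refine h3.trans (le_of_eq ?_)
    field_simp
    ring

/-- the number of changes of a word -/
def ch : List α → ℕ
  | [] => 0
  | [_] => 0
  | a :: b :: l => (if a = b then 0 else 1) + ch (b :: l)

lemma ch_le_cons (a : α) (l : List α) : ch l ≤ ch (a :: l) := by
  cases l with
  | nil => simp [ch]
  | cons b l => simp [ch]

lemma ch_append (l₁ l₂ : List α) : ch l₁ + ch l₂ ≤ ch (l₁ ++ l₂) := by
  induction l₁ with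
  | nil => simp [ch]
  | cons a l₁ ih =>
    cases l₁ with
    | nil =>
      simp only [ch, singleton_append, zero_add]
      exact ch_le_cons a l₂
    | cons b l₁ =>
      simp only [cons_append, ch] at ih ⊢
      omega

lemma eq_of_ch_eq_zero {l : List α} (h : ch l = 0) : ∀ x ∈ l, ∀ y ∈ l, x = y := by
  induction l with
  | nil => simp
  | cons a l ih =>
    cases l with
    | nil => simp
    | cons b l =>
      simp only [ch, Nat.add_eq_zero_iff, ite_eq_left_iff, one_ne_zero, imp_false, not_not] at h
      obtain ⟨rfl, h2⟩ := h
      intro x hx y hy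
      refine ih h2 x ?_ y ?_
      · rcases mem_cons.1 hx with rfl | h
        · simp
        · exact h
      · rcases mem_cons.1 hy with rfl | h
        · simp
        · exact h

lemma exists_chain_of_ch (l : List α) :
    l = [] ∨ ∃ r, r <+ l ∧ r.IsChain (· ≠ ·) ∧ r.head? = l.head? ∧ ch l + 1 ≤ r.length := by
  induction l with
  | nil => simp
  | cons a l ih =>
    right
    rcases ih with rfl | ⟨r, hr, hc, hh, hl⟩
    · exact ⟨[a], Sublist.refl _, by simp, rfl, by simp [ch]⟩
    · cases l with
      | nil =>
        exact ⟨[a], Sublist.refl _, by simp, rfl, by simp [ch]⟩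
      | cons b l =>
        by_cases hab : a = b
        · subst hab
          refine ⟨r, hr.trans (sublist_cons_self _ _), hc, by simpa using hh, ?_⟩
          simp only [ch, if_true]
          omega
        · refine ⟨a :: r, Sublist.cons_cons _ hr, ?_, rfl, ?_⟩
          · rw [isChain_cons]
            refine ⟨fun y hy => ?_, hc⟩
            rw [hh] at hy
            simp only [head?_cons, Option.mem_def, Option.some.injEq] at hy
            rw [← hy]
            exact hab
          · simp only [ch, hab, if_false, length_cons]
            omega

/-- Changing a part of a word which contains at most one of the two letters. -/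
lemma five_replace {u m m' v : List α} {a b : α} (hab : a ≠ b) (ha : a ∈ m → a ∈ m')
    (hb : b ∈ m → b ∈ m') (hnot : ¬ (a ∈ m ∧ b ∈ m)) (h : [a, b, a, b, a] <+ u ++ (m ++ v)) :
    [a, b, a, b, a] <+ u ++ (m' ++ v) := by
  obtain ⟨l₁, l₂, he, h1, h2⟩ := sublist_append_iff.1 h
  obtain ⟨l₃, l₄, he', h3, h4⟩ := sublist_append_iff.1 h2
  rw [he, he']
  refine h1.append (Sublist.append ?_ h4)
  have hchain : [a, b, a, b, a].IsChain (· ≠ ·) := by
    simp [isChain_cons_cons, hab, hab.symm]
  rw [he, he', isChain_append, isChain_append] at hchain
  have hc3 := hchain.2.1.1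
  have hmem : ∀ c ∈ l₃, c = a ∨ c = b := by
    intro c hc
    have : c ∈ [a, b, a, b, a] := by
      rw [he, he']
      simp [hc]
    simp only [mem_cons, not_mem_nil, or_false] at this
    tauto
  match l₃, h3, hc3, hmem with
  | [], _, _, _ => exact nil_sublist _
  | [c], h3, _, hmem =>
    have hcm : c ∈ m := h3.subset (by simp)
    apply singleton_sublist.2
    rcases hmem c (by simp) with rfl | rfl
    · exact ha hcm
    · exact hb hcm
  | c :: c' :: t, h3, hc3, hmem =>
    exfalso
    have h5 : c ∈ m := h3.subset (by simp)
    have h6 : c' ∈ m := h3.subset (by simp)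
    have h7 := (isChain_cons_cons.1 hc3).1
    apply hnot
    rcases hmem c (by simp) with rfl | rfl <;> rcases hmem c' (by simp) with rfl | rfl
    · exact absurd rfl h7
    · exact ⟨h5, h6⟩
    · exact ⟨h6, h5⟩
    · exact absurd rfl h7

lemma exists_repeat {l : List α} (h : ¬ l.IsChain (· ≠ ·)) : ∃ u a v, l = u ++ ([a, a] ++ v) := by
  induction l with
  | nil => simp at h
  | cons c l ih =>
    by_cases hl : l.IsChain (· ≠ ·)
    · rw [isChain_cons] at h
      simp only [hl, and_true, not_forall] at h
      obtain ⟨y, hy, hcy⟩ := h
      simp only [not_not] at hcy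
      cases l with
      | nil => simp at hy
      | cons e t =>
        simp only [head?_cons, Option.mem_def, Option.some.injEq] at hy
        exact ⟨[], c, t, by simp [hcy, hy]⟩
    · obtain ⟨u, a, v, rfl⟩ := ih hl
      exact ⟨c :: u, a, v, rfl⟩

end Pool.Agent.R172.DS
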