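import Mathlib
import Pool.Agent.R172.DS3

set_option autoImplicit false
set_option linter.unusedSectionVars false

/-!
# Not all bipartite graphs are alternation graphs of words
-/

namespace Pool.Agent.R172.DS

open List

/-- Alternation of length five. -/
def Five {α : Type*} (w : List α) (a b : α) : Prop := [a, b, a, b, a] <+ w

/-- The word `w` realizes the bipartite graph `r` by alternations of length at least five. -/
def Realizes {X Y : Type*} (r : X → Y → Prop) (w : List (X ⊕ Y)) : Prop :=
  (∀ x x' : X, x ≠ x' → ¬ Five w (Sum.inl x) (Sum.inl x')) ∧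
  (∀ y y' : Y, y ≠ y' → ¬ Five w (Sum.inr y) (Sum.inr y')) ∧
  ∀ x y, r x y ↔ (Five w (Sum.inl x) (Sum.inr y) ∨ Five w (Sum.inr y) (Sum.inl x))

section

variable {X Y : Type*} [DecidableEq X] [DecidableEq Y]

lemma Realizes.transfer {r : X → Y → Prop} {w w' : List (X ⊕ Y)} (hs : w' <+ w)
    (h : ∀ a b, a ≠ b → Five w a b → Five w' a b) (hr : Realizes r w) :
    Realizes r w' := by
  obtain ⟨h1, h2, h3⟩ := hr
  refine ⟨fun x x' hx hf => h1 x x' hx (hf.trans hs), fun y y' hy hf => h2 y y' hy (hf.trans hs),
    fun x y => ?_⟩
  rw [h3]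
  constructor
  · rintro (hf | hf)
    · exact Or.inl (h _ _ Sum.inl_ne_inr hf)
    · exact Or.inr (h _ _ Sum.inr_ne_inl hf)
  · rintro (hf | hf)
    · exact Or.inl (hf.trans hs)
    · exact Or.inr (hf.trans hs)

lemma five_long {α : Type*} [DecidableEq α] {u v : List α} {p q a b : α} (hab : a ≠ b)
    (h : Five (u ++ ([p, q, p, q, p, q, p] ++ v)) a b) :
    Five (u ++ ([p, q, p, q, p, q] ++ v)) a b := by
  by_cases hboth : a ∈ [p, q, p, q, p, q, p] ∧ b ∈ [p, q, p, q, p, q, p]
  · obtain ⟨ha, hb⟩ := hboth
    simp only [mem_cons, not_mem_nil, or_false] at ha hb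
    have h1 : (a = p ∧ b = q) ∨ (a = q ∧ b = p) := by
      by_cases e1 : a = p
      · left
        refine ⟨e1, ?_⟩
        by_contra hbq
        have : b = p := by tauto
        exact hab (e1.trans this.symm)
      · right
        have haq : a = q := by tauto
        refine ⟨haq, ?_⟩
        by_contra hbp
        have : b = q := by tauto
        exact hab (haq.trans this.symm)
    rcases h1 with ⟨rfl, rfl⟩ | ⟨rfl, rfl⟩
    · unfold Five
      refine Sublist.trans ?_ (sublist_append_right u _)
      refine Sublist.trans ?_ (sublist_append_left _ v)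
      exact Sublist.cons_cons _ (Sublist.cons_cons _ (Sublist.cons_cons _ (Sublist.cons_cons _
        (Sublist.cons_cons _ (nil_sublist _)))))
    · unfold Five
      refine Sublist.trans ?_ (sublist_append_right u _)
      refine Sublist.trans ?_ (sublist_append_left _ v)
      exact Sublist.cons _ (Sublist.cons_cons _ (Sublist.cons_cons _ (Sublist.cons_cons _
        (Sublist.cons_cons _ (Sublist.cons_cons _ (nil_sublist _))))))
  · refine five_replace hab ?_ ?_ hboth h
    · intro ha
      simp only [mem_cons, not_mem_nil, or_false] at ha ⊢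
      tauto
    · intro hb
      simp only [mem_cons, not_mem_nil, or_false] at hb ⊢
      tauto

/-- A shortest word for a realizable graph. -/
lemma exists_reduced {r : X → Y → Prop} (h : ∃ w, Realizes r w) :
    ∃ w, Realizes r w ∧ w.IsChain (· ≠ ·) ∧
      ∀ u v p q, w ≠ u ++ ([p, q, p, q, p, q, p] ++ v) := by
  classical
  have hex : ∃ n : ℕ, ∃ w, w.length = n ∧ Realizes r w := by
    obtain ⟨w, hw⟩ := h
    exact ⟨_, w, rfl, hw⟩
  obtain ⟨w, hwl, hw⟩ := Nat.find_spec hex
  have hmin : ∀ w', Realizes r w' → w.length ≤ w'.length := by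
    intro w' hw'
    rw [hwl]
    exact Nat.find_min' hex ⟨w', rfl, hw'⟩
  refine ⟨w, hw, ?_, ?_⟩
  · by_contra hc
    obtain ⟨u, a, v, rfl⟩ := exists_repeat hc
    have hs : u ++ ([a] ++ v) <+ u ++ ([a, a] ++ v) := by
      refine (Sublist.refl u).append (Sublist.append ?_ (Sublist.refl v))
      exact sublist_cons_self a [a]
    have := hmin _ (hw.transfer hs (fun p q hpq hf => by
      refine five_replace hpq ?_ ?_ ?_ hf
      · intro h; simpa using h
      · intro h; simpa using h
      · rintro ⟨h1, h2⟩
        have e1 : p = a := by simpa using h1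
        have e2 : q = a := by simpa using h2
        exact hpq (e1.trans e2.symm)))
    simp only [length_append, length_cons, length_nil] at this
    omega
  · rintro u v p q rfl
    have hs : u ++ ([p, q, p, q, p, q] ++ v) <+ u ++ ([p, q, p, q, p, q, p] ++ v) := by
      refine (Sublist.refl u).append (Sublist.append ?_ (Sublist.refl v))
      have : [p, q, p, q, p, q, p] = [p, q, p, q, p, q] ++ [p] := rfl
      rw [this]
      exact sublist_append_left _ _
    have := hmin _ (hw.transfer hs (fun a b hab hf => five_long hab hf))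
    simp only [length_append, length_cons, length_nil] at this
    omega

/-- the alternating word -/
def alt {α : Type*} (p q : α) : ℕ → List α
  | 0 => []
  | k + 1 => p :: alt q p k

lemma chain_two {α : Type*} {p q : α} : ∀ l : List α, l.IsChain (· ≠ ·) →
    (∀ c ∈ l, c = p ∨ c = q) → l = alt p q l.length ∨ l = alt q p l.length := by
  intro l
  induction l with
  | nil => intro _ _; left; rfl
  | cons c l ih =>
    intro hc hmem
    have ih' := ih hc.tail (fun e he => hmem e (mem_cons_of_mem c he))
    cases l with
    | nil =>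
      rcases hmem c (by simp) with rfl | rfl
      · left; rfl
      · right; rfl
    | cons e t =>
      have hce : c ≠ e := (isChain_cons_cons.1 hc).1
      simp only [length_cons, alt, cons.injEq] at ih' ⊢
      rcases hmem c (by simp) with rfl | rfl
      · rcases ih' with ⟨h1, h2⟩ | ⟨h1, h2⟩
        · exact absurd h1.symm hce
        · left
          exact ⟨rfl, h1, h2⟩
      · rcases ih' with ⟨h1, h2⟩ | ⟨h1, h2⟩
        · right
          exact ⟨rfl, h1, h2⟩
        · exact absurd h1.symm hce

/-- the left letters -/
def fL (w : List (X ⊕ Y)) : List (X ⊕ Y) := w.filter (fun c => c.isLeft)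

/-- the right letters -/
def fR (w : List (X ⊕ Y)) : List (X ⊕ Y) := w.filter (fun c => c.isRight)

lemma chunk {c : List (X ⊕ Y)} (hlen : c.length = 7) (hc : c.IsChain (· ≠ ·))
    (hp : ∀ p q, c ≠ [p, q, p, q, p, q, p]) : 1 ≤ ch (fL c) + ch (fR c) := by
  by_contra hcon
  have hL : ch (fL c) = 0 := by omega
  have hR : ch (fR c) = 0 := by omega
  have eL := eq_of_ch_eq_zero hL
  have eR := eq_of_ch_eq_zero hR
  obtain ⟨p, q, t, rfl⟩ : ∃ p q t, c = p :: q :: t := by
    match c, hlen with
    | p :: q :: t, _ => exact ⟨p, q, t, rfl⟩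
  have hpq : p ≠ q := (isChain_cons_cons.1 hc).1
  have hside : ∀ a ∈ p :: q :: t, ∀ b ∈ p :: q :: t, a.isLeft = b.isLeft → a = b := by
    intro a ha b hb hab
    cases hal : a.isLeft with
    | true =>
      have hbl : b.isLeft = true := by rw [← hab]; exact hal
      exact eL a (mem_filter.2 ⟨ha, hal⟩) b (mem_filter.2 ⟨hb, hbl⟩)
    | false =>
      have hbl : b.isLeft = false := by rw [← hab]; exact hal
      have har : a.isRight = true := by
        cases a with
        | inl x => simp at hal
        | inr y => rfl
      have hbr : b.isRight = true := by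
        cases b with
        | inl x => simp at hbl
        | inr y => rfl
      exact eR a (mem_filter.2 ⟨ha, har⟩) b (mem_filter.2 ⟨hb, hbr⟩)
  have hall : ∀ e ∈ p :: q :: t, e = p ∨ e = q := by
    intro e he
    by_cases h1 : e.isLeft = p.isLeft
    · left
      exact hside e he p (by simp) h1
    · right
      apply hside e he q (by simp)
      have h2 : p.isLeft ≠ q.isLeft := fun h => hpq (hside p (by simp) q (by simp) h)
      have h3 : ∀ a b c : Bool, a ≠ b → b ≠ c → a = c := by decide
      exact h3 _ _ _ h1 h2
  rcases chain_two _ hc hall with h | h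
  · rw [hlen] at h
    exact hp p q h
  · rw [hlen] at h
    exact hp q p h

lemma len_bound : ∀ (n : ℕ) (w : List (X ⊕ Y)), w.length ≤ n → w.IsChain (· ≠ ·) →
    (∀ u v p q, w ≠ u ++ ([p, q, p, q, p, q, p] ++ v)) →
    w.length ≤ 7 * (ch (fL w) + ch (fR w)) + 6 := by
  intro n
  induction n using Nat.strong_induction_on with
  | _ n ih =>
  intro w hwn hc hp
  by_cases hlt : w.length < 7
  · omega
  · push Not at hlt
    have hw : w = w.take 7 ++ w.drop 7 := (take_append_drop 7 w).symm
    have hl1 : (w.take 7).length = 7 := by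
      rw [length_take]
      omega
    have hl2 : (w.drop 7).length = w.length - 7 := length_drop
    have hcc : (w.take 7).IsChain (· ≠ ·) ∧ (w.drop 7).IsChain (· ≠ ·) := by
      rw [hw, isChain_append] at hc
      exact ⟨hc.1, hc.2.1⟩
    have h1 := chunk hl1 hcc.1 (fun p q h => by
      apply hp [] (w.drop 7) p q
      rw [nil_append, ← h]
      exact hw)
    have h2 := ih (n - 7) (by omega) (w.drop 7) (by omega) hcc.2 (fun u v p q h => by
      apply hp (w.take 7 ++ u) v p q
      rw [append_assoc, ← h]
      exact hw)
    have h3 : ch (fL (w.take 7)) + ch (fL (w.drop 7)) ≤ ch (fL w) := by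
      have := ch_append (fL (w.take 7)) (fL (w.drop 7))
      have e : fL (w.take 7) ++ fL (w.drop 7) = fL w := by
        unfold fL
        rw [← filter_append, ← hw]
      rwa [e] at this
    have h4 : ch (fR (w.take 7)) + ch (fR (w.drop 7)) ≤ ch (fR w) := by
      have := ch_append (fR (w.take 7)) (fR (w.drop 7))
      have e : fR (w.take 7) ++ fR (w.drop 7) = fR w := by
        unfold fR
        rw [← filter_append, ← hw]
      rwa [e] at this
    omega

end

/-- The changes of the words of the two sides. -/
lemma ch_bound {k : ℕ} {r : Fin (k + 1) → Fin (k + 1) → Prop}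
    {w : List (Fin (k + 1) ⊕ Fin (k + 1))} (hw : Realizes r w) :
    (ch (fL w) : ℚ) ≤ (k + 1) * (1 + 2 * harmonic k) ∧
      (ch (fR w) : ℚ) ≤ (k + 1) * (1 + 2 * harmonic k) := by
  have hpos : (0 : ℚ) ≤ (k + 1) * (1 + 2 * harmonic k) := by
    have : (0 : ℚ) ≤ harmonic k := by
      unfold harmonic
      positivity
    positivity
  constructor
  · rcases exists_chain_of_ch (fL w) with h | ⟨l, hl, hc, -, hlen⟩
    · rw [h]
      simpa [ch] using hpos
    · have hb := ds_bound k (Finset.univ.image (Sum.inl : Fin (k + 1) → Fin (k + 1) ⊕ Fin (k + 1)))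
        (by rw [Finset.card_image_of_injective _ Sum.inl_injective]; simp) l (by
          intro c hc'
          have := (mem_filter.1 (hl.subset hc')).2
          cases c with
          | inl x => simp
          | inr y => simp at this) hc (by
          intro a b hab h5
          have ha := (mem_filter.1 (hl.subset (h5.subset (by simp : a ∈ [a, b, a, b, a])))).2
          have hb := (mem_filter.1 (hl.subset (h5.subset (by simp : b ∈ [a, b, a, b, a])))).2
          cases a with
          | inr y => simp at ha
          | inl x =>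
            cases b with
            | inr y => simp at hb
            | inl x' =>
              exact hw.1 x x' (fun h => hab (by rw [h])) (h5.trans (hl.trans filter_sublist)))
      have : (ch (fL w) : ℚ) + 1 ≤ l.length := by exact_mod_cast hlen
      linarith
  · rcases exists_chain_of_ch (fR w) with h | ⟨l, hl, hc, -, hlen⟩
    · rw [h]
      simpa [ch] using hpos
    · have hb := ds_bound k (Finset.univ.image (Sum.inr : Fin (k + 1) → Fin (k + 1) ⊕ Fin (k + 1)))
        (by rw [Finset.card_image_of_injective _ Sum.inr_injective]; simp) l (by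
          intro c hc'
          have := (mem_filter.1 (hl.subset hc')).2
          cases c with
          | inr x => simp
          | inl y => simp at this) hc (by
          intro a b hab h5
          have ha := (mem_filter.1 (hl.subset (h5.subset (by simp : a ∈ [a, b, a, b, a])))).2
          have hb := (mem_filter.1 (hl.subset (h5.subset (by simp : b ∈ [a, b, a, b, a])))).2
          cases a with
          | inl y => simp at ha
          | inr x =>
            cases b with
            | inl y => simp at hb
            | inr x' =>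
              exact hw.2.1 x x' (fun h => hab (by rw [h])) (h5.trans (hl.trans filter_sublist)))
      have : (ch (fR w) : ℚ) + 1 ≤ l.length := by exact_mod_cast hlen
      linarith

/-- The counting argument. -/
lemma count_bound {k M : ℕ} (hM : 14 * ((k + 1 : ℚ) * (1 + 2 * harmonic k)) + 6 ≤ M)
    (hall : ∀ r : Fin (k + 1) → Fin (k + 1) → Prop, ∃ w, Realizes r w) :
    2 ^ ((k + 1) * (k + 1)) ≤ (2 * (k + 1) + 1) ^ M := by
  classical
  let n := k + 1
  have hred : ∀ b : Fin (k + 1) → Fin (k + 1) → Bool, ∃ w : List (Fin (k + 1) ⊕ Fin (k + 1)),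
      Realizes (fun x y => b x y = true) w ∧ w.length ≤ M := by
    intro b
    obtain ⟨w, hw, hc, hp⟩ := exists_reduced (hall (fun x y => b x y = true))
    refine ⟨w, hw, ?_⟩
    have h1 := len_bound w.length w le_rfl hc hp
    obtain ⟨h2, h3⟩ := ch_bound hw
    have h1' : (w.length : ℚ) ≤ 7 * (ch (fL w) + ch (fR w)) + 6 := by exact_mod_cast h1
    have : (w.length : ℚ) ≤ M := by linarith
    exact_mod_cast this
  choose W hW hWM using hred
  let F : (Fin (k + 1) → Fin (k + 1) → Bool) → (Fin M → Option (Fin (k + 1) ⊕ Fin (k + 1))) :=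
    fun b i => (W b)[(i : ℕ)]?
  have hF : Function.Injective F := by
    intro b b' h
    have hWW : W b = W b' := by
      apply List.ext_getElem?
      intro i
      by_cases hi : i < M
      · exact congrFun h ⟨i, hi⟩
      · have h1 : (W b).length ≤ i := (hWM b).trans (by omega)
        have h2 : (W b').length ≤ i := (hWM b').trans (by omega)
        rw [getElem?_eq_none h1, getElem?_eq_none h2]
    funext x y
    have e1 := (hW b).2.2 x y
    have e2 := (hW b').2.2 x y
    rw [hWW] at e1
    have e3 : b x y = true ↔ b' x y = true := e1.trans e2.symm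
    exact Bool.eq_iff_iff.2 e3
  have hcard := Fintype.card_le_of_injective F hF
  simp only [Fintype.card_fun, Fintype.card_fin, Fintype.card_bool, Fintype.card_option,
    Fintype.card_sum] at hcard
  rw [← pow_mul] at hcard
  convert hcard using 2
  ring

/-- **Some bipartite graph is not realized by any word.** -/
theorem exists_not_realizable : ∃ (n : ℕ) (r : Fin n → Fin n → Prop), ∀ w, ¬ Realizes r w := by
  obtain ⟨k, hk⟩ : ∃ k : ℕ, k + 1 = 65536 := ⟨65535, rfl⟩
  refine ⟨k + 1, ?_⟩
  by_contra hcon
  push Not at hcon
  have hh : (harmonic k : ℝ) ≤ 12.2 := by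
    have h1 := harmonic_le_one_add_log k
    have h2 : Real.log k ≤ Real.log 65536 := by
      have hk' : (k : ℝ) ≤ 65536 := by
        have : k ≤ 65536 := by omega
        exact_mod_cast this
      have hk0 : (0 : ℝ) < k := by
        have : 0 < k := by omega
        exact_mod_cast this
      exact Real.log_le_log hk0 hk'
    have h3 : Real.log 65536 = 16 * Real.log 2 := by
      rw [show (65536 : ℝ) = 2 ^ 16 by norm_num, Real.log_pow]
      norm_num
    have h4 := Real.log_two_lt_d9
    rw [h3] at h2
    linarith
  have hh' : harmonic k ≤ 12.2 := by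
    have : (harmonic k : ℝ) ≤ ((12.2 : ℚ) : ℝ) := by
      refine hh.trans (le_of_eq ?_)
      norm_num
    exact_mod_cast this
  have hM : 14 * ((k + 1 : ℚ) * (1 + 2 * harmonic k)) + 6 ≤ ((356 * (k + 1) : ℕ) : ℚ) := by
    have hk1 : (k : ℚ) + 1 = 65536 := by exact_mod_cast hk
    push_cast
    rw [hk1]
    linarith
  have h1 := count_bound hM hcon
  have h2 : 2 * (k + 1) + 1 ≤ 2 ^ 18 := by
    rw [hk]
    norm_num
  have h3 : (2 * (k + 1) + 1) ^ (356 * (k + 1)) ≤ 2 ^ (18 * (356 * (k + 1))) := by
    rw [pow_mul 2 18]
    exact Nat.pow_le_pow_left h2 _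
  have h6 : 6408 < k + 1 := by
    rw [hk]
    norm_num
  have h4 : 18 * (356 * (k + 1)) < (k + 1) * (k + 1) := by
    have e : 18 * (356 * (k + 1)) = 6408 * (k + 1) := by ring
    rw [e]
    exact Nat.mul_lt_mul_of_pos_right h6 (Nat.succ_pos k)
  have h5 : 2 ^ (18 * (356 * (k + 1))) < 2 ^ ((k + 1) * (k + 1)) :=
    Nat.pow_lt_pow_right one_lt_two h4
  omega

end Pool.Agent.R172.DS
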