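import Mathlib

set_option autoImplicit false
set_option linter.unusedSectionVars false

/-!
# Sample compression for linear separation, Kirchberger's theorem
-/

namespace Pool.Agent.R172.Compress

open Finset Module
open scoped RealInnerProductSpace

variable {V : Type*} [NormedAddCommGroup V] [InnerProductSpace ℝ V] [FiniteDimensional ℝ V]
variable {X : Type*} [DecidableEq X] (v : X → V)

/-- The vectors `u` which satisfy `⟪u, v x⟫ ≥ 1` for all `x ∈ T`. -/
def Feas (T : Finset X) : Set V := {u | ∀ x ∈ T, (1 : ℝ) ≤ ⟪u, v x⟫}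

lemma mem_Feas {T : Finset X} {u : V} : u ∈ Feas v T ↔ ∀ x ∈ T, (1 : ℝ) ≤ ⟪u, v x⟫ := Iff.rfl

lemma Feas_anti {S T : Finset X} (h : S ⊆ T) : Feas v T ⊆ Feas v S :=
  fun _ hu x hx => hu x (h hx)

lemma convex_half (x : X) : Convex ℝ {u : V | (1 : ℝ) ≤ ⟪u, v x⟫} := by
  intro a ha b hb s t hs ht hst
  simp only [Set.mem_ofPred_eq] at ha hb ⊢
  rw [inner_add_left, real_inner_smul_left, real_inner_smul_left]
  nlinarith

lemma Feas_convex (T : Finset X) : Convex ℝ (Feas v T) := by
  intro a ha b hb s t hs ht hst x hx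
  exact convex_half v x (ha x hx) (hb x hx) hs ht hst

lemma Feas_closed (T : Finset X) : IsClosed (Feas v T) := by
  have : Feas v T = ⋂ x ∈ T, {u : V | (1 : ℝ) ≤ ⟪u, v x⟫} := by
    ext u
    simp [Feas]
  rw [this]
  refine isClosed_biInter fun x _ => isClosed_le continuous_const ?_
  exact continuous_id.inner continuous_const

/-- existence of the point of minimal norm -/
lemma exists_min (T : Finset X) (h : (Feas v T).Nonempty) :
    ∃ u ∈ Feas v T, ∀ w ∈ Feas v T, ‖u‖ ≤ ‖w‖ := by
  obtain ⟨u, hu, hd⟩ := (Feas_closed v T).exists_infDist_eq_dist h 0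
  refine ⟨u, hu, fun w hw => ?_⟩
  have := Metric.infDist_le_dist_of_mem (x := (0 : V)) hw
  rw [hd] at this
  simpa [dist_zero_left] using this

/-- The point of minimal norm of `Feas v T`. -/
noncomputable def hyp (T : Finset X) : V :=
  by
    classical
    exact if h : (Feas v T).Nonempty then (exists_min v T h).choose else 0

lemma hyp_mem {T : Finset X} (h : (Feas v T).Nonempty) : hyp v T ∈ Feas v T := by
  unfold hyp
  rw [dif_pos h]
  exact (exists_min v T h).choose_spec.1

lemma hyp_min {T : Finset X} (h : (Feas v T).Nonempty) {w : V} (hw : w ∈ Feas v T) :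
    ‖hyp v T‖ ≤ ‖w‖ := by
  unfold hyp
  rw [dif_pos h]
  exact (exists_min v T h).choose_spec.2 w hw

/-- uniqueness of the point of minimal norm -/
lemma hyp_unique {T : Finset X} (h : (Feas v T).Nonempty) {w : V} (hw : w ∈ Feas v T)
    (hn : ‖w‖ ≤ ‖hyp v T‖) : w = hyp v T := by
  have hn' : ‖w‖ = ‖hyp v T‖ := le_antisymm hn (hyp_min v h hw)
  have hmid := (Feas_convex v T) hw (hyp_mem v h) (by norm_num : (0 : ℝ) ≤ 1 / 2)
    (by norm_num : (0 : ℝ) ≤ 1 / 2) (by norm_num)
  have h1 := hyp_min v h hmid
  rw [← smul_add, norm_smul] at h1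
  have h2 := parallelogram_law_with_norm ℝ w (hyp v T)
  rw [hn'] at h2
  have h3 : ‖hyp v T‖ * 2 ≤ ‖w + hyp v T‖ := by
    rw [Real.norm_of_nonneg (by norm_num : (0 : ℝ) ≤ 1 / 2)] at h1
    linarith
  have h4 : 0 ≤ ‖hyp v T‖ := norm_nonneg _
  have h5 : ‖w - hyp v T‖ * ‖w - hyp v T‖ ≤ 0 := by nlinarith
  have h6 : ‖w - hyp v T‖ = 0 := by nlinarith [norm_nonneg (w - hyp v T)]
  exact sub_eq_zero.1 (norm_eq_zero.1 h6)

/-- Sample compression: the point of minimal norm is determined by `dim V` of the constraints. -/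
lemma compress {T : Finset X} (h : (Feas v T).Nonempty) (hT : finrank ℝ V ≤ T.card) :
    ∃ K ⊆ T, K.card = finrank ℝ V ∧ hyp v K ∈ Feas v T := by
  classical
  -- Helly's theorem for the half-spaces and a ball
  let F : Option X → Set V := fun o => match o with
    | none => Metric.ball 0 ‖hyp v T‖
    | some x => {u : V | (1 : ℝ) ≤ ⟪u, v x⟫}
  have hconv : ∀ i ∈ insertNone T, Convex ℝ (F i) := by
    intro i _
    cases i with
    | none => exact convex_ball _ _
    | some x => exact convex_half v x
  have hempty : ¬ (⋂ i ∈ insertNone T, F i).Nonempty := by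
    rintro ⟨u, hu⟩
    rw [Set.mem_iInter₂] at hu
    have h1 : u ∈ Feas v T := fun x hx => hu (some x) (by simpa using hx)
    have h2 : u ∈ Metric.ball (0 : V) ‖hyp v T‖ := hu none (by simp)
    have h3 := hyp_min v h h1
    rw [mem_ball_zero_iff] at h2
    linarith
  have hH : ∃ I ⊆ insertNone T, I.card ≤ finrank ℝ V + 1 ∧ ¬ (⋂ i ∈ I, F i).Nonempty := by
    by_contra hcon
    push Not at hcon
    exact hempty (Convex.helly_theorem' hconv fun I hI hc => hcon I hI hc)
  obtain ⟨I, hI, hIc, hIe⟩ := hH
  have hnone : none ∈ I := by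
    by_contra hn
    apply hIe
    refine ⟨hyp v T, ?_⟩
    rw [Set.mem_iInter₂]
    intro i hi
    cases i with
    | none => exact absurd hi hn
    | some x =>
      have : some x ∈ insertNone T := hI hi
      exact hyp_mem v h x (by simpa using this)
  have hK0 : I.eraseNone ⊆ T := by
    intro x hx
    have h1 : some x ∈ I := by simpa using hx
    have : some x ∈ insertNone T := hI h1
    simpa using this
  have hK0c : I.eraseNone.card ≤ finrank ℝ V := by
    have h1 : insertNone I.eraseNone = I := by
      ext o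
      cases o with
      | none => simp [hnone]
      | some x => simp
    have h2 : (insertNone I.eraseNone).card = I.eraseNone.card + 1 := card_insertNone _
    rw [h1] at h2
    omega
  obtain ⟨K, hK1, hK2, hK3⟩ := Finset.exists_subsuperset_card_eq hK0 hK0c hT
  refine ⟨K, hK2, hK3, ?_⟩
  have hKn : (Feas v K).Nonempty := h.mono (Feas_anti v hK2)
  have hmin : ∀ w ∈ Feas v K, ‖hyp v T‖ ≤ ‖w‖ := by
    intro w hw
    by_contra hlt
    push Not at hlt
    apply hIe
    refine ⟨w, ?_⟩
    rw [Set.mem_iInter₂]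
    intro i hi
    cases i with
    | none => exact mem_ball_zero_iff.2 hlt
    | some x => exact hw x (hK1 (by simpa using hi))
  have heq : hyp v T = hyp v K :=
    hyp_unique v hKn (Feas_anti v hK2 (hyp_mem v h)) (hmin _ (hyp_mem v hKn))
  rw [← heq]
  exact hyp_mem v h

/-- Kirchberger's theorem. -/
lemma kirchberger {T : Finset X} (hT : finrank ℝ V + 1 ≤ T.card)
    (h : ∀ S ⊆ T, S.card = finrank ℝ V + 1 → (Feas v S).Nonempty) : (Feas v T).Nonempty := by
  classical
  have := Convex.helly_theorem' (𝕜 := ℝ) (F := fun x => {u : V | (1 : ℝ) ≤ ⟪u, v x⟫}) (s := T)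
    (fun x _ => convex_half v x) (by
      intro I hI hc
      obtain ⟨S, hS1, hS2, hS3⟩ := Finset.exists_subsuperset_card_eq hI hc hT
      obtain ⟨u, hu⟩ := h S hS2 hS3
      exact ⟨u, Set.mem_iInter₂.2 fun x hx => hu x (hS1 hx)⟩)
  obtain ⟨u, hu⟩ := this
  exact ⟨u, fun x hx => Set.mem_iInter₂.1 hu x hx⟩

/-! ### Counting -/

lemma card_supersets_le (U G K : Finset X) (m : ℕ) :
    ((U.powersetCard m).filter fun T => K ⊆ T ∧ T \ K ⊆ G).card ≤ G.card.choose (m - K.card) := by
  rw [← card_powersetCard]
  apply Finset.card_le_card_of_injOn (fun T => T \ K)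
  · intro T hT
    rw [mem_coe, mem_filter, mem_powersetCard] at hT
    rw [mem_coe, mem_powersetCard]
    refine ⟨hT.2.2, ?_⟩
    rw [card_sdiff_of_subset hT.2.1, hT.1.2]
  · intro T hT T' hT' heq
    rw [mem_coe, mem_filter] at hT hT'
    simp only at heq
    rw [← sdiff_union_of_subset hT.2.1, heq, sdiff_union_of_subset hT'.2.1]

lemma choose_ratio {g n : ℕ} (hgn : g ≤ n) (k : ℕ) :
    g.choose k * n ^ k ≤ n.choose k * g ^ k := by
  induction k with
  | zero => simp
  | succ k ih =>
    have h1 : g.choose (k + 1) * (k + 1) = g.choose k * (g - k) := Nat.choose_succ_right_eq g k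
    have h2 : n.choose (k + 1) * (k + 1) = n.choose k * (n - k) := Nat.choose_succ_right_eq n k
    have h3 : (g - k) * n ≤ g * (n - k) := by
      by_cases hk : k ≤ g
      · obtain ⟨a, rfl⟩ := Nat.exists_eq_add_of_le hk
        obtain ⟨b, rfl⟩ := Nat.exists_eq_add_of_le hgn
        have e1 : k + a - k = a := by omega
        have e2 : k + a + b - k = a + b := by omega
        rw [e1, e2]
        nlinarith
      · have : g - k = 0 := by omega
        rw [this]
        simp
    have h4 : (g.choose (k + 1) * n ^ (k + 1)) * (k + 1)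
        ≤ (n.choose (k + 1) * g ^ (k + 1)) * (k + 1) := by
      calc (g.choose (k + 1) * n ^ (k + 1)) * (k + 1)
          = (g.choose (k + 1) * (k + 1)) * (n ^ k * n) := by ring
        _ = (g.choose k * n ^ k) * ((g - k) * n) := by rw [h1]; ring
        _ ≤ (n.choose k * g ^ k) * (g * (n - k)) := Nat.mul_le_mul ih h3
        _ = (n.choose k * (n - k)) * (g ^ k * g) := by ring
        _ = (n.choose (k + 1) * g ^ (k + 1)) * (k + 1) := by rw [← h2]; ring
    exact Nat.le_of_mul_le_mul_right h4 (Nat.succ_pos k)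

open scoped Classical in
/-- The learning bound: if few `(D + 1)`-subsets are bad then some hyperplane `u` has
`⟪u, v x⟫ > 0` for all but few `x`. -/
lemma exists_good {U : Finset X} {D : ℕ} (hD : finrank ℝ V = D) {m : ℕ} (hm : D + 1 ≤ m)
    (hmU : m ≤ U.card) {ρ ε : ℝ}
    (hbad : (((U.powersetCard (D + 1)).filter fun S => ¬ (Feas v S).Nonempty).card : ℝ)
      ≤ ε * (U.card.choose (D + 1) : ℝ))
    (hsum : (m.choose D : ℝ) * ρ ^ (m - D) + ε * (m.choose (D + 1) : ℝ) < 1) :
    ∃ u : V, ρ * ((U.card - D : ℕ) : ℝ) < ((U.filter fun x => 0 < (⟪u, v x⟫ : ℝ)).card : ℝ) := by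
  classical
  by_contra hcon
  push Not at hcon
  set n := U.card with hn
  set Bad := (U.powersetCard (D + 1)).filter fun S => ¬ (Feas v S).Nonempty with hBad
  -- the sets `T` which are not separable
  have hNS : (((U.powersetCard m).filter fun T => ¬ (Feas v T).Nonempty).card : ℝ)
      ≤ ε * ((n.choose m : ℝ) * (m.choose (D + 1) : ℝ)) := by
    have h1 : ((U.powersetCard m).filter fun T => ¬ (Feas v T).Nonempty) ⊆
        Bad.biUnion fun S => (U.powersetCard m).filter fun T => S ⊆ T ∧ T \ S ⊆ U \ S := by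
      intro T hT
      rw [mem_filter, mem_powersetCard] at hT
      rw [mem_biUnion]
      by_contra hno
      push Not at hno
      apply hT.2
      apply kirchberger v (by rw [hD, hT.1.2]; exact hm)
      intro S hS hSc
      by_contra hSn
      refine hno S ?_ ?_
      · rw [hBad, mem_filter, mem_powersetCard]
        exact ⟨⟨hS.trans hT.1.1, by rw [hSc, hD]⟩, hSn⟩
      · rw [mem_filter, mem_powersetCard]
        exact ⟨hT.1, hS, sdiff_subset_sdiff hT.1.1 (Subset.refl S)⟩
    have h2 : (((U.powersetCard m).filter fun T => ¬ (Feas v T).Nonempty).card)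
        ≤ Bad.card * (n - (D + 1)).choose (m - (D + 1)) := by
      refine (card_le_card h1).trans (card_biUnion_le.trans ?_)
      rw [← smul_eq_mul]
      apply Finset.sum_le_card_nsmul
      intro S hS
      rw [hBad, mem_filter, mem_powersetCard] at hS
      refine (card_supersets_le U (U \ S) S m).trans ?_
      rw [card_sdiff_of_subset hS.1.1, hS.1.2]
    have h3 : n.choose m * m.choose (D + 1)
        = n.choose (D + 1) * (n - (D + 1)).choose (m - (D + 1)) := Nat.choose_mul hm
    have h4 : ((Bad.card * (n - (D + 1)).choose (m - (D + 1)) : ℕ) : ℝ)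
        ≤ ε * (n.choose (D + 1) : ℝ) * ((n - (D + 1)).choose (m - (D + 1)) : ℝ) := by
      push_cast
      exact mul_le_mul_of_nonneg_right hbad (Nat.cast_nonneg _)
    calc (((U.powersetCard m).filter fun T => ¬ (Feas v T).Nonempty).card : ℝ)
        ≤ ((Bad.card * (n - (D + 1)).choose (m - (D + 1)) : ℕ) : ℝ) := by exact_mod_cast h2
      _ ≤ ε * (n.choose (D + 1) : ℝ) * ((n - (D + 1)).choose (m - (D + 1)) : ℝ) := h4
      _ = ε * ((n.choose m : ℝ) * (m.choose (D + 1) : ℝ)) := by
        rw [mul_assoc]
        congr 1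
        exact_mod_cast h3.symm
  -- the separable sets `T`
  have hS : (((U.powersetCard m).filter fun T => (Feas v T).Nonempty).card : ℝ)
      ≤ (n.choose m : ℝ) * (m.choose D : ℝ) * ρ ^ (m - D) := by
    let G : Finset X → Finset X := fun K => U.filter fun x => 0 < (⟪hyp v K, v x⟫ : ℝ)
    have h1 : ((U.powersetCard m).filter fun T => (Feas v T).Nonempty) ⊆
        (U.powersetCard D).biUnion fun K =>
          (U.powersetCard m).filter fun T => K ⊆ T ∧ T \ K ⊆ G K := by
      intro T hT
      rw [mem_filter, mem_powersetCard] at hT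
      obtain ⟨K, hK1, hK2, hK3⟩ := compress v hT.2 (by rw [hD, hT.1.2]; omega)
      rw [mem_biUnion]
      refine ⟨K, ?_, ?_⟩
      · rw [mem_powersetCard]
        exact ⟨hK1.trans hT.1.1, by rw [hK2, hD]⟩
      · rw [mem_filter, mem_powersetCard]
        refine ⟨hT.1, hK1, ?_⟩
        intro x hx
        rw [mem_sdiff] at hx
        rw [mem_filter]
        exact ⟨hT.1.1 hx.1, lt_of_lt_of_le one_pos (hK3 x hx.1)⟩
    have h2 : (((U.powersetCard m).filter fun T => (Feas v T).Nonempty).card : ℝ)
        ≤ ∑ K ∈ U.powersetCard D, ((G K).card.choose (m - D) : ℝ) := by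
      have h3 : ((U.powersetCard m).filter fun T => (Feas v T).Nonempty).card
          ≤ ∑ K ∈ U.powersetCard D, (G K).card.choose (m - D) := by
        refine (card_le_card h1).trans (card_biUnion_le.trans ?_)
        apply Finset.sum_le_sum
        intro K hK
        rw [mem_powersetCard] at hK
        refine (card_supersets_le U (G K) K m).trans ?_
        rw [hK.2]
      exact_mod_cast h3
    -- each term
    have h4 : ∀ K ∈ U.powersetCard D, ((G K).card.choose (m - D) : ℝ)
        ≤ ((n - D).choose (m - D) : ℝ) * ρ ^ (m - D) := by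
      intro K _
      have hG := hcon (hyp v K)
      by_cases hle : (G K).card ≤ n - D
      · have h5 := choose_ratio hle (m - D)
        have h6 : (((G K).card.choose (m - D) : ℝ)) * ((n - D : ℕ) : ℝ) ^ (m - D)
            ≤ ((n - D).choose (m - D) : ℝ) * ((G K).card : ℝ) ^ (m - D) := by exact_mod_cast h5
        have hpos : (0 : ℝ) < ((n - D : ℕ) : ℝ) := by
          have : 0 < n - D := by omega
          exact_mod_cast this
        have h7 : ((G K).card : ℝ) ^ (m - D) ≤ (ρ * ((n - D : ℕ) : ℝ)) ^ (m - D) :=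
          pow_le_pow_left₀ (Nat.cast_nonneg _) hG _
        have h8 : (((G K).card.choose (m - D) : ℝ)) * ((n - D : ℕ) : ℝ) ^ (m - D)
            ≤ (((n - D).choose (m - D) : ℝ) * ρ ^ (m - D)) * ((n - D : ℕ) : ℝ) ^ (m - D) := by
          refine h6.trans ?_
          rw [mul_assoc, ← mul_pow]
          exact mul_le_mul_of_nonneg_left h7 (Nat.cast_nonneg _)
        exact le_of_mul_le_mul_right h8 (pow_pos hpos _)
      · push Not at hle
        exfalso
        have hpos : (0 : ℝ) < ((n - D : ℕ) : ℝ) := by
          have : 0 < n - D := by omega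
          exact_mod_cast this
        have h5 : ((n - D : ℕ) : ℝ) < ((G K).card : ℝ) := by exact_mod_cast hle
        have h6 : ((n - D : ℕ) : ℝ) < ρ * ((n - D : ℕ) : ℝ) := lt_of_lt_of_le h5 hG
        have h7 : 1 < ρ := by
          by_contra hρ1
          push Not at hρ1
          nlinarith
        have h8 : (1 : ℝ) ≤ ρ ^ (m - D) := one_le_pow₀ h7.le
        have h9 : (1 : ℝ) ≤ (m.choose D : ℝ) := by
          exact_mod_cast Nat.choose_pos (by omega : D ≤ m)
        have h10 : 0 ≤ ε * (m.choose (D + 1) : ℝ) := by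
          have h11 : 0 ≤ ε * (n.choose (D + 1) : ℝ) := le_trans (Nat.cast_nonneg _) hbad
          have h12 : (0 : ℝ) < (n.choose (D + 1) : ℝ) := by
            exact_mod_cast Nat.choose_pos (by omega : D + 1 ≤ n)
          have h13 : 0 ≤ ε := by
            by_contra hε
            push Not at hε
            nlinarith
          positivity
        nlinarith
    calc (((U.powersetCard m).filter fun T => (Feas v T).Nonempty).card : ℝ)
        ≤ ∑ K ∈ U.powersetCard D, ((G K).card.choose (m - D) : ℝ) := h2
      _ ≤ ∑ _K ∈ U.powersetCard D, ((n - D).choose (m - D) : ℝ) * ρ ^ (m - D) :=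
        Finset.sum_le_sum h4
      _ = (n.choose D : ℝ) * (((n - D).choose (m - D) : ℝ) * ρ ^ (m - D)) := by
        rw [sum_const, card_powersetCard, nsmul_eq_mul]
      _ = (n.choose m : ℝ) * (m.choose D : ℝ) * ρ ^ (m - D) := by
        have h5 : n.choose m * m.choose D = n.choose D * (n - D).choose (m - D) :=
          Nat.choose_mul (by omega)
        have h6 : (n.choose m : ℝ) * (m.choose D : ℝ)
            = (n.choose D : ℝ) * ((n - D).choose (m - D) : ℝ) := by exact_mod_cast h5
        rw [h6]
        ring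
  have htot : (((U.powersetCard m).filter fun T => (Feas v T).Nonempty).card : ℝ)
      + (((U.powersetCard m).filter fun T => ¬ (Feas v T).Nonempty).card : ℝ)
      = (n.choose m : ℝ) := by
    have := card_filter_add_card_filter_not (s := U.powersetCard m)
      (fun T => (Feas v T).Nonempty)
    rw [card_powersetCard] at this
    exact_mod_cast this
  have hpos : (0 : ℝ) < (n.choose m : ℝ) := by exact_mod_cast Nat.choose_pos hmU
  nlinarith

end Pool.Agent.R172.Compress
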