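import Mathlib

set_option autoImplicit false
set_option linter.unusedSectionVars false

/-!
# Rectifiable connections inside a set

`Conn E x x' l`: the points `x` and `x'` are joined in `E` by a path of length at most `l`
(parametrized with speed at most one on `[0, l]`).
-/

namespace Pool.Agent.R172

open Set Metric

variable {V : Type*} [NormedAddCommGroup V] [InnerProductSpace ℝ V]

/-- `x` and `x'` are joined in `E` by a path of length at most `l`. -/
def Conn (E : Set V) (x x' : V) (l : ℝ) : Prop :=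
  0 ≤ l ∧ ∃ γ : ℝ → V, γ 0 = x ∧ γ l = x' ∧ (∀ t ∈ Icc 0 l, γ t ∈ E) ∧
    ∀ s ∈ Icc 0 l, ∀ t ∈ Icc 0 l, s ≤ t → dist (γ s) (γ t) ≤ t - s

lemma Conn.symm {E : Set V} {x x' : V} {l : ℝ} (h : Conn E x x' l) : Conn E x' x l := by
  obtain ⟨h0, γ, h1, h2, h3, h4⟩ := h
  refine ⟨h0, fun t => γ (l - t), by simpa using h2, by simpa using h1, fun t ht => ?_,
    fun s hs t ht hst => ?_⟩
  · exact h3 _ ⟨by linarith [ht.2], by linarith [ht.1]⟩
  · have := h4 (l - t) ⟨by linarith [ht.2], by linarith [ht.1]⟩ (l - s)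
      ⟨by linarith [hs.2], by linarith [hs.1]⟩ (by linarith)
    rw [dist_comm]
    linarith

lemma Conn.trans {E : Set V} {x y z : V} {l l' : ℝ} (h : Conn E x y l) (h' : Conn E y z l') :
    Conn E x z (l + l') := by
  obtain ⟨h0, γ, h1, h2, h3, h4⟩ := h
  obtain ⟨k0, δ, k1, k2, k3, k4⟩ := h'
  refine ⟨by linarith, fun t => if t ≤ l then γ t else δ (t - l), ?_, ?_, ?_, ?_⟩
  · simp only [h0, if_true]
    exact h1
  · by_cases hl : l' = 0
    · subst hl
      simp only [add_zero, le_refl, if_true]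
      rw [h2, ← k1, k2]
    · have : ¬ (l + l' ≤ l) := by
        intro hc
        apply hl
        linarith
      simp only [this, if_false]
      rw [add_sub_cancel_left]
      exact k2
  · intro t ht
    by_cases htl : t ≤ l
    · simp only [htl, if_true]
      exact h3 t ⟨ht.1, htl⟩
    · simp only [htl, if_false]
      exact k3 _ ⟨by linarith, by linarith [ht.2]⟩
  · intro s hs t ht hst
    by_cases htl : t ≤ l
    · have hsl : s ≤ l := hst.trans htl
      simp only [htl, hsl, if_true]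
      exact h4 s ⟨hs.1, hsl⟩ t ⟨ht.1, htl⟩ hst
    · by_cases hsl : s ≤ l
      · simp only [htl, hsl, if_true, if_false]
        have e1 := h4 s ⟨hs.1, hsl⟩ l ⟨h0, le_rfl⟩ hsl
        have e2 := k4 0 ⟨le_rfl, k0⟩ (t - l) ⟨by linarith, by linarith [ht.2]⟩ (by linarith)
        rw [h2] at e1
        rw [k1] at e2
        have := dist_triangle (γ s) y (δ (t - l))
        linarith
      · simp only [htl, hsl, if_false]
        have := k4 (s - l) ⟨by linarith, by linarith [hs.2]⟩ (t - l)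
          ⟨by linarith, by linarith [ht.2]⟩ (by linarith)
        linarith

/-- A path with a continuous control function `θ` gives a connection of length
`θ b - θ a`. -/
lemma Conn.of_ctrl {E : Set V} {a b : ℝ} (hab : a ≤ b) (β : ℝ → V) (θ : ℝ → ℝ)
    (hθ : ContinuousOn θ (Icc a b)) (hE : ∀ t ∈ Icc a b, β t ∈ E)
    (hβ : ∀ s ∈ Icc a b, ∀ t ∈ Icc a b, s ≤ t → dist (β s) (β t) ≤ θ t - θ s) :
    Conn E (β a) (β b) (θ b - θ a) := by
  have ha : a ∈ Icc a b := ⟨le_rfl, hab⟩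
  have hb : b ∈ Icc a b := ⟨hab, le_rfl⟩
  have hmono : ∀ s ∈ Icc a b, ∀ t ∈ Icc a b, s ≤ t → θ s ≤ θ t := fun s hs t ht hst => by
    have := hβ s hs t ht hst
    linarith [dist_nonneg (x := β s) (y := β t)]
  have habs : ∀ s ∈ Icc a b, ∀ t ∈ Icc a b, dist (β s) (β t) ≤ |θ t - θ s| := by
    intro s hs t ht
    rcases le_total s t with h | h
    · exact (hβ s hs t ht h).trans (le_abs_self _)
    · rw [dist_comm, abs_sub_comm]
      exact (hβ t ht s hs h).trans (le_abs_self _)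
  have hivt : ∀ u ∈ Icc 0 (θ b - θ a), ∃ t ∈ Icc a b, θ t = θ a + u := by
    intro u hu
    have := intermediate_value_Icc hab hθ
    obtain ⟨t, ht, hte⟩ := this (⟨by linarith [hu.1], by linarith [hu.2]⟩ : θ a + u ∈ Icc (θ a) (θ b))
    exact ⟨t, ht, hte⟩
  choose! T hT hTe using hivt
  have h0 : (0 : ℝ) ≤ θ b - θ a := by linarith [hmono a ha b hb hab]
  refine ⟨h0, fun u => β (T u), ?_, ?_, ?_, ?_⟩
  · have hu : (0 : ℝ) ∈ Icc 0 (θ b - θ a) := ⟨le_rfl, h0⟩
    have h1 := habs _ (hT 0 hu) a ha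
    rw [hTe 0 hu] at h1
    have : dist (β (T 0)) (β a) ≤ 0 := by
      refine h1.trans ?_
      rw [show θ a - (θ a + 0) = 0 by ring, abs_zero]
    exact dist_le_zero.1 this
  · have hu : (θ b - θ a) ∈ Icc 0 (θ b - θ a) := ⟨h0, le_rfl⟩
    have h1 := habs _ (hT _ hu) b hb
    rw [hTe _ hu] at h1
    have : dist (β (T (θ b - θ a))) (β b) ≤ 0 := by
      refine h1.trans ?_
      rw [show θ b - (θ a + (θ b - θ a)) = 0 by ring, abs_zero]
    exact dist_le_zero.1 this
  · intro u hu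
    exact hE _ (hT u hu)
  · intro s hs t ht hst
    refine (habs _ (hT s hs) _ (hT t ht)).trans ?_
    rw [hTe s hs, hTe t ht, show θ a + t - (θ a + s) = t - s by ring, abs_of_nonneg (by linarith)]

lemma Conn.of_lipschitz {E : Set V} {a b L : ℝ} (hab : a ≤ b) (β : ℝ → V)
    (hE : ∀ t ∈ Icc a b, β t ∈ E)
    (hβ : ∀ s ∈ Icc a b, ∀ t ∈ Icc a b, s ≤ t → dist (β s) (β t) ≤ L * (t - s)) :
    Conn E (β a) (β b) (L * (b - a)) := by
  have := Conn.of_ctrl hab β (fun t => L * t) (by fun_prop) hE (fun s hs t ht hst => by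
    have := hβ s hs t ht hst
    linarith)
  simpa [mul_sub] using this

lemma Conn.of_segment {E : Set V} {x x' : V} (h : ∀ t ∈ Icc (0 : ℝ) 1, x + t • (x' - x) ∈ E) :
    Conn E x x' (dist x x') := by
  have := Conn.of_lipschitz (E := E) (L := dist x x') (zero_le_one (α := ℝ))
    (fun t => x + t • (x' - x)) h (fun s _ t _ hst => by
      rw [dist_eq_norm, dist_eq_norm]
      have : x + s • (x' - x) - (x + t • (x' - x)) = (t - s) • (x - x') := by
        simp only [smul_sub, sub_smul]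
        abel
      rw [this, norm_smul, Real.norm_eq_abs, abs_of_nonneg (by linarith), mul_comm])
  simpa using this

/-- A shortest path. -/
lemma exists_shortest {E : Set V} (hE : IsCompact E) {x x' : V} {M : ℝ} (hM : Conn E x x' M) :
    ∃ (L : ℝ) (γ : ℝ → V), 0 ≤ L ∧ γ 0 = x ∧ γ 1 = x' ∧ (∀ t, γ t ∈ E) ∧
      (∀ s ∈ Icc (0 : ℝ) 1, ∀ t ∈ Icc (0 : ℝ) 1, dist (γ s) (γ t) ≤ L * |t - s|) ∧
      ∀ l, Conn E x x' l → L ≤ l := by
  classical
  let I := Icc (0 : ℝ) 1
  let i0 : I := ⟨0, by simp [I]⟩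
  let i1 : I := ⟨1, by simp [I]⟩
  let K : Set (ℝ × (I → V)) := (Icc 0 M) ×ˢ (Set.pi univ (fun _ : I => E)) ∩
    {q | q.2 i0 = x ∧ q.2 i1 = x' ∧ ∀ s t : I, dist (q.2 s) (q.2 t) ≤ q.1 * |(t : ℝ) - s|}
  have hclosed : IsClosed {q : ℝ × (I → V) | q.2 i0 = x ∧ q.2 i1 = x' ∧
      ∀ s t : I, dist (q.2 s) (q.2 t) ≤ q.1 * |(t : ℝ) - s|} := by
    have e : {q : ℝ × (I → V) | q.2 i0 = x ∧ q.2 i1 = x' ∧
      ∀ s t : I, dist (q.2 s) (q.2 t) ≤ q.1 * |(t : ℝ) - s|} =
      {q | q.2 i0 = x} ∩ ({q | q.2 i1 = x'} ∩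
        ⋂ s : I, ⋂ t : I, {q | dist (q.2 s) (q.2 t) ≤ q.1 * |(t : ℝ) - s|}) := by
      ext q
      simp
    rw [e]
    refine (isClosed_eq (by fun_prop) continuous_const).inter
      ((isClosed_eq (by fun_prop) continuous_const).inter
        (isClosed_iInter fun s => isClosed_iInter fun t => isClosed_le ?_ ?_))
    · fun_prop
    · fun_prop
  have hK : IsCompact K := (isCompact_Icc.prod (isCompact_univ_pi fun _ => hE)).inter_right hclosed
  have key : ∀ l, l ≤ M → Conn E x x' l → ∃ γ, (l, γ) ∈ K := by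
    rintro l hl ⟨h0, γ, h1, h2, h3, h4⟩
    refine ⟨fun i => γ (l * i), ⟨⟨h0, hl⟩, fun i _ => ?_⟩, ?_, ?_, ?_⟩
    · exact h3 _ ⟨mul_nonneg h0 i.2.1, mul_le_of_le_one_right h0 i.2.2⟩
    · simp [i0, h1]
    · simp [i1, h2]
    · intro s t
      have hm : ∀ i : I, l * (i : ℝ) ∈ Icc 0 l := fun i =>
        ⟨mul_nonneg h0 i.2.1, mul_le_of_le_one_right h0 i.2.2⟩
      simp only
      rcases le_total (s : ℝ) t with h | h
      · rw [abs_of_nonneg (by linarith)]
        have := h4 _ (hm s) _ (hm t) (mul_le_mul_of_nonneg_left h h0)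
        linarith
      · rw [abs_of_nonpos (by linarith), dist_comm]
        have := h4 _ (hm t) _ (hm s) (mul_le_mul_of_nonneg_left h h0)
        linarith
  obtain ⟨γM, hγM⟩ := key M le_rfl hM
  obtain ⟨⟨L, γ⟩, hq, hmin⟩ := hK.exists_isMinOn ⟨_, hγM⟩ continuous_fst.continuousOn
  obtain ⟨⟨hL, hγE⟩, g0, g1, g2⟩ := hq
  refine ⟨L, fun t => γ (projIcc 0 1 zero_le_one t), hL.1, ?_, ?_, fun t => ?_, ?_, fun l hl => ?_⟩
  · simp only
    rw [show projIcc (0 : ℝ) 1 zero_le_one 0 = i0 from projIcc_left zero_le_one]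
    exact g0
  · simp only
    rw [show projIcc (0 : ℝ) 1 zero_le_one 1 = i1 from projIcc_right zero_le_one]
    exact g1
  · exact hγE _ (mem_univ _)
  · intro s hs t ht
    simp only
    rw [projIcc_of_mem zero_le_one hs, projIcc_of_mem zero_le_one ht]
    exact g2 _ _
  · rcases le_total l M with h | h
    · obtain ⟨δ, hδ⟩ := key l h hl
      exact hmin hδ
    · exact hL.2.trans h

end Pool.Agent.R172
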