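import Mathlib

set_option autoImplicit false
set_option linter.unusedSectionVars false

/-!
# Moving the points of a set toward a point
-/

namespace Pool.Agent.R172

open Set Metric

variable {V : Type*} [NormedAddCommGroup V] [InnerProductSpace ℝ V]

/-- All points of `E` near `s` can be moved toward `y` by a fixed fraction inside `E`. -/
def Moves (E : Set V) (y s : V) : Prop :=
  ∃ ε > 0, ∃ τ > 0, ∀ z ∈ E, dist z s < ε → ∀ t ∈ Icc (0 : ℝ) τ, z + t • (y - z) ∈ E

/-- the point on the way from `z` to `y` -/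
def mv (y z : V) (t : ℝ) : V := z + t • (y - z)

lemma mv_zero (y z : V) : mv y z 0 = z := by simp [mv]

lemma mv_one (y z : V) : mv y z 1 = y := by simp [mv]

lemma mv_continuous (y z : V) : Continuous (mv y z) := by
  unfold mv
  fun_prop

lemma dist_mv_mv (y z z' : V) {t : ℝ} (ht : t ≤ 1) :
    dist (mv y z t) (mv y z' t) = (1 - t) * dist z z' := by
  rw [dist_eq_norm, dist_eq_norm]
  have : mv y z t - mv y z' t = (1 - t) • (z - z') := by
    simp only [mv, smul_sub, sub_smul, one_smul]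
    abel
  rw [this, norm_smul, Real.norm_eq_abs, abs_of_nonneg (by linarith)]

lemma dist_mv_mv_le (y z z' : V) {t : ℝ} (h0 : 0 ≤ t) (ht : t ≤ 1) :
    dist (mv y z t) (mv y z' t) ≤ dist z z' := by
  rw [dist_mv_mv y z z' ht]
  have := dist_nonneg (x := z) (y := z')
  nlinarith

lemma dist_mv_same (y z : V) (s t : ℝ) :
    dist (mv y z s) (mv y z t) = |s - t| * dist y z := by
  rw [dist_eq_norm, dist_eq_norm]
  have : mv y z s - mv y z t = (s - t) • (y - z) := by
    simp only [mv, smul_sub, sub_smul]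
    abel
  rw [this, norm_smul, Real.norm_eq_abs]

/-- Moving in two steps. -/
lemma mv_mv (y z : V) (s t : ℝ) : mv y (mv y z s) t = mv y z (s + t * (1 - s)) := by
  simp only [mv, smul_sub, smul_add, sub_smul, add_smul, mul_sub, mul_one, smul_smul]
  abel

lemma Moves.near {E : Set V} {y s : V} (h : Moves E y s) :
    ∃ ε > 0, ∀ s', dist s' s < ε → Moves E y s' := by
  obtain ⟨ε, hε, τ, hτ, h⟩ := h
  refine ⟨ε / 2, by linarith, fun s' hs' => ⟨ε / 2, by linarith, τ, hτ, fun z hz hd => h z hz ?_⟩⟩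
  have := dist_triangle z s' s
  linarith

lemma isOpen_moves (E : Set V) (y : V) : IsOpen {s | Moves E y s} := by
  rw [Metric.isOpen_iff]
  intro s hs
  obtain ⟨ε, hε, h⟩ := hs.near
  exact ⟨ε, hε, fun s' hs' => h s' hs'⟩

/-- An inequality which holds up to a small linear error. -/
lemma nonneg_of_linear {A B η : ℝ} (hη : 0 < η) (h : ∀ t, 0 < t → t ≤ η → 0 ≤ A + t * B) :
    0 ≤ A := by
  by_contra hc
  push Not at hc
  have h1 := h (min η (-A / (2 * (|B| + 1)))) (lt_min hη (by
    have := abs_nonneg B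
    apply div_pos
    · linarith
    · linarith)) (min_le_left _ _)
  set t := min η (-A / (2 * (|B| + 1)))
  have h2 : t ≤ -A / (2 * (|B| + 1)) := min_le_right _ _
  have hB := abs_nonneg B
  rw [le_div_iff₀ (by linarith)] at h2
  have h0 : 0 ≤ t := by
    by_contra hneg
    push Not at hneg
    have : 0 < t := lt_min hη (by
      apply div_pos
      · linarith
      · linarith)
    linarith
  have h3 : t * B ≤ t * |B| := mul_le_mul_of_nonneg_left (le_abs_self B) h0
  nlinarith

/-- The touching ball argument. -/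
lemma moves_of_visible {E : Set V} (hE : IsCompact E) {q y : V} {ρ : ℝ} (hρ : 0 < ρ)
    (hy : y ∈ closure (convexHull ℝ {y' | y' ∈ E ∧ ∀ z ∈ E, dist z q < ρ →
      ∀ t ∈ Icc (0 : ℝ) 1, mv y' z t ∈ E})) :
    Moves E y q := by
  have hD : 0 < 4 * (dist y q + ρ) := by
    have := dist_nonneg (x := y) (y := q)
    linarith
  refine ⟨ρ / 3, by linarith, ρ / (4 * (dist y q + ρ)), by positivity, ?_⟩
  intro z hz hzq s₁ hs₁
  change mv y z s₁ ∈ E
  by_contra hcon
  set v := y - z with hv
  have hvn : ‖v‖ ≤ dist y q + ρ := by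
    rw [hv, ← dist_eq_norm]
    have := dist_triangle y q z
    rw [dist_comm q z] at this
    linarith
  have hs₁v : s₁ * ‖v‖ ≤ ρ / 4 := by
    calc s₁ * ‖v‖ ≤ (ρ / (4 * (dist y q + ρ))) * (dist y q + ρ) :=
          mul_le_mul hs₁.2 hvn (norm_nonneg _) (by positivity)
      _ = ρ / 4 := by
          have : dist y q + ρ ≠ 0 := by linarith
          field_simp
  have hs₁1 : s₁ ≤ 1 := by
    refine hs₁.2.trans ?_
    rw [div_le_one hD]
    have := dist_nonneg (x := y) (y := q)
    linarith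
  have hs₁0 : 0 < s₁ := by
    rcases hs₁.1.eq_or_lt with h | h
    · exfalso
      apply hcon
      rw [← h, mv_zero]
      exact hz
    · exact h
  -- positive distance
  have hδ : 0 < infDist (mv y z s₁) E :=
    (hE.isClosed.notMem_iff_infDist_pos ⟨z, hz⟩).1 hcon
  set δ := infDist (mv y z s₁) E with hδd
  have hδle : ∀ b ∈ E, δ ≤ ‖mv y z s₁ - b‖ := by
    intro b hb
    rw [← dist_eq_norm]
    exact infDist_le_dist_of_mem hb
  set lam := δ ^ 2 / (2 * s₁) with hlam
  have hlampos : 0 < lam := by positivity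
  -- the compact set of the pairs `(s, b)`
  let K : Set (ℝ × V) := (Icc 0 s₁ ×ˢ E) ∩ {p | ‖mv y z p.1 - p.2‖ ^ 2 ≤ lam * p.1}
  have hK : IsCompact K := by
    refine (isCompact_Icc.prod hE).inter_right (isClosed_le ?_ ?_)
    · unfold mv
      fun_prop
    · fun_prop
  have hne : ((0 : ℝ), z) ∈ K := by
    refine ⟨⟨⟨le_rfl, hs₁0.le⟩, hz⟩, ?_⟩
    simp [mv_zero]
  obtain ⟨⟨s₀, b⟩, ⟨⟨hs₀, hb⟩, hle⟩, hmax⟩ := hK.exists_isMaxOn ⟨_, hne⟩ continuous_fst.continuousOn
  simp only at hs₀ hb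
  have hle' : ‖mv y z s₀ - b‖ ^ 2 ≤ lam * s₀ := hle
  have hs₀lt : s₀ < s₁ := by
    rcases hs₀.2.eq_or_lt with h | h
    · exfalso
      have h1 := hδle b hb
      rw [h] at hle'
      have h2 : lam * s₁ = δ ^ 2 / 2 := by
        rw [hlam]
        field_simp
      rw [h2] at hle'
      nlinarith
    · exact h
  have hs₀pos : 0 < s₀ := by
    have hmin : 0 < min s₁ (lam / (‖v‖ ^ 2 + 1)) := lt_min hs₁0 (by positivity)
    have hmem : ((min s₁ (lam / (‖v‖ ^ 2 + 1))), z) ∈ K := by
      refine ⟨⟨⟨hmin.le, min_le_left _ _⟩, hz⟩, ?_⟩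
      change ‖mv y z (min s₁ (lam / (‖v‖ ^ 2 + 1))) - z‖ ^ 2 ≤ lam * min s₁ (lam / (‖v‖ ^ 2 + 1))
      set m := min s₁ (lam / (‖v‖ ^ 2 + 1))
      have h1 : mv y z m - z = m • v := by
        simp [mv, hv]
      rw [h1, norm_smul, Real.norm_eq_abs, abs_of_pos hmin, mul_pow]
      have h2 : m ≤ lam / (‖v‖ ^ 2 + 1) := min_le_right _ _
      rw [le_div_iff₀ (by positivity)] at h2
      nlinarith [sq_nonneg ‖v‖]
    have : (min s₁ (lam / (‖v‖ ^ 2 + 1))) ≤ s₀ := hmax hmem
    linarith
  set c := mv y z s₀ with hc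
  -- no point of `E` is near the later points
  have hgt : ∀ b' ∈ E, ∀ t, 0 < t → t ≤ s₁ - s₀ →
      lam * (s₀ + t) < ‖c - b'‖ ^ 2 + 2 * t * inner ℝ (c - b') v + t ^ 2 * ‖v‖ ^ 2 := by
    intro b' hb' t ht0 ht
    by_contra hc'
    push Not at hc'
    have h1 : mv y z (s₀ + t) - b' = (c - b') + t • v := by
      simp only [hc, mv, hv, add_smul]
      abel
    have h2 : ‖mv y z (s₀ + t) - b'‖ ^ 2 =
        ‖c - b'‖ ^ 2 + 2 * t * inner ℝ (c - b') v + t ^ 2 * ‖v‖ ^ 2 := by
      rw [h1, norm_add_sq_real, inner_smul_right, norm_smul, Real.norm_eq_abs, abs_of_pos ht0]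
      ring
    have hmem : ((s₀ + t), b') ∈ K := by
      refine ⟨⟨⟨by linarith, by linarith⟩, hb'⟩, ?_⟩
      change ‖mv y z (s₀ + t) - b'‖ ^ 2 ≤ lam * (s₀ + t)
      rw [h2]
      exact hc'
    have : s₀ + t ≤ s₀ := hmax hmem
    linarith
  have hnear : ∀ b' ∈ E, lam * s₀ ≤ ‖c - b'‖ ^ 2 := by
    intro b' hb'
    have := nonneg_of_linear (A := ‖c - b'‖ ^ 2 - lam * s₀)
      (B := 2 * |inner ℝ (c - b') v| + (s₁ - s₀) * ‖v‖ ^ 2) (η := s₁ - s₀) (by linarith) (by
        intro t ht0 ht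
        have h1 := hgt b' hb' t ht0 ht
        have h2 : t * inner ℝ (c - b') v ≤ t * |inner ℝ (c - b') v| :=
          mul_le_mul_of_nonneg_left (le_abs_self _) ht0.le
        have h3 : t ^ 2 * ‖v‖ ^ 2 ≤ t * ((s₁ - s₀) * ‖v‖ ^ 2) := by
          have := mul_le_mul_of_nonneg_right ht (mul_nonneg ht0.le (sq_nonneg ‖v‖))
          nlinarith
        have h4 : 0 ≤ lam * t := by positivity
        nlinarith)
    linarith
  have hinner : inner ℝ (b - c) v ≤ 0 := by
    have h0 : 0 ≤ 2 * inner ℝ (c - b) v - lam := by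
      refine nonneg_of_linear (B := ‖v‖ ^ 2) (η := s₁ - s₀) (by linarith) ?_
      intro t ht0 ht
      have h1 := hgt b hb t ht0 ht
      have h2 : 0 ≤ t * (2 * inner ℝ (c - b) v - lam + t * ‖v‖ ^ 2) := by nlinarith
      exact nonneg_of_mul_nonneg_right h2 ht0
    have h1 : inner ℝ (b - c) v = - inner ℝ (c - b) v := by
      rw [← inner_neg_left, neg_sub]
    rw [h1]
    linarith
  have hbc : ‖c - b‖ ^ 2 ≤ ‖c - z‖ ^ 2 := hle'.trans (hnear z hz)
  have hcz : ‖c - z‖ ≤ ρ / 4 := by
    have : c - z = s₀ • v := by simp [hc, mv, hv]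
    rw [this, norm_smul, Real.norm_eq_abs, abs_of_pos hs₀pos]
    have := mul_le_mul_of_nonneg_right hs₀.2 (norm_nonneg v)
    linarith
  have hcb : ‖c - b‖ ≤ ρ / 4 :=
    ((pow_le_pow_iff_left₀ (norm_nonneg _) (norm_nonneg _) two_ne_zero).1 hbc).trans hcz
  have hbq : dist b q < ρ := by
    have h1 := dist_triangle b c q
    have h2 := dist_triangle c z q
    rw [dist_comm b c, dist_eq_norm c b] at h1
    rw [dist_eq_norm c z] at h2
    linarith
  -- the half space
  have hhalf : y ∈ {y' | 0 ≤ inner ℝ (b - c) (y' - b)} := by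
    have hconv : Convex ℝ {y' : V | 0 ≤ inner ℝ (b - c) (y' - b)} := by
      intro p hp p' hp' α β hα hβ hαβ
      simp only [mem_ofPred_eq] at hp hp' ⊢
      have : α • p + β • p' - b = α • (p - b) + β • (p' - b) := by
        have hb1 : b = α • b + β • b := by rw [← add_smul, hαβ, one_smul]
        conv_lhs => rw [hb1]
        simp only [smul_sub]
        abel
      rw [this, inner_add_right, inner_smul_right, inner_smul_right]
      positivity
    have hclosed : IsClosed {y' : V | 0 ≤ inner ℝ (b - c) (y' - b)} :=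
      isClosed_le continuous_const (by fun_prop)
    refine closure_minimal (convexHull_min ?_ hconv) hclosed hy
    rintro y' ⟨hy'E, hy'⟩
    simp only [mem_ofPred_eq]
    have hseg : ∀ t, 0 < t → t ≤ 1 →
        0 ≤ t * (2 * inner ℝ (b - c) (y' - b) + t * ‖y' - b‖ ^ 2) := by
      intro t ht0 ht1
      have h1 := hy' b hb hbq t ⟨ht0.le, ht1⟩
      have h2 := hle'.trans (hnear _ h1)
      have h3 : c - mv y' b t = (c - b) - t • (y' - b) := by
        simp only [mv]
        abel
      rw [h3, norm_sub_sq_real (c - b) (t • (y' - b)), inner_smul_right, norm_smul,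
        Real.norm_eq_abs, abs_of_pos ht0] at h2
      have h4 : inner ℝ (b - c) (y' - b) = - inner ℝ (c - b) (y' - b) := by
        rw [← inner_neg_left, neg_sub]
      rw [h4]
      nlinarith
    have := nonneg_of_linear (A := 2 * inner ℝ (b - c) (y' - b)) (B := ‖y' - b‖ ^ 2) one_pos
      (fun t ht0 ht1 => nonneg_of_mul_nonneg_right (hseg t ht0 ht1) ht0)
    linarith
  simp only [mem_ofPred_eq] at hhalf
  have hyb : y - b = (1 - s₀) • v - (b - c) := by
    simp only [hc, mv, hv, sub_smul, one_smul]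
    abel
  rw [hyb, inner_sub_right, inner_smul_right, real_inner_self_eq_norm_sq] at hhalf
  have hpos : 0 < ‖b - c‖ ^ 2 := by
    have := hnear b hb
    rw [norm_sub_rev b c]
    nlinarith
  have h1s : 0 ≤ 1 - s₀ := by linarith
  nlinarith [mul_nonneg h1s (neg_nonneg.2 hinner)]

/-- Propagation of the property inside a convex piece of the set. -/
lemma moves_of_convex_near {E : Set V} (hE : IsClosed E) {y s : V} {r σ : ℝ}
    (hconv : Convex ℝ (ball s r ∩ E)) (hσ0 : 0 < σ) (hσ1 : σ < 1)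
    (hball : dist (mv y s σ) s < r) (hsE : mv y s σ ∈ E) (hm : Moves E y (mv y s σ)) :
    Moves E y s := by
  set s'' := mv y s σ with hs''
  obtain ⟨ε, hε, τ, hτ, hmv⟩ := hm
  have hr : 0 < r := lt_of_le_of_lt dist_nonneg hball
  refine ⟨min ε (r - dist s'' s), lt_min hε (by linarith), σ, hσ0, ?_⟩
  intro z hz hzs
  have hz1 : dist z s < ε := hzs.trans_le (min_le_left _ _)
  have hz2 : dist z s < r - dist s'' s := hzs.trans_le (min_le_right _ _)
  have hzC : z ∈ ball s r ∩ E := ⟨by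
    rw [mem_ball]
    have := dist_nonneg (x := s'') (y := s)
    linarith, hz⟩
  -- the points between `s''` and the moved `z`
  let w : ℝ → V := fun l => s'' + (l * (1 - σ)) • (z - s)
  have hwdist : ∀ l ∈ Icc (0 : ℝ) 1, dist (w l) s'' ≤ dist z s := by
    intro l hl
    simp only [w, dist_eq_norm]
    rw [add_sub_cancel_left, norm_smul, Real.norm_eq_abs, abs_of_nonneg (by
      have := hl.1
      have : 0 < 1 - σ := by linarith
      positivity)]
    have : l * (1 - σ) ≤ 1 := by nlinarith [hl.1, hl.2]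
    nlinarith [norm_nonneg (z - s)]
  have hwball : ∀ l ∈ Icc (0 : ℝ) 1, w l ∈ ball s r := by
    intro l hl
    rw [mem_ball]
    have := dist_triangle (w l) s'' s
    have := hwdist l hl
    linarith
  have hw1 : w 1 = mv y z σ := by
    simp only [w, hs'', mv, one_mul, smul_sub, sub_smul, one_smul]
    abel
  have hw0 : w 0 = s'' := by simp [w]
  have hz'' : mv y z σ ∈ E := by
    rw [← hw1]
    by_contra hcon
    have hK : IsCompact {l | l ∈ Icc (0 : ℝ) 1 ∧ w l ∈ E} := by
      have : {l | l ∈ Icc (0 : ℝ) 1 ∧ w l ∈ E} = Icc 0 1 ∩ w ⁻¹' E := rfl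
      rw [this]
      refine isCompact_Icc.inter_right (hE.preimage ?_)
      simp only [w]
      fun_prop
    obtain ⟨l, ⟨hl, hlE⟩, hmax⟩ := hK.exists_isGreatest ⟨0, ⟨le_rfl, zero_le_one⟩, by
      rw [hw0]; exact hsE⟩
    have hl1 : l < 1 := by
      rcases hl.2.eq_or_lt with h | h
      · exact absurd (h ▸ hlE) hcon
      · exact h
    have hroom : dist (w l) s'' < ε := (hwdist l hl).trans_lt hz1
    -- the parameter of the step
    let η := min (1 / 2) (min ((ε - dist (w l) s'') / (2 * (dist z (w l) + 1))) (τ * (1 - σ)))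
    have hσ' : 0 < 1 - σ := by linarith
    have hη0 : 0 < η := by
      have := dist_nonneg (x := z) (y := w l)
      refine lt_min (by norm_num) (lt_min (div_pos (by linarith) (by linarith)) (mul_pos hτ hσ'))
    have hη1 : η ≤ 1 / 2 := min_le_left _ _
    have hη2 : η ≤ (ε - dist (w l) s'') / (2 * (dist z (w l) + 1)) :=
      (min_le_right _ _).trans (min_le_left _ _)
    have hη3 : η ≤ τ * (1 - σ) := (min_le_right _ _).trans (min_le_right _ _)
    let u := w l + η • (z - w l)
    have huC : u ∈ ball s r ∩ E := by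
      have h1 : w l ∈ ball s r ∩ E := ⟨hwball l hl, hlE⟩
      have h2 := hconv h1 hzC (by linarith : 0 ≤ 1 - η) hη0.le (by ring)
      convert h2 using 1
      simp only [u, sub_smul, smul_sub, one_smul]
      abel
    have hu : dist u s'' < ε := by
      have h1 : dist u (w l) = η * dist z (w l) := by
        simp only [u, dist_eq_norm]
        rw [add_sub_cancel_left, norm_smul, Real.norm_eq_abs, abs_of_pos hη0]
      have h2 := dist_triangle u (w l) s''
      have h3 := dist_nonneg (x := z) (y := w l)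
      rw [le_div_iff₀ (by linarith)] at hη2
      nlinarith
    have hden : 0 < 1 - σ + η * σ := by positivity
    have hstep := hmv u huC.2 hu (η * σ / (1 - σ + η * σ)) ⟨by positivity, by
      rw [div_le_iff₀ hden]
      nlinarith [mul_nonneg hη0.le hσ0.le, mul_pos hτ hσ', mul_nonneg hτ.le (mul_nonneg hη0.le hσ0.le)]⟩
    -- the new point is `w l'`
    have hl' : u + (η * σ / (1 - σ + η * σ)) • (y - u) =
        w (l + η * (1 - l) / (1 - σ + η * σ)) := by
      have hzs' : z = s + (z - s) := by abel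
      have hs : (1 - σ) • s = s'' - σ • y := by
        simp only [hs'', mv, smul_sub, sub_smul, one_smul]
        abel
      -- multiply by the denominator
      have hinj : Function.Injective (fun p : V => (1 - σ + η * σ) • p) :=
        smul_right_injective V hden.ne'
      apply hinj
      simp only [u, w]
      have e1 : (1 - σ + η * σ) • (s'' + (l * (1 - σ)) • (z - s) +
          η • (z - (s'' + (l * (1 - σ)) • (z - s))) + (η * σ / (1 - σ + η * σ)) •
          (y - (s'' + (l * (1 - σ)) • (z - s) + η • (z - (s'' + (l * (1 - σ)) • (z - s)))))) =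
          (1 - σ) • (s'' + (l * (1 - σ)) • (z - s) +
          η • (z - (s'' + (l * (1 - σ)) • (z - s)))) + (η * σ) • y := by
        set p := s'' + (l * (1 - σ)) • (z - s) + η • (z - (s'' + (l * (1 - σ)) • (z - s)))
        rw [smul_add, smul_smul, mul_div_cancel₀ _ hden.ne', smul_sub]
        simp only [add_smul]
        abel
      have e2 : (1 - σ + η * σ) • (s'' + ((l + η * (1 - l) / (1 - σ + η * σ)) * (1 - σ)) •
          (z - s)) = (1 - σ + η * σ) • s'' + (((1 - σ + η * σ) * l + η * (1 - l)) * (1 - σ)) •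
          (z - s) := by
        rw [smul_add, smul_smul]
        congr 2
        field_simp
      rw [e1, e2]
      have e3 : (1 - σ) • (η • z) = η • (s'' - σ • y) + (η * (1 - σ)) • (z - s) := by
        rw [← hs, smul_smul, smul_smul, smul_sub, mul_comm (1 - σ) η]
        abel
      have e4 : (1 - σ) • (s'' + (l * (1 - σ)) • (z - s) +
          η • (z - (s'' + (l * (1 - σ)) • (z - s)))) =
          ((1 - σ) * (1 - η)) • s'' + ((1 - σ) * (1 - η) * (l * (1 - σ))) • (z - s) +
          (1 - σ) • (η • z) := by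
        simp only [smul_add, smul_sub, smul_smul, mul_sub, sub_mul, sub_smul, mul_one, one_mul]
        module
      rw [e4, e3]
      module
    rw [hl'] at hstep
    have hgain : 0 < η * (1 - l) / (1 - σ + η * σ) := by
      have : 0 < 1 - l := by linarith
      positivity
    have hle1 : l + η * (1 - l) / (1 - σ + η * σ) ≤ 1 := by
      have h1 : η * (1 - l) / (1 - σ + η * σ) ≤ 1 - l := by
        rw [div_le_iff₀ hden]
        have : 0 < 1 - l := by linarith
        have h2 : η ≤ 1 - σ + η * σ := by nlinarith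
        nlinarith
      linarith
    have := hmax ⟨⟨by linarith [hl.1], hle1⟩, hstep⟩
    linarith
  -- the segment from `z` to the moved point
  intro t ht
  have h2C : mv y z σ ∈ ball s r ∩ E := ⟨by
    rw [← hw1]
    exact hwball 1 ⟨zero_le_one, le_rfl⟩, hz''⟩
  have h1 : 0 ≤ 1 - t / σ := by
    rw [sub_nonneg, div_le_one hσ0]
    exact ht.2
  have h2 : 0 ≤ t / σ := div_nonneg ht.1 hσ0.le
  have h3 := hconv hzC h2C h1 h2 (by ring)
  have h4 : (1 - t / σ) • z + (t / σ) • mv y z σ = z + t • (y - z) := by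
    have : (t / σ) • mv y z σ = (t / σ) • z + t • (y - z) := by
      simp only [mv, smul_add, smul_smul]
      rw [div_mul_cancel₀ _ hσ0.ne']
    rw [this, sub_smul, one_smul]
    abel
  rw [h4] at h3
  exact h3.2

/-- The property propagates backwards along segments towards `y`. -/
lemma moves_back {E : Set V} (hE : IsClosed E) {y : V}
    (hQ : ∀ q ∈ E, (∀ r > 0, ¬ Convex ℝ (ball q r ∩ E)) → Moves E y q) {s : V} {κ : ℝ}
    (hκ1 : κ < 1) (hseg : ∀ t ∈ Icc 0 κ, mv y s t ∈ E) (hm : Moves E y (mv y s κ)) :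
    ∀ t ∈ Icc 0 κ, Moves E y (mv y s t) := by
  by_contra hcon
  push Not at hcon
  obtain ⟨t₁, ht₁, hn⟩ := hcon
  have hK : IsCompact {t | t ∈ Icc 0 κ ∧ ¬ Moves E y (mv y s t)} := by
    have : {t | t ∈ Icc 0 κ ∧ ¬ Moves E y (mv y s t)} =
      Icc 0 κ ∩ (mv y s) ⁻¹' {p | Moves E y p}ᶜ := rfl
    rw [this]
    exact isCompact_Icc.inter_right ((isOpen_moves E y).isClosed_compl.preimage (mv_continuous y s))
  obtain ⟨t₀, ⟨ht₀, hn₀⟩, hmax⟩ := hK.exists_isGreatest ⟨t₁, ht₁, hn⟩
  have hlt : t₀ < κ := by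
    rcases ht₀.2.eq_or_lt with h | h
    · rw [h] at hn₀
      exact absurd hm hn₀
    · exact h
  have hE₀ := hseg t₀ ht₀
  have hconv : ∃ r > 0, Convex ℝ (ball (mv y s t₀) r ∩ E) := by
    by_contra hc
    push Not at hc
    exact hn₀ (hQ _ hE₀ hc)
  obtain ⟨r, hr, hconv⟩ := hconv
  -- a later point in the ball
  have ht₀1 : 0 < 1 - t₀ := by linarith
  let u := min κ (t₀ + r / (2 * (dist y s + 1)))
  have hd := dist_nonneg (x := y) (y := s)
  have hu1 : t₀ < u := lt_min hlt (by
    have : 0 < r / (2 * (dist y s + 1)) := by positivity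
    linarith)
  have hu2 : u ≤ κ := min_le_left _ _
  have hu3 : u - t₀ ≤ r / (2 * (dist y s + 1)) := by
    have : u ≤ t₀ + r / (2 * (dist y s + 1)) := min_le_right _ _
    linarith
  let σ := (u - t₀) / (1 - t₀)
  have hσ0 : 0 < σ := div_pos (by linarith) ht₀1
  have hσ1 : σ < 1 := by
    rw [div_lt_one ht₀1]
    linarith
  have hσu : mv y (mv y s t₀) σ = mv y s u := by
    rw [mv_mv]
    congr 1
    simp only [σ]
    field_simp
    ring
  have hu : u ∈ Icc 0 κ := ⟨by linarith [ht₀.1], hu2⟩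
  have hmu : Moves E y (mv y s u) := by
    by_contra hc
    have := hmax ⟨hu, hc⟩
    linarith
  apply hn₀
  refine moves_of_convex_near hE hconv hσ0 hσ1 ?_ ?_ ?_
  · rw [hσu, dist_mv_same, abs_of_pos (by linarith)]
    rw [le_div_iff₀ (by linarith)] at hu3
    nlinarith
  · rw [hσu]
    exact hseg u hu
  · rw [hσu]
    exact hmu

/-- The flow toward `y` near a segment along which all points can be moved. -/
lemma flow {E : Set V} (hE : IsClosed E) {y x : V} {κ : ℝ} (hκ0 : 0 ≤ κ) (hκ1 : κ ≤ 1)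
    (hm : ∀ t ∈ Icc 0 κ, Moves E y (mv y x t)) :
    ∃ ε > 0, ∀ z ∈ E, dist z x < ε → ∀ t ∈ Icc 0 κ, mv y z t ∈ E := by
  -- uniform constants by compactness
  have huni : ∃ ε > 0, ∃ τ > 0, ∀ t ∈ Icc 0 κ, ∀ z ∈ E, dist z (mv y x t) < ε →
      ∀ u ∈ Icc (0 : ℝ) τ, mv y z u ∈ E := by
    refine (isCompact_Icc (a := (0 : ℝ)) (b := κ)).induction_on
      (p := fun K => ∃ ε > 0, ∃ τ > 0, ∀ t ∈ K, ∀ z ∈ E, dist z (mv y x t) < ε →
        ∀ u ∈ Icc (0 : ℝ) τ, mv y z u ∈ E) ?_ ?_ ?_ ?_
    · exact ⟨1, one_pos, 1, one_pos, by simp⟩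
    · rintro s t hst ⟨ε, hε, τ, hτ, h⟩
      exact ⟨ε, hε, τ, hτ, fun u hu => h u (hst hu)⟩
    · rintro s t ⟨ε, hε, τ, hτ, h⟩ ⟨ε', hε', τ', hτ', h'⟩
      refine ⟨min ε ε', lt_min hε hε', min τ τ', lt_min hτ hτ', ?_⟩
      rintro u (hu | hu) z hz hd v hv
      · exact h u hu z hz (hd.trans_le (min_le_left _ _)) v ⟨hv.1, hv.2.trans (min_le_left _ _)⟩
      · exact h' u hu z hz (hd.trans_le (min_le_right _ _)) v ⟨hv.1, hv.2.trans (min_le_right _ _)⟩
    · intro t ht
      obtain ⟨ε, hε, τ, hτ, h⟩ := hm t ht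
      refine ⟨{u | dist (mv y x u) (mv y x t) < ε / 2}, mem_nhdsWithin_of_mem_nhds ?_,
        ε / 2, by linarith, τ, hτ, fun u hu z hz hd v hv => h z hz ?_ v hv⟩
      · have : IsOpen {u | dist (mv y x u) (mv y x t) < ε / 2} := by
          apply isOpen_lt
          · exact (mv_continuous y x).dist continuous_const
          · exact continuous_const
        apply this.mem_nhds
        simp [hε]
      · have := dist_triangle z (mv y x u) (mv y x t)
        simp only [mem_ofPred_eq] at hu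
        linarith
  obtain ⟨ε, hε, τ, hτ, h⟩ := huni
  refine ⟨ε, hε, fun z hz hd => ?_⟩
  have hclosed : IsClosed ({t | mv y z t ∈ E} ∩ Icc 0 κ) :=
    (hE.preimage (mv_continuous y z)).inter isClosed_Icc
  refine hclosed.Icc_subset_of_forall_exists_gt (by
    simp only [mem_ofPred_eq, mv_zero]
    exact hz) ?_
  rintro t ⟨htE, ht⟩ u hu
  simp only [mem_ofPred_eq] at htE
  have ht1 : 0 < 1 - t := by linarith [ht.2]
  -- move on by a small step
  let v := min τ ((u - t) / (1 - t))
  have hut : 0 < u - t := sub_pos.2 hu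
  have hv0 : 0 < v := lt_min hτ (div_pos hut ht1)
  have hd' : dist (mv y z t) (mv y x t) < ε :=
    (dist_mv_mv_le y z x ht.1 (by linarith)).trans_lt hd
  have hstep := h t ⟨ht.1, ht.2.le⟩ _ htE hd' v ⟨hv0.le, min_le_left _ _⟩
  rw [mv_mv] at hstep
  refine ⟨t + v * (1 - t), hstep, ?_, ?_⟩
  · have := mul_pos hv0 ht1
    linarith
  · have : v ≤ (u - t) / (1 - t) := min_le_right _ _
    rw [le_div_iff₀ ht1] at this
    linarith

/-- The first point on the way to `y ∉ E` which does not have the property. -/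
lemma first_stop {E : Set V} (hE : IsClosed E) {y x : V} (hy : y ∉ E) (hx : x ∈ E) :
    ∃ κ, 0 ≤ κ ∧ κ < 1 ∧ (∀ t ∈ Icc 0 κ, mv y x t ∈ E) ∧
      (∀ t ∈ Ico 0 κ, Moves E y (mv y x t)) ∧ ¬ Moves E y (mv y x κ) := by
  have hstep : ∀ t, 0 ≤ t → t < 1 → mv y x t ∈ E → Moves E y (mv y x t) → ∀ u, t < u →
      ∃ t', t < t' ∧ t' ≤ u ∧ mv y x t' ∈ E := by
    intro t ht0 ht1 htE ⟨ε, hε, τ, hτ, h⟩ u hu
    have ht1' : 0 < 1 - t := by linarith
    let v := min τ ((u - t) / (1 - t))
    have hv0 : 0 < v := lt_min hτ (div_pos (by linarith) ht1')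
    have := h _ htE (by simpa using hε) v ⟨hv0.le, min_le_left _ _⟩
    change mv y (mv y x t) v ∈ E at this
    rw [mv_mv] at this
    refine ⟨t + v * (1 - t), ?_, ?_, this⟩
    · have := mul_pos hv0 ht1'
      linarith
    · have : v ≤ (u - t) / (1 - t) := min_le_right _ _
      rw [le_div_iff₀ ht1'] at this
      linarith
  have hclosed : ∀ κ : ℝ, IsClosed ({t | mv y x t ∈ E} ∩ Icc 0 κ) := fun κ =>
    (hE.preimage (mv_continuous y x)).inter isClosed_Icc
  have h0E : (0 : ℝ) ∈ {t | mv y x t ∈ E} := by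
    simp only [mem_ofPred_eq, mv_zero]
    exact hx
  -- the set of the bad parameters
  let T : Set ℝ := {t | t ∈ Icc (0 : ℝ) 1 ∧ mv y x t ∈ E ∧ ¬ Moves E y (mv y x t)}
  have hTc : IsCompact T := by
    have : T = Icc 0 1 ∩ ((mv y x) ⁻¹' E ∩ (mv y x) ⁻¹' {p | Moves E y p}ᶜ) := rfl
    rw [this]
    exact isCompact_Icc.inter_right ((hE.preimage (mv_continuous y x)).inter
      ((isOpen_moves E y).isClosed_compl.preimage (mv_continuous y x)))
  have hTne : T.Nonempty := by
    by_contra hemp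
    rw [not_nonempty_iff_eq_empty] at hemp
    have hall : Icc (0 : ℝ) 1 ⊆ {t | mv y x t ∈ E} := by
      refine (hclosed 1).Icc_subset_of_forall_exists_gt h0E ?_
      rintro t ⟨htE, ht⟩ u hu
      have hmv : Moves E y (mv y x t) := by
        by_contra hc
        have : t ∈ T := ⟨⟨ht.1, ht.2.le⟩, htE, hc⟩
        rw [hemp] at this
        exact this
      obtain ⟨t', h1, h2, h3⟩ := hstep t ht.1 ht.2 htE hmv u hu
      exact ⟨t', h3, h1, h2⟩
    have := hall (⟨zero_le_one, le_rfl⟩ : (1 : ℝ) ∈ Icc (0 : ℝ) 1)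
    simp only [mem_ofPred_eq, mv_one] at this
    exact hy this
  obtain ⟨κ, ⟨hκ, hκE, hκn⟩, hleast⟩ := hTc.exists_isLeast hTne
  have hgood : ∀ t ∈ Ico 0 κ, mv y x t ∈ E → Moves E y (mv y x t) := by
    intro t ht htE
    by_contra hc
    have := hleast ⟨⟨ht.1, by linarith [ht.2, hκ.2]⟩, htE, hc⟩
    linarith [ht.2]
  have hκ1 : κ < 1 := by
    rcases hκ.2.eq_or_lt with h | h
    · rw [h, mv_one] at hκE
      exact absurd hκE hy
    · exact h
  have hall : Icc (0 : ℝ) κ ⊆ {t | mv y x t ∈ E} := by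
    refine (hclosed κ).Icc_subset_of_forall_exists_gt h0E ?_
    rintro t ⟨htE, ht⟩ u hu
    obtain ⟨t', h1, h2, h3⟩ := hstep t ht.1 (by linarith [ht.2]) htE (hgood t ht htE) u hu
    exact ⟨t', h3, h1, h2⟩
  exact ⟨κ, hκ.1, hκ1, fun t ht => hall ht, fun t ht => hgood t ht (hall ⟨ht.1, ht.2.le⟩), hκn⟩

end Pool.Agent.R172
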