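import Mathlib

set_option autoImplicit false
set_option linter.unusedSectionVars false

/-!
# Points on the moment curve in three-dimensional space
-/

namespace Pool.Agent.R172.Moment3

open Set Polynomial

/-- the moment curve -/
def mc (t : ℝ) : Fin 3 → ℝ := ![t, t ^ 2, t ^ 3]

lemma mc_zero (t : ℝ) : mc t 0 = t := rfl
lemma mc_one (t : ℝ) : mc t 1 = t ^ 2 := rfl
lemma mc_two (t : ℝ) : mc t 2 = t ^ 3 := rfl

lemma mc_injective : Function.Injective mc := by
  intro s t h
  have := congrFun h 0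
  simpa [mc_zero] using this

/-- A nonzero cubic polynomial has at most three roots. -/
lemma cubic_roots {a b c e : ℝ} (Z : Finset ℝ)
    (hZ : ∀ t ∈ Z, a * t ^ 3 + b * t ^ 2 + c * t + e = 0)
    (hne : ¬ (a = 0 ∧ b = 0 ∧ c = 0 ∧ e = 0)) : Z.card ≤ 3 := by
  let p : ℝ[X] := C a * X ^ 3 + C b * X ^ 2 + C c * X + C e
  have hp : p ≠ 0 := by
    intro h
    apply hne
    have h3 : p.coeff 3 = a := by simp [p, coeff_X, coeff_C]
    have h2 : p.coeff 2 = b := by simp [p, coeff_X, coeff_C]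
    have h1 : p.coeff 1 = c := by simp [p, coeff_X, coeff_C]
    have h0 : p.coeff 0 = e := by simp [p, coeff_X, coeff_C]
    rw [h] at h3 h2 h1 h0
    simp only [coeff_zero] at h3 h2 h1 h0
    exact ⟨h3.symm, h2.symm, h1.symm, h0.symm⟩
  have hsub : Z.val ⊆ p.roots := by
    intro t ht
    rw [mem_roots hp, IsRoot.def]
    have := hZ t ht
    simp only [p, eval_add, eval_mul, eval_C, eval_pow, eval_X]
    exact this
  have := card_le_degree_of_subset_roots hsub
  exact this.trans natDegree_cubic_le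

/-- Alternating points give intersecting hulls. -/
lemma hull_meet {A B : Set (Fin 3 → ℝ)} {t₁ t₂ t₃ t₄ t₅ : ℝ} (h12 : t₁ < t₂) (h23 : t₂ < t₃)
    (h34 : t₃ < t₄) (h45 : t₄ < t₅) (m₁ : mc t₁ ∈ A) (m₂ : mc t₂ ∈ B) (m₃ : mc t₃ ∈ A)
    (m₄ : mc t₄ ∈ B) (m₅ : mc t₅ ∈ A) : (convexHull ℝ A ∩ convexHull ℝ B).Nonempty := by
  let A' : Set (Fin 3 → ℝ) := {mc t₁, mc t₃, mc t₅}
  let B' : Set (Fin 3 → ℝ) := {mc t₂, mc t₄}
  have hA' : A' ⊆ A := by
    rintro x (rfl | rfl | rfl)
    · exact m₁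
    · exact m₃
    · exact m₅
  have hB' : B' ⊆ B := by
    rintro x (rfl | rfl)
    · exact m₂
    · exact m₄
  suffices h : (convexHull ℝ A' ∩ convexHull ℝ B').Nonempty from
    h.mono (inter_subset_inter (convexHull_mono hA') (convexHull_mono hB'))
  by_contra hcon
  have hdisj : Disjoint (convexHull ℝ A') (convexHull ℝ B') := by
    rw [Set.disjoint_iff_inter_eq_empty]
    exact not_nonempty_iff_eq_empty.1 hcon
  have hfA : A'.Finite := by simp [A']
  have hfB : B'.Finite := by simp [B']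
  obtain ⟨f, u, v, hfu, huv, hfv⟩ := geometric_hahn_banach_compact_closed
    (convex_convexHull ℝ A') (Set.Finite.isCompact_convexHull (𝕜 := ℝ) hfA)
    (convex_convexHull ℝ B') (Set.Finite.isClosed_convexHull (𝕜 := ℝ) hfB) hdisj
  -- the cubic polynomial
  let a := f (Pi.single 2 1)
  let b := f (Pi.single 1 1)
  let c := f (Pi.single 0 1)
  have hf : ∀ t, f (mc t) = a * t ^ 3 + b * t ^ 2 + c * t := by
    intro t
    have h1 : mc t = t • (Pi.single 0 1 : Fin 3 → ℝ) + t ^ 2 • (Pi.single 1 1 : Fin 3 → ℝ) +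
        t ^ 3 • (Pi.single 2 1 : Fin 3 → ℝ) := by
      funext i
      fin_cases i <;> simp [mc]
    rw [h1]
    simp only [map_add, map_smul, smul_eq_mul, a, b, c]
    ring
  let g : ℝ → ℝ := fun t => a * t ^ 3 + b * t ^ 2 + c * t + (-u)
  have hg : Continuous g := by
    simp only [g]
    fun_prop
  have hgA : ∀ t, mc t ∈ A' → g t < 0 := by
    intro t ht
    have := hfu _ (subset_convexHull ℝ _ ht)
    rw [hf] at this
    simp only [g]
    linarith
  have hgB : ∀ t, mc t ∈ B' → 0 < g t := by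
    intro t ht
    have := hfv _ (subset_convexHull ℝ _ ht)
    rw [hf] at this
    simp only [g]
    linarith
  have g1 := hgA t₁ (by simp [A'])
  have g3 := hgA t₃ (by simp [A'])
  have g5 := hgA t₅ (by simp [A'])
  have g2 := hgB t₂ (by simp [B'])
  have g4 := hgB t₄ (by simp [B'])
  obtain ⟨r₁, hr₁, e₁⟩ := intermediate_value_Ioo h12.le hg.continuousOn ⟨g1, g2⟩
  obtain ⟨r₂, hr₂, e₂⟩ := intermediate_value_Ioo' h23.le hg.continuousOn ⟨g3, g2⟩
  obtain ⟨r₃, hr₃, e₃⟩ := intermediate_value_Ioo h34.le hg.continuousOn ⟨g3, g4⟩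
  obtain ⟨r₄, hr₄, e₄⟩ := intermediate_value_Ioo' h45.le hg.continuousOn ⟨g5, g4⟩
  have hlt1 : r₁ < r₂ := hr₁.2.trans hr₂.1
  have hlt2 : r₂ < r₃ := hr₂.2.trans hr₃.1
  have hlt3 : r₃ < r₄ := hr₃.2.trans hr₄.1
  have hcard : ({r₁, r₂, r₃, r₄} : Finset ℝ).card = 4 := by
    rw [Finset.card_insert_of_notMem, Finset.card_insert_of_notMem,
      Finset.card_insert_of_notMem, Finset.card_singleton]
    · simp only [Finset.mem_singleton]
      exact hlt3.ne
    · simp only [Finset.mem_insert, Finset.mem_singleton, not_or]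
      exact ⟨hlt2.ne, (hlt2.trans hlt3).ne⟩
    · simp only [Finset.mem_insert, Finset.mem_singleton, not_or]
      exact ⟨hlt1.ne, (hlt1.trans hlt2).ne, (hlt1.trans (hlt2.trans hlt3)).ne⟩
  have := cubic_roots (a := a) (b := b) (c := c) (e := -u) {r₁, r₂, r₃, r₄} (by
    intro t ht
    simp only [Finset.mem_insert, Finset.mem_singleton] at ht
    rcases ht with rfl | rfl | rfl | rfl
    · exact e₁
    · exact e₂
    · exact e₃
    · exact e₄) (by
    rintro ⟨h1, h2, h3, h4⟩
    simp only [g, h1, h2, h3, h4] at g1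
    simp at g1)
  omega

/-- There is an alternating chain of length `k` which starts in `A` and is greater than `m`. -/
def AltFrom : ℕ → Finset ℝ → Finset ℝ → ℝ → Prop
  | 0, _, _, _ => True
  | k + 1, A, B, m => ∃ a ∈ A, m < a ∧ AltFrom k B A a

lemma AltFrom.mono {k : ℕ} : ∀ {A B A' B' : Finset ℝ} {m : ℝ}, A ⊆ A' → B ⊆ B' →
    AltFrom k A B m → AltFrom k A' B' m := by
  induction k with
  | zero => intros; trivial
  | succ k ih =>
    rintro A B A' B' m hA hB ⟨a, ha, hm, h⟩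
    exact ⟨a, hA ha, hm, ih hB hA h⟩

/-- Separation by a polynomial of small degree. -/
lemma exists_poly (k : ℕ) : ∀ (A B : Finset ℝ) (m : ℝ), Disjoint A B → (∀ a ∈ A, m < a) →
    (¬ ∃ a ∈ A, AltFrom k B A a) → ∃ p : ℝ[X], p.natDegree ≤ k ∧ (∀ a ∈ A, 0 < p.eval a) ∧
      (∀ b ∈ B, p.eval b < 0) ∧ ∀ t ≤ m, p.eval t < 0 := by
  induction k with
  | zero =>
    intro A B m _ _ h
    have hA : A = ∅ := by
      rw [Finset.eq_empty_iff_forall_notMem]
      intro a ha
      exact h ⟨a, ha, trivial⟩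
    subst hA
    exact ⟨-1, by simp, by simp, by simp, by simp⟩
  | succ k ih =>
    intro A B m hdisj hm h
    rcases A.eq_empty_or_nonempty with rfl | hne
    · exact ⟨-1, by simp, by simp, by simp, by simp⟩
    · let a₀ := A.min' hne
      have ha₀ : a₀ ∈ A := A.min'_mem hne
      have hmin : ∀ a ∈ A, a₀ ≤ a := fun a ha => A.min'_le a ha
      let B' := B.filter (fun b => a₀ < b)
      obtain ⟨p, hpd, hpB, hpA, hpm⟩ := ih B' A a₀
        (Finset.disjoint_of_subset_left (Finset.filter_subset _ _) hdisj.symm)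
        (fun b hb => (Finset.mem_filter.1 hb).2) (by
          rintro ⟨b, hb, hab⟩
          apply h
          refine ⟨a₀, ha₀, b, (Finset.mem_filter.1 hb).1, (Finset.mem_filter.1 hb).2, ?_⟩
          exact hab.mono (Finset.Subset.refl _) (Finset.filter_subset _ _))
      -- the threshold
      let Z := insert m (B.filter (fun b => b < a₀))
      have hZne : Z.Nonempty := ⟨m, Finset.mem_insert_self _ _⟩
      have hZlt : Z.max' hZne < a₀ := by
        have := Z.max'_mem hZne
        rcases Finset.mem_insert.1 this with h' | h'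
        · rw [h']
          exact hm a₀ ha₀
        · exact (Finset.mem_filter.1 h').2
      let s := (Z.max' hZne + a₀) / 2
      have hs1 : s < a₀ := by simp only [s]; linarith
      have hs2 : ∀ z ∈ Z, z < s := by
        intro z hz
        have := Z.le_max' z hz
        simp only [s]
        linarith
      refine ⟨-(p * (X - C s)), ?_, ?_, ?_, ?_⟩
      · rw [natDegree_neg]
        refine (natDegree_mul_le).trans ?_
        rw [natDegree_X_sub_C]
        omega
      · intro a ha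
        have h1 := hpA a ha
        have h2 := hmin a ha
        simp only [eval_neg, eval_mul, eval_sub, eval_X, eval_C]
        nlinarith
      · intro b hb
        simp only [eval_neg, eval_mul, eval_sub, eval_X, eval_C]
        rcases lt_trichotomy b a₀ with hlt | heq | hgt
        · have h1 := hpm b hlt.le
          have h2 := hs2 b (Finset.mem_insert_of_mem (Finset.mem_filter.2 ⟨hb, hlt⟩))
          nlinarith
        · exfalso
          exact Finset.disjoint_left.1 hdisj ha₀ (heq ▸ hb)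
        · have h1 := hpB b (Finset.mem_filter.2 ⟨hb, hgt⟩)
          nlinarith
      · intro t ht
        have h2 := hs2 m (Finset.mem_insert_self _ _)
        have h1 := hpm t (by linarith)
        simp only [eval_neg, eval_mul, eval_sub, eval_X, eval_C]
        nlinarith

/-- If the hulls meet, then there is an alternating chain of length four. -/
lemma chain_of_hull_meet {A B : Finset ℝ} (hdisj : Disjoint A B)
    (h : (convexHull ℝ (mc '' (A : Set ℝ)) ∩ convexHull ℝ (mc '' (B : Set ℝ))).Nonempty) :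
    ∃ a ∈ A, AltFrom 3 B A a := by
  by_contra hcon
  obtain ⟨m, hm⟩ : ∃ m : ℝ, ∀ a ∈ A, m < a := by
    rcases A.eq_empty_or_nonempty with rfl | hne
    · exact ⟨0, by simp⟩
    · exact ⟨A.min' hne - 1, fun a ha => by
        have := A.min'_le a ha
        linarith⟩
  obtain ⟨p, hpd, hpA, hpB, -⟩ := exists_poly 3 A B m hdisj hm hcon
  let F : (Fin 3 → ℝ) → ℝ := fun x => p.coeff 0 + (p.coeff 1 * x 0 + p.coeff 2 * x 1 +
    p.coeff 3 * x 2)
  have hF : ∀ t, F (mc t) = p.eval t := by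
    intro t
    rw [eval_eq_sum_range' (n := 4) (by omega)]
    simp only [F, mc_zero, mc_one, mc_two, Finset.sum_range_succ, Finset.sum_range_zero]
    ring
  have hlin : IsLinearMap ℝ (fun x : Fin 3 → ℝ => p.coeff 1 * x 0 + p.coeff 2 * x 1 +
    p.coeff 3 * x 2) := by
    constructor
    · intro x y
      simp only [Pi.add_apply]
      ring
    · intro a x
      simp only [Pi.smul_apply, smul_eq_mul]
      ring
  have hA : convexHull ℝ (mc '' (A : Set ℝ)) ⊆ {x | - p.coeff 0 < p.coeff 1 * x 0 +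
      p.coeff 2 * x 1 + p.coeff 3 * x 2} := by
    refine convexHull_min ?_ (convex_halfSpace_gt hlin _)
    rintro _ ⟨a, ha, rfl⟩
    have h1 := hpA a ha
    rw [← hF] at h1
    simp only [F] at h1
    simp only [mem_ofPred_eq]
    linarith
  have hB : convexHull ℝ (mc '' (B : Set ℝ)) ⊆ {x | p.coeff 1 * x 0 +
      p.coeff 2 * x 1 + p.coeff 3 * x 2 < - p.coeff 0} := by
    refine convexHull_min ?_ (convex_halfSpace_lt hlin _)
    rintro _ ⟨b, hb, rfl⟩
    have h1 := hpB b hb
    rw [← hF] at h1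
    simp only [F] at h1
    simp only [mem_ofPred_eq]
    linarith
  obtain ⟨x, hxA, hxB⟩ := h
  have h1 := hA hxA
  have h2 := hB hxB
  simp only [mem_ofPred_eq] at h1 h2
  linarith

/-- If the hulls meet, then there is an alternating chain of length five. -/
lemma five_of_hull_meet {A B : Finset ℝ} (hdisj : Disjoint A B)
    (h : (convexHull ℝ (mc '' (A : Set ℝ)) ∩ convexHull ℝ (mc '' (B : Set ℝ))).Nonempty) :
    (∃ t₁ ∈ A, ∃ t₂ ∈ B, ∃ t₃ ∈ A, ∃ t₄ ∈ B, ∃ t₅ ∈ A,
      t₁ < t₂ ∧ t₂ < t₃ ∧ t₃ < t₄ ∧ t₄ < t₅) ∨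
    (∃ t₁ ∈ B, ∃ t₂ ∈ A, ∃ t₃ ∈ B, ∃ t₄ ∈ A, ∃ t₅ ∈ B,
      t₁ < t₂ ∧ t₂ < t₃ ∧ t₃ < t₄ ∧ t₄ < t₅) := by
  obtain ⟨a₁, ha₁, b₁, hb₁, l₁, a₂, ha₂, l₂, b₂, hb₂, l₃, -⟩ := chain_of_hull_meet hdisj h
  obtain ⟨b₁', hb₁', a₁', ha₁', l₁', b₂', hb₂', l₂', a₂', ha₂', l₃', -⟩ :=
    chain_of_hull_meet hdisj.symm (by rwa [inter_comm])
  rcases lt_trichotomy a₁ b₁' with hlt | heq | hgt
  · left
    exact ⟨a₁, ha₁, b₁', hb₁', a₁', ha₁', b₂', hb₂', a₂', ha₂', hlt, l₁', l₂', l₃'⟩
  · exfalso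
    exact Finset.disjoint_left.1 hdisj ha₁ (heq ▸ hb₁')
  · right
    exact ⟨b₁', hb₁', a₁, ha₁, b₁, hb₁, a₂, ha₂, b₂, hb₂, hgt, l₁, l₂, l₃⟩

end Pool.Agent.R172.Moment3
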