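import Mathlib

/-!
Analysis behind the theorem that every rotor of the regular triangular prism is a ball:
a continuous positively homogeneous function on `ℝ³` whose sum over every coplanar
`120°`-triple of unit vectors vanishes is linear.
-/

namespace Pool.Agent.R172.Rotor

open MeasureTheory Real Set
open scoped RealInnerProductSpace

/-- Euclidean three-space. -/
abbrev E3 := EuclideanSpace ℝ (Fin 3)

theorem lin1_aux (G : ℝ → ℝ) (h1 : G 1 = 0)
    (hG : ∀ x y, x^2 < 1 → x^2 + y^2 + x*y ≤ 3/4 → G x + G y + G (-x-y) = 0)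
    (B : ℝ) (hB : ∀ x, |x| ≤ 1 → |G x| ≤ B) : ∀ x, |x| ≤ 1 → |G x| ≤ B / 2 := by
  have hm : G (-1/2) = 0 := by
    have := hG (-1/2) (-1/2) (by norm_num) (by norm_num)
    norm_num at this
    rw [h1] at this
    have h2 : G (-1/2) = G (-(1/2)) := by norm_num
    linarith
  have h0 : G 0 = 0 := by
    have := hG 0 0 (by norm_num) (by norm_num)
    norm_num at this
    linarith
  have hp : G (1/2) = 0 := by
    have := hG (-1/2) (1/2) (by norm_num) (by norm_num)
    have e : (-(-1/2 : ℝ) - 1/2) = 0 := by norm_num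
    rw [e, hm, h0] at this
    linarith
  have small : ∀ x, |x| ≤ 1/2 → |G x| ≤ B / 2 := by
    intro x hx
    have hx2 : x^2 ≤ 1/4 := by
      have := abs_le.mp hx
      nlinarith [this.1, this.2]
    have := hG x x (by linarith) (by nlinarith)
    have hb := hB (-x-x) (by
      have e : -x - x = -(2 * x) := by ring
      rw [e, abs_neg, abs_mul]
      norm_num
      linarith)
    have e : G x = - G (-x-x) / 2 := by linarith
    rw [e, abs_div, abs_neg]
    norm_num
    linarith
  intro x hx
  rcases le_or_gt |x| (1/2) with h | h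
  · exact small x h
  · rcases le_or_gt 0 x with hx0 | hx0
    · rw [abs_of_nonneg hx0] at h hx
      have := hG (-1/2) x (by norm_num) (by nlinarith)
      rw [hm] at this
      have hs := small (-(-1/2) - x) (by rw [abs_le]; constructor <;> linarith)
      have e : G x = - G (-(-1/2) - x) := by linarith
      rw [e, abs_neg]; exact hs
    · rw [abs_of_neg hx0] at h hx
      have := hG (1/2) x (by norm_num) (by nlinarith)
      rw [hp] at this
      have hs := small (-(1/2) - x) (by rw [abs_le]; constructor <;> linarith)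
      have e : G x = - G (-(1/2) - x) := by linarith
      rw [e, abs_neg]; exact hs

/-- Bounded solutions of the restricted Cauchy equation on `[-1,1]` are linear. -/
theorem lin1 (F : ℝ → ℝ) (M : ℝ) (hM : ∀ x, |x| ≤ 1 → |F x| ≤ M)
    (hF : ∀ x y, x^2 < 1 → x^2 + y^2 + x*y ≤ 3/4 → F x + F y + F (-x-y) = 0) :
    ∀ x, |x| ≤ 1 → F x = F 1 * x := by
  set G : ℝ → ℝ := fun x => F x - F 1 * x with hGdef
  have h1 : G 1 = 0 := by simp [hGdef]
  have hG : ∀ x y, x^2 < 1 → x^2 + y^2 + x*y ≤ 3/4 → G x + G y + G (-x-y) = 0 := by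
    intro x y hx hxy
    have := hF x y hx hxy
    simp only [hGdef]
    linear_combination this
  have hbd : ∀ n : ℕ, ∀ x, |x| ≤ 1 → |G x| ≤ (2 * M) / 2 ^ n := by
    intro n
    induction n with
    | zero =>
      intro x hx
      have a := hM x hx
      have b := hM 1 (by norm_num)
      have c : |G x| ≤ |F x| + |F 1 * x| := abs_sub _ _
      rw [abs_mul] at c
      have d : |F 1| * |x| ≤ M * 1 := mul_le_mul b hx (abs_nonneg _) ((abs_nonneg _).trans b)
      simp only [pow_zero, div_one]
      linarith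
    | succ n ih =>
      intro x hx
      have := lin1_aux G h1 hG _ ih x hx
      rw [pow_succ, ← div_div]
      exact this
  intro x hx
  have hz : |G x| ≤ 0 := by
    have ht : Filter.Tendsto (fun n : ℕ => (2 * M) / 2 ^ n) Filter.atTop (nhds 0) := by
      have : Filter.Tendsto (fun n : ℕ => (2 * M) * (1/2 : ℝ) ^ n) Filter.atTop
          (nhds ((2 * M) * 0)) :=
        (tendsto_pow_atTop_nhds_zero_of_lt_one (by norm_num) (by norm_num)).const_mul _
      rw [mul_zero] at this
      refine this.congr (fun n => ?_)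
      rw [one_div, inv_pow, div_eq_mul_inv]
    exact ge_of_tendsto' ht (fun n => hbd n x hx)
  have : G x = 0 := abs_nonpos_iff.mp hz
  simp only [hGdef] at this
  linarith

/-- Rotation about the third axis. -/
noncomputable def rot (φ : ℝ) : E3 →ₗᵢ[ℝ] E3 where
  toFun x := !₂[cos φ * x 0 - sin φ * x 1, sin φ * x 0 + cos φ * x 1, x 2]
  map_add' := by
    intro x y; ext i; fin_cases i <;> simp <;> ring
  map_smul' := by
    intro c x; ext i; fin_cases i <;> simp <;> ring
  norm_map' := by
    intro x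
    simp only [EuclideanSpace.norm_eq, LinearMap.coe_mk, AddHom.coe_mk, Fin.sum_univ_three,
      Real.norm_eq_abs, sq_abs]
    congr 1
    have := Real.sin_sq_add_cos_sq φ
    simp
    linear_combination (x 0 ^ 2 + x 1 ^ 2) * this

@[simp] theorem rot_apply (φ : ℝ) (x : E3) :
    rot φ x = !₂[cos φ * x 0 - sin φ * x 1, sin φ * x 0 + cos φ * x 1, x 2] := rfl

theorem rot_two (φ : ℝ) (x : E3) : (rot φ x) 2 = x 2 := by simp

theorem rot_rot (φ ψ : ℝ) (x : E3) : rot φ (rot ψ x) = rot (φ + ψ) x := by
  ext i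
  fin_cases i <;> simp [Real.cos_add, Real.sin_add] <;> ring

theorem rot_periodic (x : E3) : Function.Periodic (fun φ => rot φ x) (2 * π) := by
  intro φ
  simp

theorem continuous_rot : Continuous (fun p : ℝ × E3 => rot p.1 p.2) := by
  simp only [rot_apply]
  refine (PiLp.continuous_toLp 2 _).comp (continuous_pi fun i => ?_)
  fin_cases i
  · simp; fun_prop
  · simp; fun_prop
  · simp; fun_prop


theorem exists_angle (a b : ℝ) : ∃ α : ℝ, a = √(a^2 + b^2) * cos α ∧ b = √(a^2 + b^2) * sin α := by
  refine ⟨Complex.arg ⟨a, b⟩, ?_, ?_⟩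
  · have := Complex.norm_mul_cos_arg ⟨a, b⟩
    rw [Complex.norm_eq_sqrt_sq_add_sq] at this
    simpa using this.symm
  · have := Complex.norm_mul_sin_arg ⟨a, b⟩
    rw [Complex.norm_eq_sqrt_sq_add_sq] at this
    simpa using this.symm

theorem exists_rot {x y : E3} (hn : ‖x‖ = ‖y‖) (h2 : x 2 = y 2) : ∃ ψ, rot ψ x = y := by
  have hs : x 0 ^ 2 + x 1 ^ 2 = y 0 ^ 2 + y 1 ^ 2 := by
    have : ‖x‖ ^ 2 = ‖y‖ ^ 2 := by rw [hn]
    simp only [EuclideanSpace.norm_sq_eq, Fin.sum_univ_three, Real.norm_eq_abs, sq_abs] at this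
    rw [h2] at this
    linarith
  obtain ⟨α, ha0, ha1⟩ := exists_angle (x 0) (x 1)
  obtain ⟨β, hb0, hb1⟩ := exists_angle (y 0) (y 1)
  rw [← hs] at hb0 hb1
  set ρ := √(x 0 ^ 2 + x 1 ^ 2) with hρ
  refine ⟨β - α, ?_⟩
  ext i
  have hsc := Real.sin_sq_add_cos_sq α
  fin_cases i
  · simp only [rot_apply, Fin.zero_eta, Fin.isValue, PiLp.toLp_apply, Matrix.cons_val_zero]
    rw [ha0, ha1, hb0, Real.cos_sub, Real.sin_sub]
    linear_combination ρ * cos β * hsc
  · simp only [rot_apply, Fin.mk_one, Fin.isValue, PiLp.toLp_apply, Matrix.cons_val_one,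
      Matrix.cons_val_zero]
    rw [ha0, ha1, hb1, Real.cos_sub, Real.sin_sub]
    linear_combination ρ * sin β * hsc
  · simp [h2]

/-- Integral of `G` over the circle through `x` about the third axis. -/
noncomputable def avg (G : E3 → ℝ) (x : E3) : ℝ := ∫ φ in (0:ℝ)..(2 * π), G (rot φ x)

theorem avg_rot (G : E3 → ℝ) (ψ : ℝ) (x : E3) : avg G (rot ψ x) = avg G x := by
  unfold avg
  simp_rw [rot_rot]
  rw [intervalIntegral.integral_comp_add_right (fun t => G (rot t x)) ψ]
  have hp : Function.Periodic (fun t => G (rot t x)) (2 * π) := (rot_periodic x).comp G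
  have := hp.intervalIntegral_add_eq ψ 0
  rw [zero_add] at this
  rw [zero_add, add_comm (2 * π) ψ, this]

theorem avg_congr (G : E3 → ℝ) {x y : E3} (hn : ‖x‖ = ‖y‖) (h2 : x 2 = y 2) :
    avg G x = avg G y := by
  obtain ⟨ψ, rfl⟩ := exists_rot hn h2
  rw [avg_rot]

/-- the third basis vector -/
noncomputable def e3 : E3 := !₂[0, 0, 1]

theorem rot_e3 (φ : ℝ) : rot φ e3 = e3 := by
  ext i; fin_cases i <;> simp [e3]

theorem norm_vec (a b c : ℝ) : ‖(!₂[a, b, c] : E3)‖ ^ 2 = a ^ 2 + b ^ 2 + c ^ 2 := by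
  simp [EuclideanSpace.norm_sq_eq, Fin.sum_univ_three, Real.norm_eq_abs, sq_abs]

theorem norm_e3 : ‖e3‖ = 1 := by
  have h := norm_vec 0 0 1
  have : ‖e3‖ ^ 2 = 1 := by unfold e3; rw [h]; norm_num
  nlinarith [norm_nonneg e3]

theorem inner_e3 (x : E3) : ⟪x, e3⟫ = x 2 := by
  simp [e3, PiLp.inner_apply, Fin.sum_univ_three]

/-- The hypotheses on `G` that we use. -/
structure Zonal (G : E3 → ℝ) : Prop where
  cont : Continuous G
  homog : ∀ t : ℝ, 0 ≤ t → ∀ x, G (t • x) = t * G x
  triple : ∀ u v : E3, ‖u‖ = 1 → ‖v‖ = 1 → ⟪u, v⟫ = -1/2 → G u + G v + G (-u - v) = 0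

theorem Zonal.comp {G : E3 → ℝ} (hG : Zonal G) (A : E3 ≃ₗᵢ[ℝ] E3) : Zonal (fun x => G (A x)) where
  cont := hG.cont.comp A.continuous
  homog := by
    intro t ht x
    simp only [map_smul]
    exact hG.homog t ht _
  triple := by
    intro u v hu hv huv
    have := hG.triple (A u) (A v) (by rw [A.norm_map, hu]) (by rw [A.norm_map, hv])
      (by rw [A.inner_map_map, huv])
    simpa using this

theorem continuous_comp_rot {G : E3 → ℝ} (hG : Continuous G) (x : E3) :
    Continuous (fun φ => G (rot φ x)) := by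
  refine hG.comp (g := G) (f := fun φ => rot φ x) ?_
  simp only [rot_apply]
  refine (PiLp.continuous_toLp 2 _).comp (continuous_pi fun i => ?_)
  fin_cases i
  · simp; fun_prop
  · simp; fun_prop
  · simp; fun_prop

theorem avg_eq {G : E3 → ℝ} (hG : Zonal G) (x : E3) :
    avg G x = 2 * π * G e3 * x 2 := by
  -- zonal profile
  set F : ℝ → ℝ := fun t => avg G !₂[√(1 - t^2), 0, t] with hF
  have hunit : ∀ t : ℝ, |t| ≤ 1 → ‖(!₂[√(1 - t^2), 0, t] : E3)‖ = 1 := by
    intro t ht
    have h1 : t ^ 2 ≤ 1 := by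
      have := abs_le.mp ht
      nlinarith [this.1, this.2]
    have h := norm_vec (√(1 - t^2)) 0 t
    rw [Real.sq_sqrt (by linarith)] at h
    have h' : ‖(!₂[√(1 - t^2), 0, t] : E3)‖ ^ 2 = 1 := by rw [h]; ring
    nlinarith [norm_nonneg (!₂[√(1 - t^2), 0, t] : E3)]
  have hle : ∀ v : E3, ‖v‖ = 1 → |v 2| ≤ 1 := by
    intro v hv
    have : ‖v‖ ^ 2 = 1 := by rw [hv]; norm_num
    simp only [EuclideanSpace.norm_sq_eq, Fin.sum_univ_three, Real.norm_eq_abs, sq_abs] at this
    rw [abs_le_one_iff_mul_self_le_one]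
    nlinarith [sq_nonneg (v 0), sq_nonneg (v 1)]
  have hprof : ∀ v : E3, ‖v‖ = 1 → avg G v = F (v 2) := by
    intro v hv
    refine avg_congr G ?_ ?_
    · rw [hv, hunit _ (hle v hv)]
    · simp
  obtain ⟨M, hM⟩ := (isCompact_sphere (0 : E3) 1).exists_bound_of_continuousOn hG.cont.continuousOn
  have hbound : ∀ t, |t| ≤ 1 → |F t| ≤ M * |2 * π - 0| := by
    intro t ht
    have := intervalIntegral.norm_integral_le_of_norm_le_const
      (a := (0:ℝ)) (b := 2 * π) (f := fun φ => G (rot φ !₂[√(1 - t^2), 0, t])) (C := M)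
      (fun φ _ => hM _ (by
        rw [mem_sphere_zero_iff_norm, LinearIsometry.norm_map, hunit t ht]))
    simpa [hF, avg] using this
  have hfe : ∀ s t, s^2 < 1 → s^2 + t^2 + s*t ≤ 3/4 → F s + F t + F (-s-t) = 0 := by
    intro s t hs hst
    set c := √(1 - s^2) with hc
    have hc2 : c ^ 2 = 1 - s^2 := Real.sq_sqrt (by linarith)
    have hcpos : 0 < c := Real.sqrt_pos.mpr (by linarith)
    set a := (-1/2 - s*t) / c with ha
    have hac : a * c = -1/2 - s*t := by rw [ha]; field_simp
    have hb : 0 ≤ 1 - t^2 - a^2 := by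
      have : 0 ≤ (1 - t^2 - a^2) * c^2 := by
        have e : (1 - t^2 - a^2) * c^2 = (1 - t^2) * (1 - s^2) - (a*c)^2 := by
          rw [mul_pow, hc2]; ring
        rw [e, hac]
        nlinarith
      exact nonneg_of_mul_nonneg_left this (by positivity)
    set b := √(1 - t^2 - a^2) with hbdef
    have hb2 : b ^ 2 = 1 - t^2 - a^2 := Real.sq_sqrt hb
    set u : E3 := !₂[c, 0, s] with hu
    set v : E3 := !₂[a, b, t] with hv
    have hun : ‖u‖ = 1 := by
      have h := norm_vec c 0 s
      have : ‖u‖ ^ 2 = 1 := by rw [hu, h, hc2]; ring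
      nlinarith [norm_nonneg u]
    have hvn : ‖v‖ = 1 := by
      have h := norm_vec a b t
      have : ‖v‖ ^ 2 = 1 := by rw [hv, h, hb2]; ring
      nlinarith [norm_nonneg v]
    have hin : ⟪u, v⟫ = -1/2 := by
      simp only [hu, hv, PiLp.inner_apply, Fin.sum_univ_three]
      simp
      linarith
    have hwn : ‖-u - v‖ = 1 := by
      have h1 : ‖-u - v‖ ^ 2 = 1 := by
        have : -u - v = -(u + v) := by abel
        rw [this, norm_neg, norm_add_sq_real, hun, hvn, hin]
        norm_num
      nlinarith [norm_nonneg (-u - v)]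
    have hsum : avg G u + avg G v + avg G (-u - v) = 0 := by
      unfold avg
      have i1 := (continuous_comp_rot hG.cont u).intervalIntegrable (μ := volume) 0 (2 * π)
      have i2 := (continuous_comp_rot hG.cont v).intervalIntegrable (μ := volume) 0 (2 * π)
      have i3 := (continuous_comp_rot hG.cont (-u - v)).intervalIntegrable (μ := volume) 0 (2 * π)
      rw [← intervalIntegral.integral_add i1 i2, ← intervalIntegral.integral_add (i1.add i2) i3]
      rw [intervalIntegral.integral_congr (g := fun _ => (0:ℝ))]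
      · simp
      · intro φ _
        have := hG.triple (rot φ u) (rot φ v) (by rw [LinearIsometry.norm_map, hun])
          (by rw [LinearIsometry.norm_map, hvn]) (by rw [LinearIsometry.inner_map_map, hin])
        simp only [map_sub, map_neg]
        exact this
    rw [hprof u hun, hprof v hvn, hprof _ hwn] at hsum
    have e1 : u 2 = s := by simp [hu]
    have e2 : v 2 = t := by simp [hv]
    have e3 : (-u - v) 2 = -s - t := by simp [hu, hv]
    rw [e1, e2, e3] at hsum
    exact hsum
  have hlin := lin1 F _ hbound hfe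
  have hF1 : F 1 = 2 * π * G e3 := by
    have : (!₂[√(1 - (1:ℝ)^2), 0, 1] : E3) = e3 := by
      ext i; fin_cases i <;> simp [e3]
    simp only [hF]
    rw [this]
    unfold avg
    simp only [rot_e3]
    rw [intervalIntegral.integral_const]
    simp
  have hG0 : G 0 = 0 := by
    have := hG.homog 0 le_rfl 0
    simpa using this
  rcases eq_or_ne x 0 with rfl | hx
  · unfold avg
    simp only [map_zero, hG0]
    simp
  · have hxn : 0 < ‖x‖ := norm_pos_iff.mpr hx
    set v : E3 := ‖x‖⁻¹ • x with hv
    have hvn : ‖v‖ = 1 := by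
      rw [hv, norm_smul, norm_inv, norm_norm, inv_mul_cancel₀ hxn.ne']
    have hxv : x = ‖x‖ • v := by
      rw [hv, smul_smul, mul_inv_cancel₀ hxn.ne', one_smul]
    have h1 : avg G x = ‖x‖ * avg G v := by
      conv_lhs => rw [hxv]
      unfold avg
      rw [← intervalIntegral.integral_const_mul]
      refine intervalIntegral.integral_congr (fun φ _ => ?_)
      simp only [map_smul]
      exact hG.homog _ hxn.le _
    have h2 : x 2 = ‖x‖ * v 2 := by
      conv_lhs => rw [hxv]
      simp
    rw [h1, h2, hprof v hvn, hlin _ (hle v hvn), hF1]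
    ring


/-- The unit ball. -/
abbrev B : Set E3 := Metric.closedBall 0 1

/-- Second moment of the ball. -/
noncomputable def kap : ℝ := ∫ x in B, x 2 * x 2

theorem setIntegral_isometry (A : E3 ≃ₗᵢ[ℝ] E3) (f : E3 → ℝ) :
    ∫ x in B, f (A x) = ∫ x in B, f x := by
  have h := (A.measurePreserving).setIntegral_preimage_emb
    A.toHomeomorph.measurableEmbedding f B
  have hpre : (A : E3 → E3) ⁻¹' B = B := by
    ext x
    simp [B]
  rw [hpre] at h
  exact h

theorem integral_ball {G : E3 → ℝ} (hG : Zonal G) :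
    ∫ x in B, G x * x 2 = kap * G e3 := by
  have key : ∀ φ : ℝ, ∫ x in B, G (rot φ x) * x 2 = ∫ x in B, G x * x 2 := by
    intro φ
    have := setIntegral_isometry ((rot φ).toLinearIsometryEquiv rfl) (fun x => G x * x 2)
    rw [← this]
    refine setIntegral_congr_fun Metric.isClosed_closedBall.measurableSet (fun x _ => ?_)
    simp only [LinearIsometry.toLinearIsometryEquiv_apply, rot_two]
  have swap : ∫ φ in (0:ℝ)..(2 * π), ∫ x in B, G (rot φ x) * x 2
      = ∫ x in B, ∫ φ in (0:ℝ)..(2 * π), G (rot φ x) * x 2 := by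
    refine intervalIntegral_integral_swap ?_
    rw [Measure.prod_restrict]
    have hc : Continuous (Function.uncurry fun (φ : ℝ) (x : E3) => G (rot φ x) * x 2) := by
      refine Continuous.mul (hG.cont.comp continuous_rot) ?_
      fun_prop
    have : IntegrableOn (Function.uncurry fun (φ : ℝ) (x : E3) => G (rot φ x) * x 2)
        (Set.uIcc 0 (2 * π) ×ˢ B) (volume.prod volume) :=
      hc.continuousOn.integrableOn_compact (isCompact_uIcc.prod (isCompact_closedBall _ _))
    exact this.mono_set (Set.prod_mono Set.uIoc_subset_uIcc le_rfl)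
  simp_rw [key] at swap
  rw [intervalIntegral.integral_const] at swap
  have h2 : ∀ x : E3, ∫ φ in (0:ℝ)..(2 * π), G (rot φ x) * x 2 = (2 * π * G e3) * (x 2 * x 2) := by
    intro x
    rw [intervalIntegral.integral_mul_const]
    have := avg_eq hG x
    unfold avg at this
    rw [this]
    ring
  simp_rw [h2] at swap
  rw [integral_const_mul] at swap
  have hpi : (2 * π : ℝ) ≠ 0 := by positivity
  simp only [sub_zero, smul_eq_mul] at swap
  have : (2 * π) * (∫ x in B, G x * x 2) = (2 * π) * (kap * G e3) := by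
    rw [swap]; unfold kap; ring
  exact mul_left_cancel₀ hpi this

theorem kap_pos : 0 < kap := by
  unfold kap
  have hc : Continuous (fun x : E3 => x 2 * x 2) := by fun_prop
  have hi : IntegrableOn (fun x : E3 => x 2 * x 2) B volume :=
    hc.continuousOn.integrableOn_compact (isCompact_closedBall _ _)
  rw [setIntegral_pos_iff_support_of_nonneg_ae (Filter.Eventually.of_forall fun x => mul_self_nonneg _) hi]
  have hsub : Metric.ball ((1/2 : ℝ) • e3) (1/4) ⊆
      Function.support (fun x : E3 => x 2 * x 2) ∩ B := by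
    intro x hx
    rw [Metric.mem_ball, dist_eq_norm] at hx
    have hn := norm_e3
    constructor
    · rw [Function.mem_support]
      intro h0
      have hx2 : x 2 = 0 := by simpa using h0
      have h1 : |⟪x - (1/2 : ℝ) • e3, e3⟫| ≤ ‖x - (1/2 : ℝ) • e3‖ * ‖e3‖ :=
        abs_real_inner_le_norm _ _
      rw [hn, mul_one, inner_sub_left, inner_e3, real_inner_smul_left, real_inner_self_eq_norm_sq,
        hn, hx2] at h1
      norm_num at h1
      linarith
    · simp only [B, Metric.mem_closedBall, dist_zero_right]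
      have h1 : ‖x‖ ≤ ‖x - (1/2 : ℝ) • e3‖ + ‖(1/2 : ℝ) • e3‖ := by
        have := norm_add_le (x - (1/2 : ℝ) • e3) ((1/2 : ℝ) • e3)
        rwa [sub_add_cancel] at this
      rw [norm_smul, hn] at h1
      norm_num at h1
      linarith
  exact lt_of_lt_of_le (Metric.measure_ball_pos _ _ (by norm_num)) (measure_mono hsub)

theorem integral_ball_dir {G : E3 → ℝ} (hG : Zonal G) {e : E3} (he : ‖e‖ = 1) :
    ∫ x in B, G x * ⟪x, e⟫ = kap * G e := by
  set A : E3 ≃ₗᵢ[ℝ] E3 := (ℝ ∙ (e3 - e))ᗮ.reflection with hA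
  have hAe : A e3 = e := Submodule.reflection_sub (by rw [norm_e3, he])
  have h1 := integral_ball (hG.comp A)
  rw [hAe] at h1
  rw [← h1, ← setIntegral_isometry A]
  refine setIntegral_congr_fun Metric.isClosed_closedBall.measurableSet (fun x _ => ?_)
  simp only
  rw [← hAe, A.inner_map_map, inner_e3]

/-- A continuous positively homogeneous function with vanishing sums over coplanar
`120°`-triples is linear. -/
theorem zonal_linear {G : E3 → ℝ} (hG : Zonal G) : ∃ a : E3, ∀ x, G x = ⟪a, x⟫ := by
  refine ⟨kap⁻¹ • ∫ x in B, G x • x, ?_⟩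
  have hi : Integrable (fun x : E3 => G x • x) (volume.restrict B) := by
    have hc : Continuous (fun x : E3 => G x • x) := hG.cont.smul continuous_id
    exact hc.continuousOn.integrableOn_compact (isCompact_closedBall _ _)
  have hunit : ∀ e : E3, ‖e‖ = 1 → G e = ⟪kap⁻¹ • ∫ x in B, G x • x, e⟫ := by
    intro e he
    have h := integral_ball_dir hG he
    have h2 : ⟪∫ x in B, G x • x, e⟫ = ∫ x in B, G x * ⟪x, e⟫ := by
      rw [real_inner_comm, ← integral_inner hi]
      refine integral_congr_ae (Filter.Eventually.of_forall fun x => ?_)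
      simp only [real_inner_smul_right, real_inner_comm]
    rw [real_inner_smul_left, h2, h]
    have := kap_pos
    field_simp
  intro x
  rcases eq_or_ne x 0 with rfl | hx
  · have := hG.homog 0 le_rfl 0
    rw [inner_zero_right]
    simpa using this
  · have hxn : 0 < ‖x‖ := norm_pos_iff.mpr hx
    have hxv : x = ‖x‖ • (‖x‖⁻¹ • x) := by
      rw [smul_smul, mul_inv_cancel₀ hxn.ne', one_smul]
    have hvn : ‖‖x‖⁻¹ • x‖ = 1 := by
      rw [norm_smul, norm_inv, norm_norm, inv_mul_cancel₀ hxn.ne']
    conv_lhs => rw [hxv]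
    rw [hG.homog _ hxn.le, hunit _ hvn, ← real_inner_smul_right, ← hxv]

end Pool.Agent.R172.Rotor
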