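import Mathlib
import Pool.Agent.R172.Conn

set_option autoImplicit false
set_option linter.unusedSectionVars false

/-!
# Variations of shortest paths toward a point
-/

namespace Pool.Agent.R172

open Set Metric

variable {V : Type*} [NormedAddCommGroup V] [InnerProductSpace ℝ V]

/-- the basic identity for radial scaling -/
lemma scale_identity (x x' : V) (α α' : ℝ) :
    ‖α • x - α' • x'‖ ^ 2 = α * α' * ‖x - x'‖ ^ 2 +
      (α - α') * (α * ‖x‖ ^ 2 - α' * ‖x'‖ ^ 2) := by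
  rw [norm_sub_sq_real, norm_sub_sq_real, norm_smul, norm_smul, inner_smul_left, inner_smul_right]
  simp only [Real.norm_eq_abs, mul_pow, sq_abs, RCLike.conj_to_real]
  ring

/-- Half of the tent variation. -/
lemma half_tent {E : Set V} {y : V} {g : ℝ → V} {L h τ : ℝ} (hL : 0 < L) (hh : 0 < h)
    (hτ : 0 < τ) (hτ1 : τ ≤ 1) (hg : ∀ s ∈ Icc 0 h, ∀ t ∈ Icc 0 h, s ≤ t →
      dist (g s) (g t) ≤ L * (t - s))
    (hE : ∀ t ∈ Icc 0 h, ∀ τ' ∈ Icc 0 τ, g t + τ' • (y - g t) ∈ E) :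
    Conn E (g 0) (g h + τ • (y - g h)) (L / 2 * (h + h * (1 - τ + τ ^ 2 / 3)) +
      τ / (2 * L * h) * (‖g 0 - y‖ ^ 2 - (1 - τ) * ‖g h - y‖ ^ 2)) := by
  have hgc : ContinuousOn g (Icc 0 h) := by
    have : LipschitzOnWith (Real.toNNReal L) g (Icc 0 h) := by
      refine LipschitzOnWith.of_dist_le_mul fun s hs t ht => ?_
      rw [Real.coe_toNNReal _ hL.le]
      rcases le_total s t with h | h
      · rw [Real.dist_eq, abs_of_nonpos (by linarith)]
        have := hg s hs t ht h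
        linarith
      · rw [Real.dist_eq, abs_of_nonneg (by linarith), dist_comm]
        exact hg t ht s hs h
    exact this.continuousOn
  let β : ℝ → V := fun t => g t + (τ * t / h) • (y - g t)
  let α : ℝ → ℝ := fun t => 1 - τ * t / h
  let f : ℝ → ℝ := fun t => ‖g t - y‖ ^ 2
  let θ : ℝ → ℝ := fun t => L / 2 * (t + (t - τ * t ^ 2 / h + τ ^ 2 * t ^ 3 / (3 * h ^ 2))) -
    τ / (2 * L * h) * (α t * f t)
  have hα : ∀ t ∈ Icc 0 h, 0 ≤ α t := by
    intro t ht
    simp only [α]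
    rw [sub_nonneg, div_le_one hh]
    nlinarith [ht.1, ht.2]
  have hθc : ContinuousOn θ (Icc 0 h) := by
    simp only [θ, α, f]
    fun_prop
  have hβE : ∀ t ∈ Icc 0 h, β t ∈ E := by
    intro t ht
    refine hE t ht _ ⟨?_, ?_⟩
    · have := ht.1
      positivity
    · rw [div_le_iff₀ hh]
      nlinarith [ht.1, ht.2]
  have hmain : ∀ s ∈ Icc 0 h, ∀ t ∈ Icc 0 h, s ≤ t → dist (β s) (β t) ≤ θ t - θ s := by
    intro s hs t ht hst
    rcases hst.eq_or_lt with rfl | hlt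
    · simp
    have hts : 0 < t - s := by linarith
    have hβα : ∀ u, β u - y = α u • (g u - y) := by
      intro u
      simp only [β, α, sub_smul, smul_sub, one_smul]
      abel
    have hX : dist (β s) (β t) ^ 2 = α t * α s * ‖g t - g s‖ ^ 2 +
        (α t - α s) * (α t * f t - α s * f s) := by
      have : β t - β s = α t • (g t - y) - α s • (g s - y) := by
        rw [← hβα, ← hβα]
        abel
      rw [dist_comm, dist_eq_norm, this, scale_identity]
      congr 3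
      rw [sub_sub_sub_cancel_right]
    have hLip : ‖g t - g s‖ ^ 2 ≤ L ^ 2 * (t - s) ^ 2 := by
      have h1 := hg s hs t ht hst
      rw [dist_comm, dist_eq_norm] at h1
      have := norm_nonneg (g t - g s)
      nlinarith
    have hαα := mul_nonneg (hα t ht) (hα s hs)
    have hdiff : α t - α s = - (τ * (t - s) / h) := by
      simp only [α]
      ring
    -- the key estimate
    have hkey : (L * (t - s)) ^ 2 + dist (β s) (β t) ^ 2 ≤ 2 * (L * (t - s)) * (θ t - θ s) := by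
      have e1 : 2 * (L * (t - s)) * (θ t - θ s) = (L * (t - s)) ^ 2 +
          L ^ 2 * (t - s) ^ 2 * (α t * α s) + L ^ 2 * (t - s) ^ 4 * (τ ^ 2 / (3 * h ^ 2)) +
          (α t - α s) * (α t * f t - α s * f s) := by
        rw [hdiff]
        simp only [θ]
        have e2 : α t * α s = (1 - τ * t / h) * (1 - τ * s / h) := rfl
        rw [e2]
        field_simp
        ring
      rw [e1, hX]
      have h1 : α t * α s * ‖g t - g s‖ ^ 2 ≤ L ^ 2 * (t - s) ^ 2 * (α t * α s) := by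
        calc α t * α s * ‖g t - g s‖ ^ 2 ≤ α t * α s * (L ^ 2 * (t - s) ^ 2) :=
              mul_le_mul_of_nonneg_left hLip hαα
          _ = _ := by ring
      have h2 : 0 ≤ L ^ 2 * (t - s) ^ 4 * (τ ^ 2 / (3 * h ^ 2)) := by positivity
      linarith
    have hpos : 0 < L * (t - s) := mul_pos hL hts
    have h3 : 2 * (L * (t - s)) * dist (β s) (β t) ≤ 2 * (L * (t - s)) * (θ t - θ s) := by
      nlinarith [sq_nonneg (L * (t - s) - dist (β s) (β t))]
    exact le_of_mul_le_mul_left h3 (by linarith)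
  have hC := Conn.of_ctrl hh.le β θ hθc hβE hmain
  have e0 : β 0 = g 0 := by simp [β]
  have e1 : β h = g h + τ • (y - g h) := by
    simp only [β]
    rw [mul_div_assoc, div_self hh.ne', mul_one]
  rw [e0, e1] at hC
  convert hC using 1
  simp only [θ, α, f]
  field_simp
  ring

/-- The second variation inequality where the path can be moved toward `y`. -/
lemma second_variation {E : Set V} {y : V} {γ : ℝ → V} {L m h τ₀ : ℝ} (hL : 0 < L) (hh : 0 < h)
    (hτ₀ : 0 < τ₀) (hγ : ∀ s ∈ Icc (m - h) (m + h), ∀ t ∈ Icc (m - h) (m + h),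
      dist (γ s) (γ t) ≤ L * |t - s|)
    (hE : ∀ t ∈ Icc (m - h) (m + h), ∀ τ ∈ Icc 0 τ₀, γ t + τ • (y - γ t) ∈ E)
    (hmin : ∀ l, Conn E (γ (m - h)) (γ (m + h)) l → L * (2 * h) ≤ l) :
    2 * L ^ 2 * h ^ 2 ≤ ‖γ (m + h) - y‖ ^ 2 + ‖γ (m - h) - y‖ ^ 2 - 2 * ‖γ m - y‖ ^ 2 := by
  have key : ∀ τ, 0 < τ → τ ≤ min τ₀ 1 →
      2 * L ^ 2 * h ^ 2 * (1 - τ / 3) ≤ ‖γ (m + h) - y‖ ^ 2 + ‖γ (m - h) - y‖ ^ 2
        - 2 * (1 - τ) * ‖γ m - y‖ ^ 2 := by
    intro τ hτ hτm
    have hτ₁ : τ ≤ τ₀ := hτm.trans (min_le_left _ _)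
    have hτ₂ : τ ≤ 1 := hτm.trans (min_le_right _ _)
    have C1 := half_tent (E := E) (y := y) (g := fun t => γ (m - h + t)) (L := L) (h := h) (τ := τ)
      hL hh hτ hτ₂ (fun s hs t ht hst => by
        have := hγ (m - h + s) ⟨by linarith [hs.1], by linarith [hs.2]⟩ (m - h + t)
          ⟨by linarith [ht.1], by linarith [ht.2]⟩
        rwa [show m - h + t - (m - h + s) = t - s by ring, abs_of_nonneg (by linarith)] at this)
      (fun t ht τ' hτ' => hE _ ⟨by linarith [ht.1], by linarith [ht.2]⟩ _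
        ⟨hτ'.1, hτ'.2.trans hτ₁⟩)
    have C2 := half_tent (E := E) (y := y) (g := fun t => γ (m + h - t)) (L := L) (h := h) (τ := τ)
      hL hh hτ hτ₂ (fun s hs t ht hst => by
        have := hγ (m + h - s) ⟨by linarith [hs.2], by linarith [hs.1]⟩ (m + h - t)
          ⟨by linarith [ht.2], by linarith [ht.1]⟩
        rwa [show m + h - t - (m + h - s) = s - t by ring, abs_of_nonpos (by linarith),
          neg_sub] at this)
      (fun t ht τ' hτ' => hE _ ⟨by linarith [ht.2], by linarith [ht.1]⟩ _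
        ⟨hτ'.1, hτ'.2.trans hτ₁⟩)
    simp only [add_zero, sub_zero, sub_add_cancel, add_sub_cancel_right] at C1 C2
    have h1 := hmin _ (C1.trans C2.symm)
    set A := ‖γ (m - h) - y‖ ^ 2
    set B := ‖γ (m + h) - y‖ ^ 2
    set C := ‖γ m - y‖ ^ 2
    have h2 : 0 ≤ τ / (2 * L * h) * (A + B - 2 * (1 - τ) * C) - L * h * τ + L * h * τ ^ 2 / 3 := by
      have e : L / 2 * (h + h * (1 - τ + τ ^ 2 / 3)) + τ / (2 * L * h) * (A - (1 - τ) * C) +
        (L / 2 * (h + h * (1 - τ + τ ^ 2 / 3)) + τ / (2 * L * h) * (B - (1 - τ) * C)) -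
          L * (2 * h) =
        τ / (2 * L * h) * (A + B - 2 * (1 - τ) * C) - L * h * τ + L * h * τ ^ 2 / 3 := by
        ring
      linarith
    have h3 : 0 ≤ (2 * L * h / τ) * (τ / (2 * L * h) * (A + B - 2 * (1 - τ) * C) -
        L * h * τ + L * h * τ ^ 2 / 3) := mul_nonneg (by positivity) h2
    have e3 : (2 * L * h / τ) * (τ / (2 * L * h) * (A + B - 2 * (1 - τ) * C) -
        L * h * τ + L * h * τ ^ 2 / 3) = A + B - 2 * (1 - τ) * C -
          2 * L ^ 2 * h ^ 2 * (1 - τ / 3) := by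
      field_simp
      ring
    rw [e3] at h3
    linarith
  -- let `τ` tend to zero
  by_contra hcon
  push Not at hcon
  set A := ‖γ (m - h) - y‖ ^ 2
  set B := ‖γ (m + h) - y‖ ^ 2
  set C := ‖γ m - y‖ ^ 2 with hC
  have hC0 : 0 ≤ C := by positivity
  set G := 2 * L ^ 2 * h ^ 2 - (B + A - 2 * C) with hG
  have hGpos : 0 < G := by linarith
  set Wd := 2 * C + 2 * L ^ 2 * h ^ 2 / 3 + 1 with hW
  have hWpos : 0 < Wd := by positivity
  have hτ : 0 < min (min τ₀ 1) (G / (2 * Wd)) := lt_min (lt_min hτ₀ one_pos) (by positivity)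
  have h1 := key _ hτ (min_le_left _ _)
  set τ := min (min τ₀ 1) (G / (2 * Wd))
  have h2 : τ ≤ G / (2 * Wd) := min_le_right _ _
  rw [le_div_iff₀ (by positivity)] at h2
  nlinarith

/-- The second variation identity where the set is locally convex. -/
lemma second_variation_convex {y p q w : V} {c : ℝ} (h1 : dist p w ≤ c) (h2 : dist w q ≤ c)
    (h3 : 2 * c ≤ dist p q) :
    2 * c ^ 2 ≤ ‖q - y‖ ^ 2 + ‖p - y‖ ^ 2 - 2 * ‖w - y‖ ^ 2 := by
  have hc : 0 ≤ c := dist_nonneg.trans h1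
  have e1 : ‖p - w‖ ^ 2 ≤ c ^ 2 := by
    rw [dist_eq_norm] at h1
    exact pow_le_pow_left₀ (norm_nonneg _) h1 2
  have e2 : ‖w - q‖ ^ 2 ≤ c ^ 2 := by
    rw [dist_eq_norm] at h2
    exact pow_le_pow_left₀ (norm_nonneg _) h2 2
  have e3 : (2 * c) ^ 2 ≤ ‖p - q‖ ^ 2 := by
    rw [dist_eq_norm] at h3
    exact pow_le_pow_left₀ (by linarith) h3 2
  -- the defect from the midpoint vanishes
  have par := parallelogram_law_with_norm ℝ (p - w) (w - q)
  have hsum : p - w + (w - q) = p - q := by abel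
  rw [hsum] at par
  have e4 : ‖p - w - (w - q)‖ ^ 2 ≤ 0 := by nlinarith
  have e5 : p - w - (w - q) = 0 := by
    have : ‖p - w - (w - q)‖ = 0 := by
      have := norm_nonneg (p - w - (w - q))
      nlinarith
    exact norm_eq_zero.1 this
  have hw : (2 : ℝ) • (w - y) = (p - y) + (q - y) := by
    have : p + q = w + w := by
      have h := sub_eq_zero.1 e5
      calc p + q = (p - w) + w + q := by abel
        _ = (w - q) + w + q := by rw [h]
        _ = w + w := by abel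
    rw [two_smul]
    calc w - y + (w - y) = (w + w) - y - y := by abel
      _ = (p + q) - y - y := by rw [this]
      _ = _ := by abel
  have par2 := parallelogram_law_with_norm ℝ (p - y) (q - y)
  rw [← hw, norm_smul, Real.norm_eq_abs, abs_of_pos (by norm_num : (0 : ℝ) < 2)] at par2
  have e6 : p - y - (q - y) = p - q := by abel
  rw [e6] at par2
  nlinarith

/-- A continuous function which is locally midpoint convex lies below its chord. -/
lemma chord_of_local_midpoint {φ : ℝ → ℝ} (hc : ContinuousOn φ (Icc 0 1))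
    (hloc : ∀ t ∈ Ioo (0 : ℝ) 1, ∃ δ > 0, ∀ h, 0 < h → h < δ →
      2 * φ t ≤ φ (t + h) + φ (t - h)) :
    ∀ t ∈ Icc (0 : ℝ) 1, φ t ≤ (1 - t) * φ 0 + t * φ 1 := by
  by_contra hcon
  push Not at hcon
  obtain ⟨t₁, ht₁, hlt⟩ := hcon
  let ψ : ℝ → ℝ := fun t => φ t - ((1 - t) * φ 0 + t * φ 1)
  have hψc : ContinuousOn ψ (Icc 0 1) := by
    simp only [ψ]
    fun_prop
  obtain ⟨t₂, ht₂, hmax⟩ := isCompact_Icc.exists_isMaxOn ⟨t₁, ht₁⟩ hψc
  have hpos : 0 < ψ t₂ := by
    have : ψ t₁ ≤ ψ t₂ := hmax ht₁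
    have h2 : 0 < ψ t₁ := by simp only [ψ]; linarith
    linarith
  -- the smallest maximum point
  have hK : IsCompact {t | t ∈ Icc (0 : ℝ) 1 ∧ ψ t₂ ≤ ψ t} := by
    have : {t | t ∈ Icc (0 : ℝ) 1 ∧ ψ t₂ ≤ ψ t} = Icc 0 1 ∩ ψ ⁻¹' (Ici (ψ t₂)) := rfl
    rw [this]
    exact isCompact_Icc.of_isClosed_subset (hψc.preimage_isClosed_of_isClosed isClosed_Icc
      isClosed_Ici) inter_subset_left
  obtain ⟨t₃, ⟨ht₃, hge⟩, hleast⟩ := hK.exists_isLeast ⟨t₂, ht₂, le_rfl⟩
  have h0 : ψ 0 = 0 := by simp [ψ]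
  have h1 : ψ 1 = 0 := by simp [ψ]
  have ht₃0 : t₃ ≠ 0 := by
    rintro rfl
    linarith
  have ht₃1 : t₃ ≠ 1 := by
    rintro rfl
    linarith
  have hmem : t₃ ∈ Ioo (0 : ℝ) 1 := ⟨lt_of_le_of_ne ht₃.1 (Ne.symm ht₃0), lt_of_le_of_ne ht₃.2 ht₃1⟩
  obtain ⟨δ, hδ, hφ⟩ := hloc t₃ hmem
  let h := min (δ / 2) (min (t₃ / 2) ((1 - t₃) / 2))
  have hh : 0 < h := lt_min (by linarith) (lt_min (by linarith [hmem.1]) (by linarith [hmem.2]))
  have hh1 : h ≤ δ / 2 := min_le_left _ _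
  have hh2 : h ≤ t₃ / 2 := (min_le_right _ _).trans (min_le_left _ _)
  have hh3 : h ≤ (1 - t₃) / 2 := (min_le_right _ _).trans (min_le_right _ _)
  have hmid := hφ h hh (by linarith)
  have hp : t₃ + h ∈ Icc (0 : ℝ) 1 := ⟨by linarith [hmem.1], by linarith [hmem.1, hmem.2]⟩
  have hm : t₃ - h ∈ Icc (0 : ℝ) 1 := ⟨by linarith [hmem.1], by linarith [hmem.1, hmem.2]⟩
  have k1 : ψ (t₃ + h) ≤ ψ t₂ := hmax hp
  have k2 : ψ (t₃ - h) < ψ t₂ := by
    by_contra hc'
    push Not at hc'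
    have := hleast ⟨hm, hc'⟩
    linarith
  have k3 : 2 * ψ t₃ ≤ ψ (t₃ + h) + ψ (t₃ - h) := by
    simp only [ψ]
    linarith
  linarith

end Pool.Agent.R172
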