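import Mathlib
import Pool.Agent.R172.Conn
import Pool.Agent.R172.Variation
import Pool.Agent.R172.Flow

set_option autoImplicit false
set_option linter.unusedSectionVars false

/-!
# Starshapedness from the movability of the locally non-convex points
-/

namespace Pool.Agent.R172

open Set Metric Topology Filter

variable {V : Type*} [NormedAddCommGroup V] [InnerProductSpace ℝ V]

/-- The case where the centre belongs to the set. -/
lemma star_of_mem {E : Set V} (hE : IsClosed E) (hc : IsPreconnected E) {y : V} (hy : y ∈ E)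
    (hQ : ∀ q ∈ E, (∀ r > 0, ¬ Convex ℝ (ball q r ∩ E)) → Moves E y q) :
    ∀ x ∈ E, ∀ t ∈ Icc (0 : ℝ) 1, mv y x t ∈ E := by
  have hmy : Moves E y y := by
    by_cases h : ∀ r > 0, ¬ Convex ℝ (ball y r ∩ E)
    · exact hQ y hy h
    · push Not at h
      obtain ⟨r, hr, hconv⟩ := h
      refine ⟨r, hr, 1, one_pos, fun z hz hd t ht => ?_⟩
      have := hconv (⟨hd, hz⟩ : z ∈ ball y r ∩ E) (⟨mem_ball_self hr, hy⟩ : y ∈ ball y r ∩ E)
        (by linarith [ht.2] : 0 ≤ 1 - t) ht.1 (by ring)
      have e : (1 - t) • z + t • y = z + t • (y - z) := by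
        simp only [sub_smul, smul_sub, one_smul]
        abel
      rw [e] at this
      exact this.2
  have hF : ∀ x z, x ∈ E → z ∈ E → (∀ t ∈ Icc (0 : ℝ) 1, mv y x t ∈ E) →
      (∀ t ∈ Icc (0 : ℝ) 1, mv y z t ∈ E) := by
    intro x z hx hz
    refine hc.induction₂' (fun x z => (∀ t ∈ Icc (0 : ℝ) 1, mv y x t ∈ E) →
      (∀ t ∈ Icc (0 : ℝ) 1, mv y z t ∈ E)) ?_ ?_ hx hz
    · intro x hx
      by_cases hxF : ∀ t ∈ Icc (0 : ℝ) 1, mv y x t ∈ E
      · -- the set is open at `x`
        obtain ⟨ε, hε, hnear⟩ := hmy.near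
        have hm1 : ∀ t, 1 - ε / (dist y x + 1) < t → t ≤ 1 → Moves E y (mv y x t) := by
          intro t ht ht1
          apply hnear
          have h1 := dist_mv_same y x t 1
          rw [mv_one, abs_of_nonpos (by linarith)] at h1
          rw [h1]
          have hd := dist_nonneg (x := y) (y := x)
          have h2 : 1 - t < ε / (dist y x + 1) := by linarith
          rw [lt_div_iff₀ (by linarith)] at h2
          nlinarith
        have hall : ∀ t ∈ Icc (0 : ℝ) 1, Moves E y (mv y x t) := by
          have hd := dist_nonneg (x := y) (y := x)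
          have he : 0 < ε / (dist y x + 1) := by positivity
          let κ := max 0 (1 - ε / (2 * (dist y x + 1)))
          have he2 : 0 < ε / (2 * (dist y x + 1)) := by positivity
          have he3 : ε / (2 * (dist y x + 1)) < ε / (dist y x + 1) := by
            apply div_lt_div_of_pos_left hε (by linarith) (by linarith)
          have hκ1 : κ < 1 := max_lt one_pos (by linarith)
          have hκ0 : 0 ≤ κ := le_max_left _ _
          have hκ2 : 1 - ε / (dist y x + 1) < κ := lt_of_lt_of_le (by linarith) (le_max_right _ _)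
          have hb := moves_back hE hQ (s := x) hκ1
            (fun t ht => hxF t ⟨ht.1, by linarith [ht.2]⟩) (hm1 κ hκ2 hκ1.le)
          intro t ht
          rcases le_total t κ with h | h
          · exact hb t ⟨ht.1, h⟩
          · exact hm1 t (by linarith) ht.2
        obtain ⟨ε', hε', hflow⟩ := flow hE (y := y) (x := x) zero_le_one le_rfl hall
        filter_upwards [self_mem_nhdsWithin, mem_nhdsWithin_of_mem_nhds (ball_mem_nhds x hε')]
          with z hz hzb
        exact ⟨fun _ => hflow z hz hzb, fun _ => hxF⟩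
      · -- the complement is open
        have hclosed : IsClosed {z | ∀ t ∈ Icc (0 : ℝ) 1, mv y z t ∈ E} := by
          have : {z | ∀ t ∈ Icc (0 : ℝ) 1, mv y z t ∈ E} =
              ⋂ t : ℝ, ⋂ _ : t ∈ Icc (0 : ℝ) 1, {z | mv y z t ∈ E} := by
            ext z
            simp
          rw [this]
          refine isClosed_iInter fun t => isClosed_iInter fun _ => hE.preimage ?_
          unfold mv
          fun_prop
        have hmem : {z | ∀ t ∈ Icc (0 : ℝ) 1, mv y z t ∈ E}ᶜ ∈ 𝓝 x :=
          hclosed.isOpen_compl.mem_nhds hxF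
        filter_upwards [mem_nhdsWithin_of_mem_nhds hmem] with z hz
        exact ⟨fun h => absurd h hxF, fun h => absurd h hz⟩
    · intro a b c _ _ _ hab hbc h
      exact hbc (hab h)
  intro x hx
  refine hF y x hy hx (fun t _ => ?_)
  have : mv y y t = y := by simp [mv]
  rw [this]
  exact hy

lemma Conn.of_mv {E : Set V} {y z : V} {κ : ℝ} (hκ : 0 ≤ κ) (h : ∀ t ∈ Icc 0 κ, mv y z t ∈ E) :
    ∃ l, Conn E z (mv y z κ) l := by
  have := Conn.of_lipschitz (E := E) (L := dist y z) hκ (mv y z) h (fun s _ t _ hst => by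
    rw [dist_mv_same, abs_of_nonpos (by linarith)]
    linarith)
  rw [mv_zero] at this
  exact ⟨_, this⟩

lemma Conn.of_convex {E : Set V} {c p q : V} {r : ℝ} (hconv : Convex ℝ (ball c r ∩ E))
    (hp : p ∈ ball c r ∩ E) (hq : q ∈ ball c r ∩ E) : Conn E p q (dist p q) := by
  refine Conn.of_segment fun t ht => ?_
  have := hconv hp hq (by linarith [ht.2] : 0 ≤ 1 - t) ht.1 (by ring)
  have e : (1 - t) • p + t • q = p + t • (q - p) := by
    simp only [sub_smul, smul_sub, one_smul]
    abel
  rw [e] at this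
  exact this.2

/-- Rectifiable connectedness. -/
lemma exists_conn {E : Set V} (hE : IsClosed E) (hc : IsPreconnected E) {y : V} (hy : y ∉ E)
    (hQ : ∀ q ∈ E, (∀ r > 0, ¬ Convex ℝ (ball q r ∩ E)) → Moves E y q) {x x' : V}
    (hx : x ∈ E) (hx' : x' ∈ E) : ∃ l, Conn E x x' l := by
  refine hc.induction₂ (fun x z => ∃ l, Conn E x z l) ?_ ?_ ?_ hx hx'
  · intro x hx
    by_cases h : ∀ r > 0, ¬ Convex ℝ (ball x r ∩ E)
    · obtain ⟨κ, hκ0, hκ1, hseg, hmov, hstop⟩ := first_stop hE hy hx
      have hmx : Moves E y x := hQ x hx h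
      have hκpos : 0 < κ := by
        rcases hκ0.eq_or_lt with h' | h'
        · rw [← h', mv_zero] at hstop
          exact absurd hmx hstop
        · exact h'
      -- convex neighbourhood of the stopping point
      have hconv : ∃ r > 0, Convex ℝ (ball (mv y x κ) r ∩ E) := by
        by_contra hcon
        push Not at hcon
        exact hstop (hQ _ (hseg κ ⟨hκ0, le_rfl⟩) hcon)
      obtain ⟨r, hr, hconv⟩ := hconv
      have hd := dist_nonneg (x := y) (y := x)
      let κ' := max 0 (κ - r / (4 * (dist y x + 1)))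
      have hpos : 0 < r / (4 * (dist y x + 1)) := by positivity
      have hκ'0 : 0 ≤ κ' := le_max_left _ _
      have hκ'lt : κ' < κ := max_lt hκpos (by linarith)
      have hκ'ge : κ - r / (4 * (dist y x + 1)) ≤ κ' := le_max_right _ _
      have hdist : dist (mv y x κ') (mv y x κ) < r / 2 := by
        rw [dist_mv_same, abs_of_nonpos (by linarith)]
        have h1 : κ - κ' ≤ r / (4 * (dist y x + 1)) := by linarith
        rw [le_div_iff₀ (by linarith)] at h1
        nlinarith
      obtain ⟨ε, hε, hflow⟩ := flow hE (y := y) (x := x) hκ'0 (by linarith)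
        (fun t ht => hmov t ⟨ht.1, by linarith [ht.2]⟩)
      filter_upwards [self_mem_nhdsWithin, mem_nhdsWithin_of_mem_nhds (ball_mem_nhds x
        (lt_min hε (by linarith : 0 < r / 2)))] with z hz hzb
      have hz1 : dist z x < ε := lt_of_lt_of_le hzb (min_le_left _ _)
      have hz2 : dist z x < r / 2 := lt_of_lt_of_le hzb (min_le_right _ _)
      have hzflow := hflow z hz hz1
      obtain ⟨l₁, c₁⟩ := Conn.of_mv (E := E) (y := y) (z := x) hκ'0
        (fun t ht => hseg t ⟨ht.1, by linarith [ht.2]⟩)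
      obtain ⟨l₃, c₃⟩ := Conn.of_mv (E := E) (y := y) (z := z) hκ'0 hzflow
      have c₂ : Conn E (mv y x κ') (mv y z κ') (dist (mv y x κ') (mv y z κ')) := by
        refine Conn.of_convex hconv ⟨?_, ?_⟩ ⟨?_, ?_⟩
        · rw [mem_ball]
          linarith
        · exact hseg κ' ⟨hκ'0, hκ'lt.le⟩
        · rw [mem_ball]
          have h1 := dist_mv_mv_le y z x hκ'0 (by linarith)
          have h2 := dist_triangle (mv y z κ') (mv y x κ') (mv y x κ)
          linarith
        · exact hzflow κ' ⟨hκ'0, le_rfl⟩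
      exact ⟨_, (c₁.trans c₂).trans c₃.symm⟩
    · push Not at h
      obtain ⟨r, hr, hconv⟩ := h
      filter_upwards [self_mem_nhdsWithin, mem_nhdsWithin_of_mem_nhds (ball_mem_nhds x hr)]
        with z hz hzb
      exact ⟨_, Conn.of_convex hconv ⟨mem_ball_self hr, hx⟩ ⟨hzb, hz⟩⟩
  · rintro a b c _ _ _ ⟨l, h⟩ ⟨l', h'⟩
    exact ⟨_, h.trans h'⟩
  · rintro a b _ _ ⟨l, h⟩
    exact ⟨_, h.symm⟩

/-- If the centre is not in the set, then a nearest point gives a supporting half space. -/
lemma supporting {E : Set V} (hE : IsCompact E) (hc : IsPreconnected E) {y : V} (hy : y ∉ E)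
    (hQ : ∀ q ∈ E, (∀ r > 0, ¬ Convex ℝ (ball q r ∩ E)) → Moves E y q) {w : V} (hw : w ∈ E)
    (hnear : ∀ x ∈ E, ‖w - y‖ ≤ ‖x - y‖) : ∀ x ∈ E, 0 ≤ inner ℝ (x - w) (w - y) := by
  intro x hx
  obtain ⟨M, hM⟩ := exists_conn hE.isClosed hc hy hQ hw hx
  obtain ⟨L, γ, hL, hγ0, hγ1, hγE, hγL, hmin⟩ := exists_shortest hE hM
  have h01 : dist w x ≤ L := by
    have := hγL 0 ⟨le_rfl, zero_le_one⟩ 1 ⟨zero_le_one, le_rfl⟩
    rw [hγ0, hγ1] at this
    simpa using this
  rcases hL.eq_or_lt with hL0 | hLpos
  · rw [← hL0] at h01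
    have : w = x := dist_le_zero.1 h01
    rw [this, sub_self, inner_zero_left]
  -- the sub-paths are shortest
  have hsub : ∀ a b, 0 ≤ a → a ≤ b → b ≤ 1 → ∀ l, Conn E (γ a) (γ b) l → L * (b - a) ≤ l := by
    intro a b ha hab hb l hl
    have c₁ : Conn E (γ 0) (γ a) (L * (a - 0)) := Conn.of_lipschitz ha γ (fun t _ => hγE t)
      (fun s hs t ht hst => by
        have := hγL s ⟨hs.1, by linarith [hs.2]⟩ t ⟨ht.1, by linarith [ht.2]⟩
        rwa [abs_of_nonneg (by linarith)] at this)
    have c₃ : Conn E (γ b) (γ 1) (L * (1 - b)) := Conn.of_lipschitz hb γ (fun t _ => hγE t)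
      (fun s hs t ht hst => by
        have := hγL s ⟨by linarith [hs.1], hs.2⟩ t ⟨by linarith [ht.1], ht.2⟩
        rwa [abs_of_nonneg (by linarith)] at this)
    have := (c₁.trans hl).trans c₃
    rw [hγ0, hγ1] at this
    have := hmin _ this
    linarith
  let f : ℝ → ℝ := fun t => ‖γ t - y‖ ^ 2
  let φ : ℝ → ℝ := fun t => f t - L ^ 2 * t ^ 2
  have hγc : ContinuousOn γ (Icc 0 1) := by
    have : LipschitzOnWith (Real.toNNReal L) γ (Icc 0 1) := by
      refine LipschitzOnWith.of_dist_le_mul fun s hs t ht => ?_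
      rw [Real.coe_toNNReal _ hL, Real.dist_eq, abs_sub_comm]
      exact hγL s hs t ht
    exact this.continuousOn
  have hφc : ContinuousOn φ (Icc 0 1) := by
    simp only [φ, f]
    fun_prop
  have hloc : ∀ t ∈ Ioo (0 : ℝ) 1, ∃ δ > 0, ∀ h, 0 < h → h < δ →
      2 * φ t ≤ φ (t + h) + φ (t - h) := by
    intro t ht
    have hkey : ∃ δ > 0, ∀ h, 0 < h → h < δ →
        2 * L ^ 2 * h ^ 2 ≤ f (t + h) + f (t - h) - 2 * f t := by
      by_cases hmt : Moves E y (γ t)
      · obtain ⟨ε, hε, τ, hτ, hmv⟩ := hmt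
        refine ⟨min (min t (1 - t)) (ε / L), lt_min (lt_min ht.1 (by linarith [ht.2]))
          (by positivity), fun h hh0 hh => ?_⟩
        have hht : h < t := hh.trans_le ((min_le_left _ _).trans (min_le_left _ _))
        have hht' : h < 1 - t := hh.trans_le ((min_le_left _ _).trans (min_le_right _ _))
        have hhε : h < ε / L := hh.trans_le (min_le_right _ _)
        rw [lt_div_iff₀ hLpos] at hhε
        refine second_variation (E := E) (y := y) (γ := γ) (m := t) hLpos hh0 hτ ?_ ?_ ?_
        · intro s hs u hu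
          exact hγL s ⟨by linarith [hs.1], by linarith [hs.2]⟩ u
            ⟨by linarith [hu.1], by linarith [hu.2]⟩
        · intro s hs τ' hτ'
          refine hmv (γ s) (hγE s) ?_ τ' hτ'
          have h1 := hγL s ⟨by linarith [hs.1], by linarith [hs.2]⟩ t ⟨ht.1.le, ht.2.le⟩
          have h2 : |t - s| ≤ h := abs_le.2 ⟨by linarith [hs.2], by linarith [hs.1]⟩
          have h3 := mul_le_mul_of_nonneg_left h2 hL
          linarith
        · intro l hl
          have := hsub (t - h) (t + h) (by linarith) (by linarith) (by linarith) l hl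
          linarith
      · have hconv : ∃ r > 0, Convex ℝ (ball (γ t) r ∩ E) := by
          by_contra hcon
          push Not at hcon
          exact hmt (hQ _ (hγE t) hcon)
        obtain ⟨r, hr, hconv⟩ := hconv
        refine ⟨min (min t (1 - t)) (r / L), lt_min (lt_min ht.1 (by linarith [ht.2]))
          (by positivity), fun h hh0 hh => ?_⟩
        have hht : h < t := hh.trans_le ((min_le_left _ _).trans (min_le_left _ _))
        have hht' : h < 1 - t := hh.trans_le ((min_le_left _ _).trans (min_le_right _ _))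
        have hhr : h < r / L := hh.trans_le (min_le_right _ _)
        rw [lt_div_iff₀ hLpos] at hhr
        have d1 : dist (γ (t - h)) (γ t) ≤ L * h := by
          have := hγL (t - h) ⟨by linarith, by linarith⟩ t ⟨ht.1.le, ht.2.le⟩
          rwa [show t - (t - h) = h by ring, abs_of_pos hh0] at this
        have d2 : dist (γ t) (γ (t + h)) ≤ L * h := by
          have := hγL t ⟨ht.1.le, ht.2.le⟩ (t + h) ⟨by linarith [ht.1], by linarith⟩
          rwa [show t + h - t = h by ring, abs_of_pos hh0] at this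
        have cn := Conn.of_convex hconv (p := γ (t - h)) (q := γ (t + h))
          ⟨by rw [mem_ball]; linarith, hγE _⟩
          ⟨by rw [mem_ball, dist_comm]; linarith, hγE _⟩
        have d3 := hsub (t - h) (t + h) (by linarith) (by linarith) (by linarith) _ cn
        have := second_variation_convex (y := y) d1 d2 (by linarith)
        simp only [f]
        rw [mul_pow] at this
        linarith
    obtain ⟨δ, hδ, hkey⟩ := hkey
    refine ⟨δ, hδ, fun h hh0 hh => ?_⟩
    have := hkey h hh0 hh
    simp only [φ]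
    nlinarith
  have hchord := chord_of_local_midpoint hφc hloc
  have hf0 : f 0 = ‖w - y‖ ^ 2 := by simp only [f, hγ0]
  have hf1 : f 1 = ‖x - y‖ ^ 2 := by simp only [f, hγ1]
  have hfge : ∀ t, f 0 ≤ f t := by
    intro t
    rw [hf0]
    exact pow_le_pow_left₀ (norm_nonneg _) (hnear _ (hγE t)) 2
  have hfinal : 0 ≤ f 1 - f 0 - L ^ 2 := by
    refine nonneg_of_linear (B := L ^ 2) one_pos ?_
    intro t ht0 ht1
    have h1 := hchord t ⟨ht0.le, ht1⟩
    have h2 := hfge t
    simp only [φ] at h1
    have h3 : 0 ≤ t * (f 1 - f 0 - L ^ 2 + t * L ^ 2) := by nlinarith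
    exact nonneg_of_mul_nonneg_right h3 ht0
  have hxw : ‖x - w‖ ^ 2 ≤ L ^ 2 := by
    rw [dist_comm, dist_eq_norm] at h01
    exact pow_le_pow_left₀ (norm_nonneg _) h01 2
  have hexp : ‖x - y‖ ^ 2 = ‖x - w‖ ^ 2 + 2 * inner ℝ (x - w) (w - y) + ‖w - y‖ ^ 2 := by
    rw [← norm_add_sq_real]
    congr 2
    abel
  rw [hf0, hf1] at hfinal
  linarith

/-- The centre belongs to the set if it belongs to the closed convex hull. -/
lemma mem_of_mem_closure_hull {E : Set V} (hE : IsCompact E) (hc : IsPreconnected E)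
    (hne : E.Nonempty) {y : V} (hyh : y ∈ closure (convexHull ℝ E))
    (hQ : ∀ q ∈ E, (∀ r > 0, ¬ Convex ℝ (ball q r ∩ E)) → Moves E y q) : y ∈ E := by
  by_contra hy
  obtain ⟨w, hw, hmin⟩ := hE.exists_isMinOn hne (f := fun x => ‖x - y‖) (by fun_prop)
  have hsup := supporting hE hc hy hQ hw (fun x hx => hmin hx)
  have hconv : Convex ℝ {z : V | 0 ≤ inner ℝ (z - w) (w - y)} := by
    intro p hp p' hp' α β hα hβ hαβ
    simp only [mem_ofPred_eq] at hp hp' ⊢
    have : α • p + β • p' - w = α • (p - w) + β • (p' - w) := by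
      have hb1 : w = α • w + β • w := by rw [← add_smul, hαβ, one_smul]
      conv_lhs => rw [hb1]
      simp only [smul_sub]
      abel
    rw [this, inner_add_left, inner_smul_left, inner_smul_left]
    simp only [RCLike.conj_to_real]
    positivity
  have hclosed : IsClosed {z : V | 0 ≤ inner ℝ (z - w) (w - y)} :=
    isClosed_le continuous_const (by fun_prop)
  have h : 0 ≤ inner ℝ (y - w) (w - y) :=
    closure_minimal (convexHull_min (fun x hx => hsup x hx) hconv) hclosed hyh
  have h2 : inner ℝ (y - w) (w - y) = - ‖w - y‖ ^ 2 := by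
    rw [← real_inner_self_eq_norm_sq, ← inner_neg_left, neg_sub]
  rw [h2] at h
  have h3 : ‖w - y‖ = 0 := by
    have := norm_nonneg (w - y)
    nlinarith
  have h4 : w = y := sub_eq_zero.1 (norm_eq_zero.1 h3)
  exact hy (h4 ▸ hw)

end Pool.Agent.R172
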