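import Mathlib

set_option autoImplicit false

/-!
# Symmetrizations in a subspace which fix the spherical cylinders
-/

namespace Pool.Agent.R172.Symm

open Set Metric

variable {n : ℕ}

/-- Nonempty compact convex sets. -/
def KC (n : ℕ) : Set (Set (EuclideanSpace ℝ (Fin n))) :=
  {K | K.Nonempty ∧ IsCompact K ∧ Convex ℝ K}

/-- Convex bodies: compact convex sets with nonempty interior. -/
def KB (n : ℕ) : Set (Set (EuclideanSpace ℝ (Fin n))) :=
  {K | (interior K).Nonempty ∧ IsCompact K ∧ Convex ℝ K}

/-- The spherical cylinder `D_r(x) + s (B ∩ Hᗮ)`. -/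
def cyl (H : Submodule ℝ (EuclideanSpace ℝ (Fin n))) (x : EuclideanSpace ℝ (Fin n)) (r s : ℝ) :
    Set (EuclideanSpace ℝ (Fin n)) :=
  {p | ∃ a ∈ H, ∃ b ∈ Hᗮ, ‖a - x‖ ≤ r ∧ ‖b‖ ≤ s ∧ p = a + b}

variable (H : Submodule ℝ (EuclideanSpace ℝ (Fin n)))

/-- The set of the points whose projection is within `ε` of the projection of `K`, and whose
distance to `H` is at most `s`. -/
def box (K : Set (EuclideanSpace ℝ (Fin n))) (ε s : ℝ) : Set (EuclideanSpace ℝ (Fin n)) :=
  {p | H.starProjection p ∈ cthickening ε (H.starProjection '' K) ∧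
    ‖p - H.starProjection p‖ ≤ s}

lemma proj_compact {K : Set (EuclideanSpace ℝ (Fin n))} (hK : IsCompact K) :
    IsCompact (H.starProjection '' K) :=
  hK.image H.starProjection.continuous

lemma proj_convex {K : Set (EuclideanSpace ℝ (Fin n))} (hK : Convex ℝ K) :
    Convex ℝ (H.starProjection '' K) :=
  hK.linear_image H.starProjection.toLinearMap

lemma box_convex {K : Set (EuclideanSpace ℝ (Fin n))} (hK : Convex ℝ K) (ε s : ℝ) :
    Convex ℝ (box H K ε s) := by
  have h1 : Convex ℝ (cthickening ε (H.starProjection '' K)) := (proj_convex H hK).cthickening ε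
  intro p hp q hq a b ha hb hab
  refine ⟨?_, ?_⟩
  · rw [map_add, map_smul, map_smul]
    exact h1 hp.1 hq.1 ha hb hab
  · have e : a • p + b • q - H.starProjection (a • p + b • q)
        = a • (p - H.starProjection p) + b • (q - H.starProjection q) := by
      rw [map_add, map_smul, map_smul, smul_sub, smul_sub]
      abel
    rw [e]
    calc ‖a • (p - H.starProjection p) + b • (q - H.starProjection q)‖
        ≤ ‖a • (p - H.starProjection p)‖ + ‖b • (q - H.starProjection q)‖ := norm_add_le _ _
      _ = a * ‖p - H.starProjection p‖ + b * ‖q - H.starProjection q‖ := by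
        rw [norm_smul, norm_smul, Real.norm_of_nonneg ha, Real.norm_of_nonneg hb]
      _ ≤ a * s + b * s := add_le_add (mul_le_mul_of_nonneg_left hp.2 ha)
        (mul_le_mul_of_nonneg_left hq.2 hb)
      _ = s := by rw [← add_mul, hab, one_mul]

lemma box_compact {K : Set (EuclideanSpace ℝ (Fin n))} (hK : IsCompact K) (ε s : ℝ) :
    IsCompact (box H K ε s) := by
  have h1 : IsCompact (cthickening ε (H.starProjection '' K)) := (proj_compact H hK).cthickening
  apply Metric.isCompact_of_isClosed_isBounded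
  · apply IsClosed.inter
    · exact h1.isClosed.preimage H.starProjection.continuous
    · exact isClosed_le (continuous_id.sub H.starProjection.continuous).norm continuous_const
  · obtain ⟨R, hR⟩ := h1.isBounded.exists_norm_le
    refine isBounded_iff_forall_norm_le.2 ⟨R + s, fun p hp => ?_⟩
    calc ‖p‖ = ‖H.starProjection p + (p - H.starProjection p)‖ := by congr 1; abel
      _ ≤ ‖H.starProjection p‖ + ‖p - H.starProjection p‖ := norm_add_le _ _
      _ ≤ R + s := add_le_add (hR _ hp.1) hp.2

lemma norm_proj_le (v : EuclideanSpace ℝ (Fin n)) : ‖H.starProjection v‖ ≤ ‖v‖ :=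
  H.norm_starProjection_apply_le v

lemma proj_mem (v : EuclideanSpace ℝ (Fin n)) : H.starProjection v ∈ H :=
  H.starProjection_apply_mem v

lemma sub_proj_mem (v : EuclideanSpace ℝ (Fin n)) : v - H.starProjection v ∈ Hᗮ :=
  H.sub_starProjection_mem_orthogonal v

lemma proj_of_mem {v : EuclideanSpace ℝ (Fin n)} (hv : v ∈ H) : H.starProjection v = v :=
  Submodule.starProjection_eq_self_iff.2 hv

lemma proj_of_mem_orth {v : EuclideanSpace ℝ (Fin n)} (hv : v ∈ Hᗮ) : H.starProjection v = 0 :=
  (H.starProjection_apply_eq_zero_iff).2 hv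

lemma norm_sub_proj_le (v : EuclideanSpace ℝ (Fin n)) {w : EuclideanSpace ℝ (Fin n)}
    (hw : w ∈ H) : ‖v - H.starProjection v‖ ≤ ‖v - w‖ := by
  have h := Submodule.norm_sq_eq_add_norm_sq_starProjection (v - w) H
  have e : Hᗮ.starProjection (v - w) = v - H.starProjection v := by
    rw [map_sub, H.starProjection_orthogonal_val, H.starProjection_orthogonal_val,
      proj_of_mem H hw, sub_self, sub_zero]
  rw [e] at h
  have h1 : 0 ≤ ‖H.starProjection (v - w)‖ ^ 2 := sq_nonneg _
  exact le_of_sq_le_sq (by linarith) (norm_nonneg _)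

lemma box_interior {K : Set (EuclideanSpace ℝ (Fin n))} (hK : K.Nonempty) {ε s : ℝ}
    (hε : 0 < ε) (hs : 0 < s) : (interior (box H K ε s)).Nonempty := by
  obtain ⟨k, hk⟩ := hK
  refine ⟨H.starProjection k, ?_⟩
  rw [mem_interior_iff_mem_nhds, Metric.mem_nhds_iff]
  refine ⟨min ε s, lt_min hε hs, ?_⟩
  intro p hp
  rw [mem_ball, dist_eq_norm] at hp
  have h1 : ‖p - H.starProjection k‖ < ε := hp.trans_le (min_le_left _ _)
  have h2 : ‖p - H.starProjection k‖ < s := hp.trans_le (min_le_right _ _)
  refine ⟨?_, ?_⟩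
  · apply mem_cthickening_of_dist_le _ (H.starProjection k) _ _ (mem_image_of_mem _ hk)
    rw [dist_eq_norm]
    have e : H.starProjection p - H.starProjection k
        = H.starProjection (p - H.starProjection k) := by
      rw [map_sub, proj_of_mem H (proj_mem H k)]
    rw [e]
    exact (norm_proj_le H _).trans h1.le
  · exact (norm_sub_proj_le H p (proj_mem H k)).trans h2.le

lemma subset_box {K : Set (EuclideanSpace ℝ (Fin n))} {ε s : ℝ}
    (hs : ∀ p ∈ K, ‖p‖ ≤ s) : K ⊆ box H K ε s := by
  intro p hp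
  refine ⟨self_subset_cthickening _ ⟨p, hp, rfl⟩, ?_⟩
  have := norm_sub_proj_le H p (w := 0) H.zero_mem
  rw [sub_zero] at this
  exact this.trans (hs p hp)

/-- A class of sets which is one of the two classes. -/
def IsClass (B : Set (Set (EuclideanSpace ℝ (Fin n)))) : Prop := B = KC n ∨ B = KB n

lemma IsClass.compact {B : Set (Set (EuclideanSpace ℝ (Fin n)))} (hB : IsClass B)
    {K : Set (EuclideanSpace ℝ (Fin n))} (hK : K ∈ B) : IsCompact K := by
  rcases hB with rfl | rfl
  · exact hK.2.1
  · exact hK.2.1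

lemma IsClass.convex {B : Set (Set (EuclideanSpace ℝ (Fin n)))} (hB : IsClass B)
    {K : Set (EuclideanSpace ℝ (Fin n))} (hK : K ∈ B) : Convex ℝ K := by
  rcases hB with rfl | rfl
  · exact hK.2.2
  · exact hK.2.2

lemma IsClass.nonempty {B : Set (Set (EuclideanSpace ℝ (Fin n)))} (hB : IsClass B)
    {K : Set (EuclideanSpace ℝ (Fin n))} (hK : K ∈ B) : K.Nonempty := by
  rcases hB with rfl | rfl
  · exact hK.1
  · exact hK.1.mono interior_subset

lemma IsClass.mem_of_interior {B : Set (Set (EuclideanSpace ℝ (Fin n)))} (hB : IsClass B)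
    {K : Set (EuclideanSpace ℝ (Fin n))} (h1 : (interior K).Nonempty) (h2 : IsCompact K)
    (h3 : Convex ℝ K) : K ∈ B := by
  rcases hB with rfl | rfl
  · exact ⟨h1.mono interior_subset, h2, h3⟩
  · exact ⟨h1, h2, h3⟩

lemma IsClass.inter_ball {B : Set (Set (EuclideanSpace ℝ (Fin n)))} (hB : IsClass B)
    {K : Set (EuclideanSpace ℝ (Fin n))} (hK : K ∈ B) {k : EuclideanSpace ℝ (Fin n)}
    (hk : k ∈ K) {δ : ℝ} (hδ : 0 < δ) : K ∩ closedBall k δ ∈ B := by
  have hc : IsCompact (K ∩ closedBall k δ) := (hB.compact hK).inter_right isClosed_closedBall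
  have hv : Convex ℝ (K ∩ closedBall k δ) := (hB.convex hK).inter (convex_closedBall _ _)
  rcases hB with rfl | rfl
  · exact ⟨⟨k, hk, mem_closedBall_self hδ.le⟩, hc, hv⟩
  · refine ⟨?_, hc, hv⟩
    have h1 : k ∈ closure (interior K) := by
      rw [hK.2.2.closure_interior_eq_closure_of_nonempty_interior hK.1]
      exact subset_closure hk
    obtain ⟨y, hy1, hy2⟩ := Metric.mem_closure_iff.1 h1 δ hδ
    refine ⟨y, ?_⟩
    rw [interior_inter]
    refine ⟨hy1, ?_⟩
    rw [interior_closedBall k hδ.ne', mem_ball, dist_comm]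
    exact hy2

/-- The main lemma. -/
theorem proj_invariant {B : Set (Set (EuclideanSpace ℝ (Fin n)))} (hB : IsClass B)
    (S : Set (EuclideanSpace ℝ (Fin n)) → Set (EuclideanSpace ℝ (Fin n)))
    (hS : ∀ K ∈ B, S K ∈ B)
    (hmono : ∀ K ∈ B, ∀ L ∈ B, K ⊆ L → S K ⊆ S L)
    (hcyl : ∀ x ∈ H, ∀ r > 0, ∀ s > 0, S (cyl H x r s) = cyl H x r s)
    (hcylB : ∀ x ∈ H, ∀ r > 0, ∀ s > 0, cyl H x r s ∈ B)
    (hstar : ∀ K ∈ B, K ⊆ S K → S K = K) :
    ∀ K ∈ B, H.starProjection '' S K = H.starProjection '' K := by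
  -- the upper bound
  have hup : ∀ K ∈ B, H.starProjection '' S K ⊆ H.starProjection '' K := by
    intro K hK
    obtain ⟨s₀, hs₀⟩ := (hB.compact hK).isBounded.exists_norm_le
    set s := max s₀ 1 with hs
    have hs1 : 0 < s := lt_of_lt_of_le one_pos (le_max_right _ _)
    have hsK : ∀ p ∈ K, ‖p‖ ≤ s := fun p hp => (hs₀ p hp).trans (le_max_left _ _)
    have hcl : closure (H.starProjection '' K) = H.starProjection '' K :=
      (proj_compact H (hB.compact hK)).isClosed.closure_eq
    rintro _ ⟨p, hp, rfl⟩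
    rw [← hcl, closure_eq_iInter_cthickening]
    rw [mem_iInter₂]
    intro ε hε
    have hL : box H K ε s ∈ B := hB.mem_of_interior (box_interior H (hB.nonempty hK) hε hs1)
      (box_compact H (hB.compact hK) ε s) (box_convex H (hB.convex hK) ε s)
    have hLS : box H K ε s ⊆ S (box H K ε s) := by
      intro q hq
      obtain ⟨hq1, hq2⟩ := hq
      obtain ⟨k₀, hk₀, hd⟩ : ∃ k₀ ∈ H.starProjection '' K, dist (H.starProjection q) k₀ ≤ ε := by
        have hc := proj_compact H (hB.compact hK)
        have hne : (H.starProjection '' K).Nonempty := (hB.nonempty hK).image _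
        obtain ⟨k₀, hk₀, he⟩ := hc.exists_infDist_eq_dist hne (H.starProjection q)
        refine ⟨k₀, hk₀, ?_⟩
        rw [← he]
        rw [cthickening_eq_preimage_infEDist] at hq1
        have h1 : infEDist (H.starProjection q) (H.starProjection '' K) ≤ ENNReal.ofReal ε := hq1
        exact ENNReal.toReal_le_of_le_ofReal hε.le h1
      have hk₀H : k₀ ∈ H := by
        obtain ⟨k, -, rfl⟩ := hk₀
        exact proj_mem H k
      set a := H.starProjection q with ha
      set b := q - H.starProjection q with hb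
      have hclosed : IsClosed (S (box H K ε s)) := (hB.compact (hS _ hL)).isClosed
      -- the approximating points
      have happ : ∀ t : ℝ, 0 < t → t ≤ 1 → (k₀ + (1 - t) • (a - k₀)) + b ∈ S (box H K ε s) := by
        intro t ht0 ht1
        have hxH : k₀ + (1 - t) • (a - k₀) ∈ H :=
          H.add_mem hk₀H (H.smul_mem _ (H.sub_mem (proj_mem H q) hk₀H))
        have hsub : cyl H (k₀ + (1 - t) • (a - k₀)) (t * ε) s ⊆ box H K ε s := by
          rintro _ ⟨a', ha', b', hb', h1, h2, rfl⟩
          have e1 : H.starProjection (a' + b') = a' := by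
            rw [map_add, proj_of_mem H ha', proj_of_mem_orth H hb', add_zero]
          refine ⟨?_, ?_⟩
          · rw [e1]
            apply mem_cthickening_of_dist_le _ k₀ _ _ hk₀
            rw [dist_eq_norm]
            calc ‖a' - k₀‖ = ‖(a' - (k₀ + (1 - t) • (a - k₀))) + (1 - t) • (a - k₀)‖ := by
                  congr 1; abel
              _ ≤ ‖a' - (k₀ + (1 - t) • (a - k₀))‖ + ‖(1 - t) • (a - k₀)‖ := norm_add_le _ _
              _ ≤ t * ε + (1 - t) * ε := by
                  apply add_le_add h1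
                  rw [norm_smul, Real.norm_of_nonneg (by linarith)]
                  apply mul_le_mul_of_nonneg_left _ (by linarith)
                  rw [← dist_eq_norm]
                  exact hd
              _ = ε := by ring
          · rw [e1]
            have : a' + b' - a' = b' := by abel
            rw [this]
            exact h2
        have hmem : (k₀ + (1 - t) • (a - k₀)) + b ∈ cyl H (k₀ + (1 - t) • (a - k₀)) (t * ε) s :=
          ⟨_, hxH, b, sub_proj_mem H q, by rw [sub_self, norm_zero]; positivity, hq2, rfl⟩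
        rw [← hcyl _ hxH _ (by positivity) _ hs1] at hmem
        exact hmono _ (hcylB _ hxH _ (by positivity) _ hs1) _ hL hsub hmem
      have hlim : Filter.Tendsto (fun m : ℕ => (k₀ + (1 - (1 / ((m : ℝ) + 1))) • (a - k₀)) + b)
          Filter.atTop (nhds ((k₀ + (1 - (0 : ℝ)) • (a - k₀)) + b)) := by
        have h0 : Filter.Tendsto (fun m : ℕ => (1 / ((m : ℝ) + 1))) Filter.atTop (nhds 0) :=
          tendsto_one_div_add_atTop_nhds_zero_nat
        exact (tendsto_const_nhds.add ((tendsto_const_nhds.sub h0).smul_const _)).add_const b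
      have heq : (k₀ + (1 - (0 : ℝ)) • (a - k₀)) + b = q := by
        rw [sub_zero, one_smul, hb]
        abel
      rw [heq] at hlim
      refine hclosed.mem_of_tendsto hlim (Filter.Eventually.of_forall fun m => ?_)
      apply happ
      · positivity
      · rw [div_le_one (by positivity)]
        have : (0 : ℝ) ≤ (m : ℝ) := Nat.cast_nonneg m
        linarith
    have hfix := hstar _ hL hLS
    have h1 : S K ⊆ box H K ε s := by
      have := hmono _ hK _ hL (subset_box H hsK)
      rwa [hfix] at this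
    exact (h1 hp).1
  intro K hK
  apply Subset.antisymm (hup K hK)
  rintro _ ⟨k, hk, rfl⟩
  have hcl : closure (H.starProjection '' S K) = H.starProjection '' S K :=
    (proj_compact H (hB.compact (hS K hK))).isClosed.closure_eq
  rw [← hcl, Metric.mem_closure_iff]
  intro δ hδ
  have hK' : K ∩ closedBall k (δ / 2) ∈ B := hB.inter_ball hK hk (by linarith)
  obtain ⟨q, hq⟩ := hB.nonempty (hS _ hK')
  have h1 : H.starProjection q ∈ H.starProjection '' (K ∩ closedBall k (δ / 2)) :=
    hup _ hK' ⟨q, hq, rfl⟩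
  obtain ⟨k', hk', he⟩ := h1
  refine ⟨H.starProjection q, ⟨q, hmono _ hK' _ hK inter_subset_left hq, rfl⟩, ?_⟩
  rw [← he, dist_eq_norm, ← map_sub]
  have h2 : ‖k - k'‖ ≤ δ / 2 := by
    have := hk'.2
    rw [mem_closedBall, dist_comm, dist_eq_norm] at this
    exact this
  calc ‖H.starProjection (k - k')‖ ≤ ‖k - k'‖ := norm_proj_le H _
    _ ≤ δ / 2 := h2
    _ < δ := by linarith

/-- The spherical cylinders are convex bodies. -/
lemma cyl_eq (x : EuclideanSpace ℝ (Fin n)) (r s : ℝ) :
    cyl H x r s = {p | ‖H.starProjection p - x‖ ≤ r ∧ ‖p - H.starProjection p‖ ≤ s} := by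
  ext p
  constructor
  · rintro ⟨a, ha, b, hb, h1, h2, rfl⟩
    have e1 : H.starProjection (a + b) = a := by
      rw [map_add, proj_of_mem H ha, proj_of_mem_orth H hb, add_zero]
    refine ⟨by rw [e1]; exact h1, ?_⟩
    rw [e1]
    have : a + b - a = b := by abel
    rw [this]
    exact h2
  · rintro ⟨h1, h2⟩
    exact ⟨H.starProjection p, proj_mem H p, p - H.starProjection p, sub_proj_mem H p, h1, h2,
      by abel⟩

lemma cyl_eq_box {x : EuclideanSpace ℝ (Fin n)} (hx : x ∈ H) {r : ℝ} (hr : 0 < r) (s : ℝ) :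
    cyl H x r s = box H {x} r s := by
  rw [cyl_eq]
  ext p
  simp only [box, mem_ofPred_eq, image_singleton, proj_of_mem H hx]
  rw [cthickening_singleton _ hr.le, mem_closedBall, dist_eq_norm]

lemma cyl_mem {B : Set (Set (EuclideanSpace ℝ (Fin n)))} (hB : IsClass B)
    {x : EuclideanSpace ℝ (Fin n)} (hx : x ∈ H) {r : ℝ} (hr : 0 < r) {s : ℝ} (hs : 0 < s) :
    cyl H x r s ∈ B := by
  rw [cyl_eq_box H hx hr]
  exact hB.mem_of_interior (box_interior H (singleton_nonempty x) hr hs)
    (box_compact H isCompact_singleton r s) (box_convex H (convex_singleton x) r s)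

end Pool.Agent.R172.Symm
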